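import Pool.Agent.Helper21.DS.Mt

/-!
# Accidental zeros
-/

set_option autoImplicit false

namespace Pool.Agent.Helper21.DS

open Finset
open Pool.Agent.Helper22.ETModel Pool.Agent.Helper22.EP
open Pool.Agent.Helper23.SP (pre sg)
open Pool.Agent.Helper8.ZT

variable {m n k b Z M N : ℕ} [NeZero b]

/-- The real constants of the values in the basic instance. -/
noncomputable def countZeroBase (L Y Q : ℕ) (dg : E m → Fin k → Fin b)
    (z : E m → Bool × Fin Z) (u : Fin k → (Fin k → Fin b) → Fin M) (e : E m) : ℝ :=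
  ((if (z e).1 = true then (Q : ℤ) * (((z e).2 : ℕ) : ℤ) else (L : ℤ) * strc Y u (dg e) : ℤ) : ℝ) +
    (if e.1 = 0 then 1 else 0)

lemma countZero_vl (L Y Q : ℕ) (dg : E m → Fin k → Fin b)
    (z : E m → Bool × Fin Z) (u : Fin k → (Fin k → Fin b) → Fin M) (ν : E m → Fin (N + 1))
    (e : E m) :
    (vl L Y Q dg (z, u, ν) (tinyN ν) e : ℝ) =
      countZeroBase L Y Q dg z u e + 2 * ((ν e : ℕ) : ℝ) := by
  unfold vl countZeroBase tinyN
  simp only
  push_cast
  ring

lemma countZero_one (L Y Q : ℕ) (dg : E m → Fin k → Fin b)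
    (z : E m → Bool × Fin Z) (u : Fin k → (Fin k → Fin b) → Fin M) {d : ℕ}
    (φ : (E m → ℝ) → ℝ) (hφ : LineOK φ d) (hne : ∃ y, φ y ≠ 0)
    (B : Finset (E m → Fin (N + 1)))
    (hB : ∀ ν ∈ B, φ (fun e => (vl L Y Q dg (z, u, ν) (tinyN ν) e : ℝ)) = 0) :
    B.card * (N + 1) ≤ (3 * m ^ 2 * d) * Fintype.card (E m → Fin (N + 1)) := by
  have key := adaptive_sz (𝒜 := Unit) N 1 d (fun _ : E m → Fin (N + 1) => ())
    (fun _ _ => ⟨{()}, by simp, fun _ => by simp⟩) (fun _ => φ) (fun _ => hφ)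
    (countZeroBase L Y Q dg z u) B (by
      intro ν hν
      refine ⟨hne, ?_⟩
      have h1 := hB ν hν
      have h2 : (fun e => (vl L Y Q dg (z, u, ν) (tinyN ν) e : ℝ)) =
          fun e => countZeroBase L Y Q dg z u e + 2 * ((ν e : ℕ) : ℝ) := by
        funext e
        exact countZero_vl L Y Q dg z u ν e
      rw [h2] at h1
      exact h1)
  have hcard : Fintype.card (E m) = 3 * m ^ 2 := by
    simp only [E, Fintype.card_prod, Fintype.card_fin]
    ring
  rw [hcard, one_mul] at key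
  exact key

open Classical in
/-- Accidental zeros: `adaptive_sz` (Helper8/ZT/Adapt) with a constant `A`
(`H = 1`), `lineOK_pev`, `lineOK_update` (Helper50/ZT/Lines); union over the basic
instance and the `m ^ 3` pairs. -/
theorem count_zero (h : 3 * m ≤ n) {d : ℕ} (f : MvPolynomial (Fin n × Fin n) ℝ)
    (hf : f.totalDegree ≤ d) (L Y Q : ℕ) (dg : E m → Fin k → Fin b)
    (z : E m → Bool × Fin Z) (u : Fin k → (Fin k → Fin b) → Fin M) :
    (univ.filter fun ν : E m → Fin (N + 1) => ¬ ((∃ y, pev h f y ≠ 0) →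
      pev h f (fun e => (vl L Y Q dg (z, u, ν) (tinyN ν) e : ℝ)) ≠ 0 ∧
      ∀ i j l : Fin m, ((0, i, j), (1, j, l)) ∉ covp h f →
        pev h f (Function.update (fun e => (vl L Y Q dg (z, u, ν) (tinyN ν) e : ℝ)) (0, i, j)
          (vl L Y Q dg (z, u, ν) (tinyN ν) (1, j, l) : ℝ)) ≠ 0)).card * (N + 1) ≤
      (1 + m ^ 3) * (3 * m ^ 2 * d) * Fintype.card (E m → Fin (N + 1)) := by
  set val : (E m → Fin (N + 1)) → E m → ℝ :=
    fun ν e => (vl L Y Q dg (z, u, ν) (tinyN ν) e : ℝ) with hval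
  set B0 : Finset (E m → Fin (N + 1)) :=
    univ.filter fun ν => (∃ y, pev h f y ≠ 0) ∧ pev h f (val ν) = 0 with hB0
  set B1 : Fin m × Fin m × Fin m → Finset (E m → Fin (N + 1)) := fun t =>
    univ.filter fun ν => (∃ y, pev h f y ≠ 0) ∧
      ((0, t.1, t.2.1), (1, t.2.1, t.2.2)) ∉ covp h f ∧
      pev h f (Function.update (val ν) (0, t.1, t.2.1) (val ν (1, t.2.1, t.2.2))) = 0 with hB1
  have hsub : (univ.filter fun ν : E m → Fin (N + 1) => ¬ ((∃ y, pev h f y ≠ 0) →
      pev h f (val ν) ≠ 0 ∧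
      ∀ i j l : Fin m, ((0, i, j), (1, j, l)) ∉ covp h f →
        pev h f (Function.update (val ν) (0, i, j) (val ν (1, j, l))) ≠ 0)) ⊆
      B0 ∪ univ.biUnion B1 := by
    intro ν hν
    obtain ⟨-, hν⟩ := mem_filter.1 hν
    rw [Classical.not_imp] at hν
    obtain ⟨hex, hν⟩ := hν
    rw [mem_union]
    by_cases h0 : pev h f (val ν) = 0
    · exact Or.inl (mem_filter.2 ⟨mem_univ _, hex, h0⟩)
    · right
      have h1 : ¬ ∀ i j l : Fin m, ((0, i, j), (1, j, l)) ∉ covp h f →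
          pev h f (Function.update (val ν) (0, i, j) (val ν (1, j, l))) ≠ 0 :=
        fun h2 => hν ⟨h0, h2⟩
      push Not at h1
      obtain ⟨i, j, l, h2, h3⟩ := h1
      exact mem_biUnion.2 ⟨(i, j, l), mem_univ _, mem_filter.2 ⟨mem_univ _, hex, h2, h3⟩⟩
  have hb0 : B0.card * (N + 1) ≤ (3 * m ^ 2 * d) * Fintype.card (E m → Fin (N + 1)) := by
    by_cases hex : ∃ y, pev h f y ≠ 0
    · exact countZero_one L Y Q dg z u (pev h f) (Pool.Agent.Helper50.ZT.lineOK_pev h f hf) hex B0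
        (fun ν hν => (mem_filter.1 hν).2.2)
    · have : B0 = ∅ := filter_eq_empty_iff.2 fun ν _ hh => hex hh.1
      rw [this, card_empty, zero_mul]
      exact Nat.zero_le _
  have hb1 : ∀ t, (B1 t).card * (N + 1) ≤
      (3 * m ^ 2 * d) * Fintype.card (E m → Fin (N + 1)) := by
    intro t
    by_cases hc : (∃ y, pev h f y ≠ 0) ∧ ((0, t.1, t.2.1), (1, t.2.1, t.2.2)) ∉ covp h f
    · obtain ⟨hex, hcov⟩ := hc
      have hne0 : ¬ ∀ y, pev h f y = 0 := by
        push Not
        exact hex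
      refine countZero_one L Y Q dg z u
        (fun y => pev h f (Function.update y (0, t.1, t.2.1) (y (1, t.2.1, t.2.2))))
        (Pool.Agent.Helper50.ZT.lineOK_update (Pool.Agent.Helper50.ZT.lineOK_pev h f hf) _ _) ?_
        (B1 t) (fun ν hν => (mem_filter.1 hν).2.2.2)
      unfold covp at hcov
      rw [if_neg hne0, mem_filter] at hcov
      have h1 : ¬ ∀ y : E m → ℝ, y (0, t.1, t.2.1) = y (1, t.2.1, t.2.2) → pev h f y = 0 := by
        intro h2
        exact hcov ⟨mem_univ _, rfl, rfl, h2⟩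
      push Not at h1
      obtain ⟨y, hy, hy'⟩ := h1
      refine ⟨y, ?_⟩
      show pev h f (Function.update y (0, t.1, t.2.1) (y (1, t.2.1, t.2.2))) ≠ 0
      rw [← hy, Function.update_eq_self]
      exact hy'
    · have : B1 t = ∅ := filter_eq_empty_iff.2 fun ν _ hh => hc ⟨hh.1, hh.2.1⟩
      rw [this, card_empty, zero_mul]
      exact Nat.zero_le _
  refine (Nat.mul_le_mul_right _ (card_le_card hsub)).trans ?_
  have h1 : (B0 ∪ univ.biUnion B1).card ≤ B0.card + ∑ t, (B1 t).card :=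
    (card_union_le _ _).trans (Nat.add_le_add_left card_biUnion_le _)
  refine (Nat.mul_le_mul_right _ h1).trans ?_
  rw [add_mul, sum_mul]
  have h2 : ∑ t, (B1 t).card * (N + 1) ≤
      m ^ 3 * ((3 * m ^ 2 * d) * Fintype.card (E m → Fin (N + 1))) := by
    refine (sum_le_sum fun t _ => hb1 t).trans ?_
    rw [sum_const, card_univ, smul_eq_mul]
    apply le_of_eq
    simp only [Fintype.card_prod, Fintype.card_fin]
    ring
  calc B0.card * (N + 1) + ∑ t, (B1 t).card * (N + 1)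
      ≤ (3 * m ^ 2 * d) * Fintype.card (E m → Fin (N + 1)) +
        m ^ 3 * ((3 * m ^ 2 * d) * Fintype.card (E m → Fin (N + 1))) := Nat.add_le_add hb0 h2
    _ = (1 + m ^ 3) * (3 * m ^ 2 * d) * Fintype.card (E m → Fin (N + 1)) := by ring

end Pool.Agent.Helper21.DS
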