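import Pool.Agent.Helper21.DS.Defs
import Pool.Agent.Helper23.SP.Basic

/-!
# Basic facts on mates
-/

set_option autoImplicit false

namespace Pool.Agent.Helper21.DS

open Finset
open Pool.Agent.Helper23.SP (pre)

variable {El : Type} [DecidableEq El] {k b : ℕ} [NeZero b]

lemma mem_mt {S : Finset El} {dg : El → Fin k → Fin b} {r : ℕ} {e : El} :
    e ∈ mt S dg r ↔ e ∈ S ∧ (r = 0 ∨ ∃ e' ∈ S, e' ≠ e ∧ pre r (dg e') = pre r (dg e)) := by
  unfold mt
  rw [mem_filter]

lemma mt_subset (S : Finset El) (dg : El → Fin k → Fin b) (r : ℕ) : mt S dg r ⊆ S :=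
  filter_subset _ _

lemma mt_zero (S : Finset El) (dg : El → Fin k → Fin b) : mt S dg 0 = S := by
  unfold mt
  simp

lemma pre_mono {r r' : ℕ} (hr : r ≤ r') {x y : Fin k → Fin b} (h : pre r' x = pre r' y) :
    pre r x = pre r y := by
  funext i
  unfold pre
  by_cases hi : i.val < r
  · have := congrFun h i
    unfold pre at this
    rw [if_pos (by omega), if_pos (by omega)] at this
    rw [if_pos hi, if_pos hi, this]
  · rw [if_neg hi, if_neg hi]

lemma mt_anti (S : Finset El) (dg : El → Fin k → Fin b) {r r' : ℕ} (hr : r ≤ r') :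
    mt S dg r' ⊆ mt S dg r := by
  intro e he
  rw [mem_mt] at he ⊢
  refine ⟨he.1, ?_⟩
  rcases he.2 with h | ⟨e', h1, h2, h3⟩
  · left; omega
  · right
    exact ⟨e', h1, h2, pre_mono hr h3⟩

lemma pre_putd_le {r : Fin k} {r' : ℕ} (hr : r' ≤ r.val) (dg : El → Fin k → Fin b)
    (ξ : El → Fin b) (e : El) : pre r' (putd r dg ξ e) = pre r' (dg e) := by
  funext i
  unfold pre putd
  by_cases hi : i.val < r'
  · have hne : i ≠ r := by
      intro h
      subst h
      omega
    rw [if_pos hi, if_pos hi, Function.update_of_ne hne]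
  · rw [if_neg hi, if_neg hi]

lemma pre_putd_congr {r : Fin k} (r' : ℕ) (dg : El → Fin k → Fin b)
    {ξ ξ' : El → Fin b} {e : El} (h : ξ e = ξ' e) :
    pre r' (putd r dg ξ e) = pre r' (putd r dg ξ' e) := by
  unfold putd
  rw [h]

lemma mt_putd_le {r : Fin k} {r' : ℕ} (hr : r' ≤ r.val) (S : Finset El)
    (dg : El → Fin k → Fin b) (ξ : El → Fin b) : mt S (putd r dg ξ) r' = mt S dg r' := by
  ext e
  rw [mem_mt, mem_mt]
  simp only [pre_putd_le hr]

lemma mt_putd_congr {r : Fin k} (r' : ℕ) (S : Finset El) (dg : El → Fin k → Fin b)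
    {ξ ξ' : El → Fin b} (h : ∀ e ∈ mt S dg r.val, ξ e = ξ' e) :
    mt S (putd r dg ξ) r' = mt S (putd r dg ξ') r' := by
  rcases Nat.lt_or_ge r.val r' with hr | hr
  · have key : ∀ ξ ξ' : El → Fin b, (∀ e ∈ mt S dg r.val, ξ e = ξ' e) →
        mt S (putd r dg ξ) r' ⊆ mt S (putd r dg ξ') r' := by
      intro ξ ξ' h e he
      have he1 : e ∈ mt S dg r.val := by
        have := mt_anti S (putd r dg ξ) hr.le he
        rwa [mt_putd_le le_rfl] at this
      rw [mem_mt] at he ⊢
      refine ⟨he.1, ?_⟩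
      rcases he.2 with h0 | ⟨e', h1, h2, h3⟩
      · omega
      · right
        have h4 := pre_mono hr.le h3
        rw [pre_putd_le le_rfl, pre_putd_le le_rfl] at h4
        have he2 : e' ∈ mt S dg r.val := by
          rw [mem_mt]
          exact ⟨h1, Or.inr ⟨e, he.1, h2.symm, h4.symm⟩⟩
        refine ⟨e', h1, h2, ?_⟩
        rw [← pre_putd_congr r' dg (h e' he2), ← pre_putd_congr r' dg (h e he1), h3]
    exact Subset.antisymm (key ξ ξ' h) (key ξ' ξ fun e he => (h e he).symm)
  · rw [mt_putd_le hr, mt_putd_le hr]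

/-- An element of `S` that is not revealed on level `k` is lost on exactly one level. -/
lemma exists_level {S : Finset El} {dg : El → Fin k → Fin b} {e : El} (he : e ∈ S)
    (hk : e ∉ mt S dg k) : ∃ i : Fin k, e ∈ mt S dg i.val ∧ e ∉ mt S dg (i.val + 1) := by
  classical
  have hex : ∃ r, e ∉ mt S dg r := ⟨k, hk⟩
  have h0 : Nat.find hex ≠ 0 := by
    intro h
    have := Nat.find_spec hex
    rw [h, mt_zero] at this
    exact this he
  obtain ⟨i, hi⟩ := Nat.exists_eq_succ_of_ne_zero h0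
  have h1 : Nat.find hex ≤ k := Nat.find_min' hex hk
  have h2 := Nat.find_spec hex
  have h3 := Nat.find_min hex (m := i) (by omega)
  rw [not_not] at h3
  refine ⟨⟨i, by omega⟩, h3, ?_⟩
  rw [hi] at h2
  exact h2

section st

variable {V : Type}

lemma st_succ (P : DProc El k b V) (dg : El → Fin k → Fin b) (t0 : ℕ) (v : V) (i : ℕ) :
    P.st dg t0 v (i + 1) = P.nx (t0 + i) (P.st dg t0 v i) dg := rfl

lemma st_add (P : DProc El k b V) (dg : El → Fin k → Fin b) (t0 : ℕ) (v : V) (i j : ℕ) :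
    P.st dg t0 v (i + j) = P.st dg (t0 + i) (P.st dg t0 v i) j := by
  induction j with
  | zero => rfl
  | succ j ih =>
    rw [← Nat.add_assoc, st_succ, st_succ, ih, Nat.add_assoc]

lemma mem_rev {P : DProc El k b V} {dg : El → Fin k → Fin b} {t0 : ℕ} {v : V} {τ r : ℕ}
    {e : El} : e ∈ P.rev dg t0 v τ r ↔
      ∃ i, i < τ ∧ e ∈ mt (P.S (t0 + i) (P.st dg t0 v i)) dg r := by
  unfold DProc.rev
  rw [mem_biUnion]
  simp only [mem_range]

lemma rev_mono (P : DProc El k b V) (dg : El → Fin k → Fin b) (t0 : ℕ) (v : V)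
    {τ τ' r r' : ℕ} (hτ : τ ≤ τ') (hr : r' ≤ r) : P.rev dg t0 v τ r ⊆ P.rev dg t0 v τ' r' := by
  intro e he
  rw [mem_rev] at he ⊢
  obtain ⟨i, hi, h⟩ := he
  exact ⟨i, by omega, mt_anti _ _ hr h⟩

lemma rev_card_le {P : DProc El k b V} {s : ℕ} (hP : P.OK s) (dg : El → Fin k → Fin b) (t0 : ℕ)
    (v : V) (τ r : ℕ) : (P.rev dg t0 v τ r).card ≤ s * τ := by
  unfold DProc.rev
  refine card_biUnion_le.trans ?_
  refine (sum_le_sum (fun i _ => (card_le_card (mt_subset _ _ _)).trans (hP.card_le _ _))).trans ?_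
  rw [sum_const, card_range, smul_eq_mul, mul_comm]

/-- A long window consists of `N` short windows. -/
lemma rev_mul_card (P : DProc El k b V) (dg : El → Fin k → Fin b) (t0 : ℕ) (v : V)
    (N l r c : ℕ)
    (h : ∀ j < N, (P.rev dg (t0 + j * l) (P.st dg t0 v (j * l)) l r).card ≤ c) :
    (P.rev dg t0 v (N * l) r).card ≤ N * c := by
  have hsub : P.rev dg t0 v (N * l) r ⊆ (range N).biUnion
      (fun j => P.rev dg (t0 + j * l) (P.st dg t0 v (j * l)) l r) := by
    intro e he
    rw [mem_rev] at he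
    obtain ⟨i, hi, h⟩ := he
    rw [mem_biUnion]
    have hl : 0 < l := by
      rcases Nat.eq_zero_or_pos l with h0 | h0
      · subst h0; simp at hi
      · exact h0
    have hdm := Nat.div_add_mod i l
    refine ⟨i / l, mem_range.2 ?_, ?_⟩
    · rw [Nat.div_lt_iff_lt_mul hl]; exact hi
    · rw [mem_rev]
      have e1 : t0 + i / l * l + i % l = t0 + i := by
        rw [Nat.add_assoc, mul_comm (i / l) l, hdm]
      have e2 : P.st dg (t0 + i / l * l) (P.st dg t0 v (i / l * l)) (i % l) =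
          P.st dg t0 v i := by
        rw [← st_add, mul_comm (i / l) l, hdm]
      refine ⟨i % l, Nat.mod_lt _ hl, ?_⟩
      rw [e1, e2]; exact h
  refine (card_le_card hsub).trans (card_biUnion_le.trans ?_)
  refine (sum_le_sum (fun j hj => h j (mem_range.1 hj))).trans ?_
  rw [sum_const, card_range, smul_eq_mul]

end st

end Pool.Agent.Helper21.DS
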