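import Pool.Agent.Helper8.ZT.Adapt
import Pool.Agent.Helper50.ZT.Lines

/-!
# Exact Triangle with memory below one weight: dense sign queries and dense zero tests

Definitions for project DS.  The memory states number `W ≤ n ^ w`; the queries are signs of
arbitrary real affine forms in all the weights, and zero tests of arbitrary real polynomials.
-/

set_option autoImplicit false

namespace Pool.Agent.Helper21.DS

open Finset
open Pool.Agent.Helper22.ETModel Pool.Agent.Helper22.TSModel Pool.Agent.Helper22.EP
open Pool.Agent.Helper23.SP (pre sg)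
open Pool.Agent.Helper8.ZT

/-! ## The queries -/

/-- Queries of two kinds: the sign of the real affine form `c + ∑ a (i, j) * w (i, j)` in all the
weights, and a zero test of a real polynomial of total degree at most `d` in all the weights. -/
inductive DenseQ (n d : ℕ)
  | sign (c : ℝ) (a : Fin n × Fin n → ℝ)
  | zero (f : MvPolynomial (Fin n × Fin n) ℝ) (hf : f.totalDegree ≤ d)

open Classical in
/-- The family of these queries. The answer to a zero test is `0` if the polynomial vanishes at the
weights, and `1` otherwise. -/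
noncomputable def denseFam (n d : ℕ) : Family n (DenseQ n d) SignType where
  cells _ := Finset.univ
  ans q I := match q with
    | .sign c a => SignType.sign (c + ∑ p : Fin n × Fin n, a p * (I.wt p.1 p.2 : ℝ))
    | .zero f _ => if evalP f I = 0 then 0 else 1

/-! ## Mates and processes -/

section win

variable {El : Type} [DecidableEq El] {k b : ℕ} [NeZero b]

/-- The elements of `S` that are revealed on level `r`: all of them for `r = 0`, and those with a
mate in `S` (another element of `S` with the same first `r` digits) for `r ≥ 1`. -/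
def mt (S : Finset El) (dg : El → Fin k → Fin b) (r : ℕ) : Finset El :=
  S.filter fun e => r = 0 ∨ ∃ e' ∈ S, e' ≠ e ∧ pre r (dg e') = pre r (dg e)

/-- Replace the digits number `r` of all elements. -/
def putd (r : Fin k) (dg : El → Fin k → Fin b) (ξ : El → Fin b) : El → Fin k → Fin b :=
  fun e => Function.update (dg e) r (ξ e)

/-- A process with states in `V`: at time `t` in state `v` it looks at the elements `S t v`. -/
structure DProc (El : Type) (k b : ℕ) (V : Type) where
  S : ℕ → V → Finset El
  nx : ℕ → V → (El → Fin k → Fin b) → V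

variable {V : Type}

/-- The next state depends on the digits number `r` only of the elements revealed on level `r`. -/
structure DProc.OK (P : DProc El k b V) (s : ℕ) : Prop where
  card_le : ∀ t v, (P.S t v).card ≤ s
  full : ∀ t v dg dg', (∀ e ∈ P.S t v, dg e = dg' e) → P.nx t v dg = P.nx t v dg'
  loc : ∀ t v (r : Fin k) dg ξ ξ', (∀ e ∈ mt (P.S t v) dg r.val, ξ e = ξ' e) →
    P.nx t v (putd r dg ξ) = P.nx t v (putd r dg ξ')

/-- The state after `i` steps, when the process is started at time `t0` in state `v`. -/
def DProc.st (P : DProc El k b V) (dg : El → Fin k → Fin b) (t0 : ℕ) (v : V) : ℕ → V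
  | 0 => v
  | i + 1 => P.nx (t0 + i) (P.st dg t0 v i) dg

/-- The elements revealed on level `r` in a window of `τ` steps. -/
def DProc.rev (P : DProc El k b V) (dg : El → Fin k → Fin b) (t0 : ℕ) (v : V) (τ r : ℕ) :
    Finset El :=
  (range τ).biUnion fun i => mt (P.S (t0 + i) (P.st dg t0 v i)) dg r

end win

/-! ## The instances -/

section inst

variable {m n k b Z M N : ℕ} [NeZero b]

/-- The background: deletion marks and the values of the deleted elements, masks of the cells, and
the noise. -/
abbrev Lam (m k b Z M N : ℕ) :=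
  (E m → Bool × Fin Z) × (Fin k → (Fin k → Fin b) → Fin M) × (E m → Fin (N + 1))

/-- The structured part of an element with digits `x`. -/
def strc (Y : ℕ) (u : Fin k → (Fin k → Fin b) → Fin M) (x : Fin k → Fin b) : ℤ :=
  ∑ i : Fin k, (Y : ℤ) ^ (k - 1 - i.val) * ((u i (pre (i.val + 1) x) : ℕ) : ℤ)

/-- The value of the element `e`. -/
def vl (L Y Q : ℕ) (dg : E m → Fin k → Fin b) (lam : Lam m k b Z M N) (tiny : E m → ℤ)
    (e : E m) : ℤ :=
  (if (lam.1 e).1 = true then (Q : ℤ) * (((lam.1 e).2 : ℕ) : ℤ)
    else (L : ℤ) * strc Y lam.2.1 (dg e)) + tiny e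

/-- The weights. -/
def wg (L Y Q : ℕ) (dg : E m → Fin k → Fin b) (lam : Lam m k b Z M N) (tiny : E m → ℤ)
    (e : E m) : ℤ :=
  sg e * vl L Y Q dg lam tiny e

/-- The coefficient of the value of `e` in the affine form with coefficients `a`. -/
noncomputable def gam (h : 3 * m ≤ n) (a : Fin n × Fin n → ℝ) (e : E m) : ℝ :=
  (sg e : ℝ) * (a (enc h e) + a (enc h e).swap)

open Classical in
/-- The elements with a larger coefficient than all deleted elements. -/
noncomputable def top (γ : E m → ℝ) (z : E m → Bool × Fin Z) : Finset (E m) :=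
  univ.filter fun e => (z e).1 = false ∧ ∀ e', (z e').1 = true → |γ e'| < |γ e|

/-- The part of the value of `e` that is revealed, when the elements of `S` are looked at. -/
def rp (L Y : ℕ) (S : Finset (E m)) (dg : E m → Fin k → Fin b) (lam : Lam m k b Z M N)
    (e : E m) : ℤ :=
  (∑ i : Fin k, if e ∈ mt S dg i.val then
      (L : ℤ) * (Y : ℤ) ^ (k - 1 - i.val) * ((lam.2.1 i (pre (i.val + 1) (dg e)) : ℕ) : ℤ)
    else 0) +
  (if e ∈ mt S dg k then tinyN lam.2.2 e else 0)

/-- The ideal value of an affine form. -/
noncomputable def vid (L Y Q : ℕ) (c : ℝ) (γ : E m → ℝ) (S : Finset (E m))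
    (dg : E m → Fin k → Fin b) (lam : Lam m k b Z M N) : ℝ :=
  c + ∑ e, γ e * (if (lam.1 e).1 = true then
      (Q : ℝ) * (((lam.1 e).2 : ℕ) : ℝ) + (tinyN lam.2.2 e : ℝ)
    else if e ∈ S then (rp L Y S dg lam e : ℝ) else 0)

/-- The ideal value is not small compared with the terms that are neglected. -/
def GoodS (L Y Q : ℕ) (c : ℝ) (γ : E m → ℝ) (S : Finset (E m))
    (dg : E m → Fin k → Fin b) (lam : Lam m k b Z M N) : Prop :=
  (∀ e, (lam.1 e).1 = true → |γ e| * Q ≤ 2 * |vid L Y Q c γ S dg lam|) ∧
  ∀ e ∈ S, ∀ i : Fin k, e ∈ mt S dg i.val → e ∉ mt S dg (i.val + 1) →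
    |γ e| * ((L : ℝ) * (Y : ℝ) ^ (k - 1 - i.val)) ≤ 2 * |vid L Y Q c γ S dg lam|

/-- The elements of the pairs covered by `f`. -/
noncomputable def cove (h : 3 * m ≤ n) (f : MvPolynomial (Fin n × Fin n) ℝ) : Finset (E m) :=
  (covp h f).image Prod.fst ∪ (covp h f).image Prod.snd

open Classical in
/-- The elements looked at by a query. -/
noncomputable def SQ {d : ℕ} (h : 3 * m ≤ n) (s : ℕ) (z : E m → Bool × Fin Z) :
    DenseQ n d → Finset (E m)
  | .sign _ a => if (top (gam h a) z).card ≤ s then top (gam h a) z else ∅
  | .zero f _ => cove h f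

open Classical in
/-- The ideal answer of a query. -/
noncomputable def iansw {d : ℕ} (h : 3 * m ≤ n) (s L Y Q : ℕ) (dg : E m → Fin k → Fin b)
    (lam : Lam m k b Z M N) : DenseQ n d → SignType
  | .sign c a => SignType.sign (vid L Y Q c (gam h a)
      (if (top (gam h a) lam.1).card ≤ s then top (gam h a) lam.1 else ∅) dg lam)
  | .zero f _ => if ∀ y, pev h f y = 0 then 0 else 1

/-- The process of an algorithm with fixed random bits and background. -/
noncomputable def procD {d D W R : ℕ} (A : Alg n D W R (DenseQ n d) SignType) (h : 3 * m ≤ n)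
    (s L Y Q : ℕ) (lam : Lam m k b Z M N) (ρ : Fin R → Bool) : DProc (E m) k b (Fin W) where
  S t v := SQ h s lam.1 (A.ask (flagOf h) ρ t v)
  nx t v dg := A.next (flagOf h) ρ t v (iansw h s L Y Q dg lam (A.ask (flagOf h) ρ t v))

/-- One query is good: for a sign query few elements are looked at and the ideal value is not
small; for a zero test the basic instance and the instances with one pair made equal are no
accidental zeros. -/
def GoodQ {d : ℕ} (h : 3 * m ≤ n) (s L Y Q : ℕ) (dg : E m → Fin k → Fin b)
    (lam : Lam m k b Z M N) : DenseQ n d → Prop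
  | .sign c a => (top (gam h a) lam.1).card ≤ s ∧
      GoodS L Y Q c (gam h a) (top (gam h a) lam.1) dg lam
  | .zero f _ => (∃ y, pev h f y ≠ 0) →
      pev h f (fun e => (vl L Y Q dg lam (tinyN lam.2.2) e : ℝ)) ≠ 0 ∧
      ∀ i j l : Fin m, ((0, i, j), (1, j, l)) ∉ covp h f →
        pev h f (Function.update (fun e => (vl L Y Q dg lam (tinyN lam.2.2) e : ℝ)) (0, i, j)
          (vl L Y Q dg lam (tinyN lam.2.2) (1, j, l) : ℝ)) ≠ 0

open Classical in
/-- The background and digits for which some query of a possible run is not good. -/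
noncomputable def BadAll {d D W R : ℕ} (A : Alg n D W R (DenseQ n d) SignType) (h : 3 * m ≤ n)
    (s L Y Q : ℕ) (ρ : Fin R → Bool) :
    Finset ((E m → Fin k → Fin b) × Lam m k b Z M N) :=
  univ.filter fun ω => ∃ t < D, ∃ v : Fin W,
    ¬ GoodQ h s L Y Q ω.1 ω.2 (A.ask (flagOf h) ρ t v)

end inst

end Pool.Agent.Helper21.DS
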