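import Pool.Agent.Helper21.DS.Mt

/-!
# The process of an algorithm
-/

set_option autoImplicit false

namespace Pool.Agent.Helper21.DS

open Finset
open Pool.Agent.Helper22.ETModel Pool.Agent.Helper22.TSModel Pool.Agent.Helper22.EP
open Pool.Agent.Helper23.SP (pre sg)
open Pool.Agent.Helper8.ZT

variable {m n k b Z M N d D W R : ℕ} [NeZero b]

private theorem proc_mt_full {El : Type} [DecidableEq El] (S : Finset El)
    {dg dg' : El → Fin k → Fin b} (h : ∀ e ∈ S, dg e = dg' e) (r : ℕ) :
    mt S dg r = mt S dg' r := by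
  ext e
  rw [mem_mt, mem_mt]
  constructor
  · rintro ⟨h1, h2⟩
    refine ⟨h1, h2.imp_right ?_⟩
    rintro ⟨e', h3, h4, h5⟩
    exact ⟨e', h3, h4, by rw [← h e h1, ← h e' h3]; exact h5⟩
  · rintro ⟨h1, h2⟩
    refine ⟨h1, h2.imp_right ?_⟩
    rintro ⟨e', h3, h4, h5⟩
    exact ⟨e', h3, h4, by rw [h e h1, h e' h3]; exact h5⟩

private theorem proc_vid_congr (L Y Q : ℕ) (c : ℝ) (γ : E m → ℝ) (S : Finset (E m))
    (lam : Lam m k b Z M N) {dg dg' : E m → Fin k → Fin b}
    (h : ∀ e ∈ S, rp L Y S dg lam e = rp L Y S dg' lam e) :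
    vid L Y Q c γ S dg lam = vid L Y Q c γ S dg' lam := by
  unfold vid
  congr 1
  refine Finset.sum_congr rfl fun e _ => ?_
  congr 1
  by_cases h1 : (lam.1 e).1 = true
  · rw [if_pos h1, if_pos h1]
  · rw [if_neg h1, if_neg h1]
    by_cases h2 : e ∈ S
    · rw [if_pos h2, if_pos h2, h e h2]
    · rw [if_neg h2, if_neg h2]

/-- `vid` depends only on the digits of the elements of `S`. -/
theorem vid_full (L Y Q : ℕ) (c : ℝ) (γ : E m → ℝ) (S : Finset (E m))
    (lam : Lam m k b Z M N) {dg dg' : E m → Fin k → Fin b} (h : ∀ e ∈ S, dg e = dg' e) :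
    vid L Y Q c γ S dg lam = vid L Y Q c γ S dg' lam := by
  refine proc_vid_congr L Y Q c γ S lam fun e he => ?_
  unfold rp
  congr 1
  · refine Finset.sum_congr rfl fun i _ => ?_
    rw [proc_mt_full S h i.val, h e he]
  · rw [proc_mt_full S h k]

/-- `vid` depends on the digits number `r` only of the elements revealed on level `r`
(`mt_putd_congr`, `mt_anti`, `mt_putd_le`, `pre_putd_le`). -/
theorem vid_loc (L Y Q : ℕ) (c : ℝ) (γ : E m → ℝ) (S : Finset (E m))
    (lam : Lam m k b Z M N) (r : Fin k) (dg : E m → Fin k → Fin b) {ξ ξ' : E m → Fin b}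
    (h : ∀ e ∈ mt S dg r.val, ξ e = ξ' e) :
    vid L Y Q c γ S (putd r dg ξ) lam = vid L Y Q c γ S (putd r dg ξ') lam := by
  refine proc_vid_congr L Y Q c γ S lam fun e _ => ?_
  unfold rp
  congr 1
  · refine Finset.sum_congr rfl fun i _ => ?_
    by_cases he : e ∈ mt S (putd r dg ξ) i.val
    · have he' : e ∈ mt S (putd r dg ξ') i.val := by
        rw [← mt_putd_congr i.val S dg h]
        exact he
      rw [if_pos he, if_pos he']
      have hp : pre (i.val + 1) (putd r dg ξ e) = pre (i.val + 1) (putd r dg ξ' e) := by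
        rcases Nat.lt_or_ge i.val r.val with hr | hr
        · rw [pre_putd_le hr, pre_putd_le hr]
        · refine pre_putd_congr (i.val + 1) dg (h e ?_)
          have h1 := mt_anti S (putd r dg ξ) hr he
          rwa [mt_putd_le le_rfl] at h1
      rw [hp]
    · have he' : e ∉ mt S (putd r dg ξ') i.val := by
        rw [← mt_putd_congr i.val S dg h]
        exact he
      rw [if_neg he, if_neg he']
  · rw [mt_putd_congr k S dg h]

private theorem proc_card (h : 3 * m ≤ n) {s : ℕ} (hd : 2 * d ≤ s) (z : E m → Bool × Fin Z)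
    (q : DenseQ n d) : (SQ h s z q).card ≤ s := by
  classical
  cases q with
  | sign c a =>
    show (if (top (gam h a) z).card ≤ s then top (gam h a) z else ∅).card ≤ s
    split_ifs with h1
    · exact h1
    · simp
  | zero f hf =>
    show (cove h f).card ≤ s
    unfold cove
    have h1 := Pool.Agent.Helper50.ZT.card_covp_le h f hf
    refine (card_union_le _ _).trans ?_
    have h2 : ((covp h f).image Prod.fst).card ≤ (covp h f).card := card_image_le
    have h3 : ((covp h f).image Prod.snd).card ≤ (covp h f).card := card_image_le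
    omega

private theorem proc_full (h : 3 * m ≤ n) (s L Y Q : ℕ) (lam : Lam m k b Z M N)
    {dg dg' : E m → Fin k → Fin b} (q : DenseQ n d)
    (hS : ∀ e ∈ SQ h s lam.1 q, dg e = dg' e) :
    iansw h s L Y Q dg lam q = iansw h s L Y Q dg' lam q := by
  classical
  cases q with
  | sign c a =>
    exact congrArg SignType.sign (vid_full L Y Q c (gam h a) _ lam hS)
  | zero f hf => rfl

private theorem proc_loc (h : 3 * m ≤ n) (s L Y Q : ℕ) (lam : Lam m k b Z M N)
    (r : Fin k) (dg : E m → Fin k → Fin b) {ξ ξ' : E m → Fin b} (q : DenseQ n d)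
    (hS : ∀ e ∈ mt (SQ h s lam.1 q) dg r.val, ξ e = ξ' e) :
    iansw h s L Y Q (putd r dg ξ) lam q = iansw h s L Y Q (putd r dg ξ') lam q := by
  classical
  cases q with
  | sign c a =>
    exact congrArg SignType.sign (vid_loc L Y Q c (gam h a) _ lam r dg hS)
  | zero f hf => rfl

theorem procD_ok (A : Alg n D W R (DenseQ n d) SignType) (h : 3 * m ≤ n) {s : ℕ}
    (hd : 2 * d ≤ s) (L Y Q : ℕ) (lam : Lam m k b Z M N) (ρ : Fin R → Bool) :
    (procD (k := k) (b := b) A h s L Y Q lam ρ).OK s := by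
  constructor
  · intro t v
    exact proc_card h hd lam.1 (A.ask (flagOf h) ρ t v)
  · intro t v dg dg' hS
    exact congrArg (A.next (flagOf h) ρ t v)
      (proc_full h s L Y Q lam (A.ask (flagOf h) ρ t v) hS)
  · intro t v r dg ξ ξ' hS
    exact congrArg (A.next (flagOf h) ρ t v)
      (proc_loc h s L Y Q lam r dg (A.ask (flagOf h) ρ t v) hS)

end Pool.Agent.Helper21.DS
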