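import Pool.Agent.Helper21.DS.Mt
import Pool.Agent.Helper23.SP.Defs2
import Pool.Agent.Helper17.SP.ReadLight
import Pool.Agent.Helper93.SP.ReadHeavy
import Pool.Agent.Helper30.SP.RevSucc

/-!
# The recursion over window lengths
-/

set_option autoImplicit false

namespace Pool.Agent.Helper21.DS

open Finset
open Pool.Agent.Helper23.SP (pre lightSet heavySet rst rd)

section cells

variable {E C : Type} [DecidableEq E] [DecidableEq C]

private lemma window_main_union (c0 : E → C) (t : ℕ) (R : Finset E) :
    lightSet c0 t R ∪ heavySet c0 t R = R := by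
  ext e
  simp only [lightSet, heavySet, mem_union, mem_filter]
  constructor
  · rintro (h | h) <;> exact h.1
  · intro h
    rcases Nat.lt_or_ge t (R.filter (fun e' => c0 e' = c0 e)).card with h1 | h1
    · exact Or.inr ⟨h, h1⟩
    · exact Or.inl ⟨h, h1⟩

omit [DecidableEq E] in
private lemma window_main_heavy_mono (c0 : E → C) (t : ℕ) {R R' : Finset E} (h : R ⊆ R') :
    heavySet c0 t R ⊆ heavySet c0 t R' := by
  intro e he
  simp only [heavySet, mem_filter] at he ⊢
  exact ⟨h he.1, lt_of_lt_of_le he.2 (card_le_card (filter_subset_filter _ h))⟩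

private lemma window_main_card_le (c0 : E → C) (t : ℕ) (R : Finset E) :
    R.card ≤ (lightSet c0 t R).card + (heavySet c0 t R).card := by
  conv_lhs => rw [← window_main_union c0 t R]
  exact card_union_le _ _

end cells

section pre

variable {k b : ℕ} [NeZero b]

/-- every class of `pre r` has `b ^ (k - r)` elements -/
private lemma window_main_card_pre {r : ℕ} (hr : r ≤ k) (y : Fin k → Fin b) :
    b ^ r * (univ.filter (fun y' : Fin k → Fin b => pre r y' = pre r y)).card =
      Fintype.card (Fin k → Fin b) := by
  classical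
  have h1 : (univ.filter (fun y' : Fin k → Fin b => pre r y' = pre r y)) =
      Fintype.piFinset (fun i : Fin k => if i.val < r then {y i} else univ) := by
    ext z
    rw [mem_filter, Fintype.mem_piFinset]
    constructor
    · rintro ⟨-, h⟩ i
      have h2 := congrFun h i
      unfold pre at h2
      split_ifs at h2 ⊢ with hi
      · rw [mem_singleton]; exact h2
      · exact mem_univ _
    · intro h
      refine ⟨mem_univ _, ?_⟩
      funext i
      have h2 := h i
      unfold pre
      split_ifs at h2 ⊢ with hi
      · rw [mem_singleton] at h2; exact h2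
      · rfl
  rw [h1, Fintype.card_piFinset]
  have h2 : ∀ i : Fin k, (if i.val < r then ({y i} : Finset (Fin b)) else univ).card =
      if i.val < r then 1 else b := by
    intro i
    split_ifs
    · exact card_singleton _
    · rw [card_univ, Fintype.card_fin]
  rw [prod_congr rfl fun i _ => h2 i, Fintype.card_fun, Fintype.card_fin, Fintype.card_fin]
  have h3 : b ^ r = ∏ i : Fin k, if i.val < r then b else 1 := by
    rw [prod_ite, prod_const, prod_const_one, mul_one]
    congr 1
    have h4 : (univ.filter (fun i : Fin k => i.val < r)).card = (Finset.range r).card := by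
      refine card_bij (fun i _ => i.val) ?_ ?_ ?_
      · intro i hi
        exact mem_range.2 (mem_filter.1 hi).2
      · intro i _ j _ h
        exact Fin.ext h
      · intro j hj
        have hj' := mem_range.1 hj
        exact ⟨⟨j, lt_of_lt_of_le hj' hr⟩, mem_filter.2 ⟨mem_univ _, hj'⟩, rfl⟩
    rw [h4, card_range]
  rw [h3, ← prod_mul_distrib]
  have h5 : ∀ i : Fin k, ((if i.val < r then b else 1) * if i.val < r then 1 else b) = b := by
    intro i
    split_ifs <;> simp
  rw [prod_congr rfl fun i _ => h5 i, prod_const, card_univ, Fintype.card_fin]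

private lemma window_main_pre_succ (r : Fin k) (x : Fin k → Fin b) :
    pre (r.val + 1) x = Function.update (pre r.val x) r (x r) := by
  funext i
  unfold pre
  by_cases hir : i = r
  · subst hir
    rw [Function.update_self, if_pos (Nat.lt_succ_self _)]
  · rw [Function.update_of_ne hir]
    have hv : i.val ≠ r.val := fun h => hir (Fin.ext h)
    by_cases hi : i.val < r.val
    · rw [if_pos hi, if_pos (by omega)]
    · rw [if_neg hi, if_neg (by omega)]

private lemma window_main_key_inj (r : Fin k) {x x' : Fin k → Fin b} {y y' : Fin b}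
    (h : Function.update (pre r.val x) r y = Function.update (pre r.val x') r y') :
    pre r.val x = pre r.val x' ∧ y = y' := by
  constructor
  · funext i
    by_cases hi : i = r
    · subst hi
      simp [pre]
    · have := congrFun h i
      rwa [Function.update_of_ne hi, Function.update_of_ne hi] at this
  · have := congrFun h r
    rwa [Function.update_self, Function.update_self] at this

end pre

variable {El : Type} [Fintype El] [DecidableEq El] {k b : ℕ} [NeZero b]

section resample

/-- The involution which exchanges the digits number `r`. -/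
private def window_main_swp (r : Fin k) : ((El → Fin k → Fin b) × (El → Fin b)) ≃
    ((El → Fin k → Fin b) × (El → Fin b)) where
  toFun p := (putd r p.1 p.2, fun e => p.1 e r)
  invFun p := (putd r p.1 p.2, fun e => p.1 e r)
  left_inv p := by
    refine Prod.ext (funext fun e => ?_) (funext fun e => ?_)
    · simp [putd]
    · simp [putd]
  right_inv p := by
    refine Prod.ext (funext fun e => ?_) (funext fun e => ?_)
    · simp [putd]
    · simp [putd]

open Classical in
private lemma window_main_put (r : Fin k) (A : Finset (El → Fin k → Fin b)) (x : ℕ)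
    (h : ∀ dg : El → Fin k → Fin b,
      (univ.filter (fun ξ : El → Fin b => putd r dg ξ ∈ A)).card * 2 ^ x ≤
        Fintype.card (El → Fin b)) :
    A.card * 2 ^ x ≤ Fintype.card (El → Fin k → Fin b) := by
  have key : ∑ dg : El → Fin k → Fin b,
      (univ.filter (fun ξ : El → Fin b => putd r dg ξ ∈ A)).card =
      A.card * Fintype.card (El → Fin b) := by
    simp_rw [Finset.card_filter]
    rw [← Fintype.sum_prod_type']
    refine (Fintype.sum_equiv (window_main_swp r) _ (fun p => if p.1 ∈ A then 1 else 0)
      (fun p => rfl)).trans ?_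
    rw [Fintype.sum_prod_type]
    have h2 : ∀ a : El → Fin k → Fin b, (∑ _ξ : El → Fin b, if a ∈ A then 1 else 0) =
        Fintype.card (El → Fin b) * (if a ∈ A then 1 else 0) := by
      intro a
      rw [Finset.sum_const, Finset.card_univ, smul_eq_mul]
    rw [Finset.sum_congr rfl (fun a _ => h2 a), ← Finset.mul_sum, mul_comm, ← Finset.card_filter,
      Finset.filter_univ_mem]
  have hpos : 0 < Fintype.card (El → Fin b) := Fintype.card_pos
  have h1 : (A.card * 2 ^ x) * Fintype.card (El → Fin b) ≤
      Fintype.card (El → Fin k → Fin b) * Fintype.card (El → Fin b) := by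
    calc (A.card * 2 ^ x) * Fintype.card (El → Fin b)
        = (∑ dg : El → Fin k → Fin b, (univ.filter (fun ξ : El → Fin b =>
            putd r dg ξ ∈ A)).card) * 2 ^ x := by rw [key]; ring
      _ = ∑ dg : El → Fin k → Fin b, (univ.filter (fun ξ : El → Fin b =>
            putd r dg ξ ∈ A)).card * 2 ^ x := by rw [Finset.sum_mul]
      _ ≤ ∑ _dg : El → Fin k → Fin b, Fintype.card (El → Fin b) :=
          Finset.sum_le_sum (fun dg _ => h dg)
      _ = Fintype.card (El → Fin k → Fin b) * Fintype.card (El → Fin b) := by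
          rw [Finset.sum_const, Finset.card_univ, smul_eq_mul]
  exact Nat.le_of_mul_le_mul_right h1 hpos

end resample

section light

variable {V : Type}

/-- the sets read -/
private def window_main_S (P : DProc El k b V) (r : Fin k) (t0 : ℕ) (dg : El → Fin k → Fin b)
    (i : ℕ) (v : V) : Finset El := mt (P.S (t0 + i) v) dg r.val

/-- the transition function -/
private def window_main_nx (P : DProc El k b V) (r : Fin k) (t0 : ℕ) (dg : El → Fin k → Fin b)
    (i : ℕ) (v : V) {H : Type} (ω : (El → Fin b) × H) : V := P.nx (t0 + i) v (putd r dg ω.1)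

omit [Fintype El] in
private lemma window_main_rst (P : DProc El k b V) (r : Fin k) (t0 : ℕ)
    (dg : El → Fin k → Fin b) (v : V) {H : Type} (ω : (El → Fin b) × H) (i : ℕ) :
    rst (fun i v (ω : (El → Fin b) × H) => window_main_nx P r t0 dg i v ω) v ω i
      = P.st (putd r dg ω.1) t0 v i := by
  induction i with
  | zero => rfl
  | succ i ih =>
    rw [st_succ, ← ih]
    rfl

omit [Fintype El] in
private lemma window_main_rd (P : DProc El k b V) (r : Fin k) (t0 : ℕ)
    (dg : El → Fin k → Fin b) (v : V) {H : Type} (ω : (El → Fin b) × H) (τ : ℕ) :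
    rd (window_main_S P r t0 dg) (fun i v (ω : (El → Fin b) × H) => window_main_nx P r t0 dg i v ω)
      v ω τ = P.rev (putd r dg ω.1) t0 v τ r.val := by
  ext e
  rw [mem_rev]
  unfold rd
  rw [mem_biUnion]
  constructor
  · rintro ⟨i, hi, h⟩
    rw [window_main_rst] at h
    refine ⟨i, mem_range.1 hi, ?_⟩
    rw [mt_putd_le le_rfl]
    exact h
  · rintro ⟨i, hi, h⟩
    refine ⟨i, mem_range.2 hi, ?_⟩
    rw [window_main_rst]
    rw [mt_putd_le le_rfl] at h
    exact h

open Classical in
private lemma window_main_light [Fintype V] [DecidableEq V] (P : DProc El k b V) {s : ℕ}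
    (hP : P.OK s) (r : Fin k) (t0 : ℕ) (v : V) (τ A t x0 U : ℕ) (hU : 1 ≤ U)
    (h : 5 * A * (t * U + A * b) ≤ x0 * b * U) :
    (univ.filter (fun dg : El → Fin k → Fin b =>
      (P.rev dg t0 v τ r.val).card ≤ A ∧
      x0 + ((lightSet (fun e => pre r.val (dg e)) t (P.rev dg t0 v τ r.val)).image
        (fun e => pre (r.val + 1) (dg e))).card ≤
        (lightSet (fun e => pre r.val (dg e)) t (P.rev dg t0 v τ r.val)).card)).card *
      2 ^ x0 ≤ Fintype.card (El → Fin k → Fin b) := by
  apply window_main_put r
  intro dg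
  have h1 := Pool.Agent.Helper17.SP.read_light (El := El) (G := Fin k → Fin b) (V := V)
    (C := Fin k → Fin b) (b := b) (U := U) (fun e => pre r.val (dg e))
    (fun e y => Function.update (pre r.val (dg e)) r y)
    (fun e y e' y' hk => window_main_key_inj r hk) (window_main_S P r t0 dg)
    (fun i v ω => window_main_nx P r t0 dg i v ω)
    (fun i v ω ω' hω => hP.loc (t0 + i) v r dg ω.1 ω'.1 fun e he => (hω e he).1)
    v τ A t x0 h
  have hposH : 0 < Fintype.card ((Fin k → Fin b) → Fin U) := by
    have : Nonempty (Fin U) := ⟨⟨0, hU⟩⟩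
    exact Fintype.card_pos
  refine Nat.le_of_mul_le_mul_right (c := Fintype.card ((Fin k → Fin b) → Fin U)) ?_ hposH
  rw [← Fintype.card_prod]
  refine le_trans ?_ h1
  rw [mul_right_comm]
  refine Nat.mul_le_mul_right _ ?_
  rw [← Finset.card_univ (α := (Fin k → Fin b) → Fin U), ← Finset.card_product]
  refine card_le_card fun ω hω => ?_
  rw [mem_product, mem_filter, mem_filter] at hω
  obtain ⟨⟨-, -, h2, h3⟩, -⟩ := hω
  refine (@mem_filter _ _ (_) _ _).2 ⟨mem_univ _, ?_⟩
  rw [window_main_rd]
  refine ⟨h2, ?_⟩
  simp only [pre_putd_le (le_refl r.val)] at h3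
  refine le_trans (Nat.add_le_add_left ?_ x0) h3
  have himg : (lightSet (fun e => pre r.val (dg e)) t
      (P.rev (putd r dg ω.1) t0 v τ r.val)).image
        (fun e => ω.2 (Function.update (pre r.val (dg e)) r (ω.1 e)))
      = ((lightSet (fun e => pre r.val (dg e)) t
      (P.rev (putd r dg ω.1) t0 v τ r.val)).image
        (fun e => pre (r.val + 1) (putd r dg ω.1 e))).image ω.2 := by
    rw [image_image]
    apply image_congr
    intro e _
    simp only [Function.comp]
    congr 1
    rw [window_main_pre_succ, pre_putd_le (le_refl r.val)]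
    simp [putd]
  rw [himg]
  exact card_image_le

end light

section heavy

variable {V : Type}

omit [Fintype El] in
private lemma window_main_rst0 (P : DProc El k b V) (t0 : ℕ) (v : V)
    (dg : El → Fin k → Fin b) (i : ℕ) :
    rst (fun i v dg => P.nx (t0 + i) v dg) v dg i = P.st dg t0 v i := by
  induction i with
  | zero => rfl
  | succ i ih =>
    rw [st_succ, ← ih]
    rfl

omit [Fintype El] in
private lemma window_main_rd0 (P : DProc El k b V) (t0 : ℕ) (v : V)
    (dg : El → Fin k → Fin b) (τ : ℕ) :
    rd (fun i v => P.S (t0 + i) v) (fun i v dg => P.nx (t0 + i) v dg) v dg τ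
      = P.rev dg t0 v τ 0 := by
  ext e
  rw [mem_rev]
  unfold rd
  rw [mem_biUnion]
  constructor
  · rintro ⟨i, hi, h⟩
    rw [window_main_rst0] at h
    exact ⟨i, mem_range.1 hi, by rw [mt_zero]; exact h⟩
  · rintro ⟨i, hi, h⟩
    refine ⟨i, mem_range.2 hi, ?_⟩
    rw [window_main_rst0]
    rwa [mt_zero] at h

open Classical in
private lemma window_main_heavy [Fintype V] [DecidableEq V] (P : DProc El k b V) {s : ℕ}
    (hP : P.OK s) {r : ℕ} (hr : r ≤ k) (t0 : ℕ) (v : V) (τ t y : ℕ)
    (h20 : 20 * (s * τ) ≤ b ^ r) (ht : 2 * b ^ r ≤ 2 ^ t) :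
    (univ.filter (fun dg : El → Fin k → Fin b =>
      y ≤ (heavySet (fun e => pre r (dg e)) t (P.rev dg t0 v τ 0)).card)).card * 2 ^ y ≤
      3 * Fintype.card (El → Fin k → Fin b) := by
  have h1 := Pool.Agent.Helper93.SP.read_heavy (El := El) (Y := Fin k → Fin b) (V := V)
    (C := Fin k → Fin b) (pre r) (b ^ r) (window_main_card_pre hr) (fun i v => P.S (t0 + i) v)
    (fun i v dg => P.nx (t0 + i) v dg)
    (fun i v dg dg' hd => hP.full (t0 + i) v dg dg' hd) v τ (s * τ) t y
    (fun dg => by rw [window_main_rd0]; exact rev_card_le hP _ _ _ _ _) h20 ht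
  simp only [window_main_rd0] at h1
  exact h1

end heavy

private lemma window_main_succ {V : Type} (P : DProc El k b V) (dg : El → Fin k → Fin b)
    (r : Fin k) (t0 : ℕ) (v : V) (τ x0 : ℕ)
    (h : (P.rev dg t0 v τ r.val).card <
      x0 + ((P.rev dg t0 v τ r.val).image (fun e => pre (r.val + 1) (dg e))).card) :
    (P.rev dg t0 v τ (r.val + 1)).card ≤ 2 * x0 := by
  have hsub : P.rev dg t0 v τ (r.val + 1) ⊆ (P.rev dg t0 v τ r.val).filter
      (fun e => 2 ≤ ((P.rev dg t0 v τ r.val).filter
        (fun a => pre (r.val + 1) (dg a) = pre (r.val + 1) (dg e))).card) := by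
    intro e he
    rw [mem_rev] at he
    obtain ⟨i, hi, hm⟩ := he
    rw [mem_mt] at hm
    obtain ⟨heS, hor⟩ := hm
    rcases hor with h0 | ⟨e', he'S, hne, hpre⟩
    · omega
    have hpre' := pre_mono (Nat.le_succ r.val) hpre
    have hme : e ∈ P.rev dg t0 v τ r.val := by
      rw [mem_rev]
      exact ⟨i, hi, mem_mt.2 ⟨heS, Or.inr ⟨e', he'S, hne, hpre'⟩⟩⟩
    have hme' : e' ∈ P.rev dg t0 v τ r.val := by
      rw [mem_rev]
      exact ⟨i, hi, mem_mt.2 ⟨he'S, Or.inr ⟨e, heS, hne.symm, hpre'.symm⟩⟩⟩
    rw [mem_filter]
    refine ⟨hme, ?_⟩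
    have : 1 < ((P.rev dg t0 v τ r.val).filter
        (fun a => pre (r.val + 1) (dg a) = pre (r.val + 1) (dg e))).card := by
      rw [one_lt_card]
      exact ⟨e', mem_filter.2 ⟨hme', hpre⟩, e, mem_filter.2 ⟨hme, rfl⟩, hne⟩
    omega
  have h1 := card_le_card hsub
  have h2 := Pool.Agent.Helper30.SP.card_mates (P.rev dg t0 v τ r.val)
    (fun e => pre (r.val + 1) (dg e))
  omega

open Classical in
/-- The event of many collisions in light cells. -/
private noncomputable def window_main_evL {W : ℕ} (P : DProc El k b (Fin W)) (x A t τ : ℕ)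
    (t0 : ℕ) (v : Fin W) (r : Fin k) : Finset (El → Fin k → Fin b) :=
  univ.filter (fun dg : El → Fin k → Fin b =>
      (P.rev dg t0 v τ r.val).card ≤ A ∧
      x + ((lightSet (fun e => pre r.val (dg e)) t (P.rev dg t0 v τ r.val)).image
        (fun e => pre (r.val + 1) (dg e))).card ≤
        (lightSet (fun e => pre r.val (dg e)) t (P.rev dg t0 v τ r.val)).card)

open Classical in
/-- The event of many elements in heavy cells. -/
private noncomputable def window_main_evH {W : ℕ} (P : DProc El k b (Fin W)) (y t τ : ℕ)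
    (t0 : ℕ) (v : Fin W) (r : Fin k) : Finset (El → Fin k → Fin b) :=
  univ.filter (fun dg : El → Fin k → Fin b =>
      y ≤ (heavySet (fun e => pre r.val (dg e)) t (P.rev dg t0 v τ 0)).card)

private lemma window_main_evL_card {W : ℕ} (P : DProc El k b (Fin W)) {s : ℕ} (hP : P.OK s)
    {x A t τ U : ℕ} (hU : 1 ≤ U)
    (h : 5 * A * (t * U + A * b) ≤ x * b * U) (t0 : ℕ) (v : Fin W) (r : Fin k) :
    (window_main_evL P x A t τ t0 v r).card * 2 ^ x ≤ Fintype.card (El → Fin k → Fin b) := by
  classical
  have key := window_main_light P hP r t0 v τ A t x U hU h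
  unfold window_main_evL
  convert key

private lemma window_main_evH_card {W : ℕ} (P : DProc El k b (Fin W)) {s : ℕ} (hP : P.OK s)
    {x t τ : ℕ} (t0 : ℕ) (v : Fin W) (r : Fin k) (h20 : 20 * (s * τ) ≤ b ^ r.val)
    (ht : 2 * b ^ r.val ≤ 2 ^ t) :
    (window_main_evH P (x + 2) t τ t0 v r).card * 2 ^ x ≤
      Fintype.card (El → Fin k → Fin b) := by
  classical
  have key := window_main_heavy P hP r.isLt.le t0 v τ t (x + 2) h20 ht
  have key' : (window_main_evH P (x + 2) t τ t0 v r).card * 2 ^ (x + 2) ≤
      3 * Fintype.card (El → Fin k → Fin b) := by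
    unfold window_main_evH
    convert key
  rw [pow_add] at key'
  have e1 : (window_main_evH P (x + 2) t τ t0 v r).card * (2 ^ x * 2 ^ 2) =
      4 * ((window_main_evH P (x + 2) t τ t0 v r).card * 2 ^ x) := by ring
  rw [e1] at key'
  omega

/-- The bad set: `τ r` is the length of the windows considered on level `r`. -/
private noncomputable def window_main_bad {W : ℕ} (P : DProc El k b (Fin W))
    (x β t l T r0 : ℕ) : Finset (El → Fin k → Fin b) := by
  classical
  exact (univ : Finset (Fin T × Fin W × Fin k × Bool)).biUnion fun i =>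
    if r0 ≤ i.2.2.1.val then
      (if i.2.2.2 then
        window_main_evL P x (6 * x * β) t (l * β ^ (i.2.2.1.val - r0 + 1)) i.1.val i.2.1 i.2.2.1
      else
        window_main_evH P (x + 2) t (l * β ^ (i.2.2.1.val - r0 + 1)) i.1.val i.2.1 i.2.2.1)
    else ∅

/-- The windows.  Same proof as `Pool.Agent.Helper8.SP.window_main2`, with mates (`mt`) in place of
`Pass` and without the hash functions: use the abstract reading lemmas
`Pool.Agent.Helper17.SP.read_light` (with a dummy hash function: `G := Fin k → Fin b`, `U := b ^ 2 * x`;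
the image under the hash of the key has at most as many elements as the image under the key, and the
event for the key does not depend on the hash) and `Pool.Agent.Helper93.SP.read_heavy`,
`Pool.Agent.Helper30.SP.card_mates`, and resampling of one digit (`putd`, as in
`Pool.Agent.Helper54.SP.card_put`). -/
theorem window_main {W : ℕ} (P : DProc El k b (Fin W)) {s : ℕ} (hP : P.OK s)
    {x β t l T r0 : ℕ} (hx : 1 ≤ x) (hβ : 1 ≤ β) (ht : 1 ≤ t) (hl : s * l ≤ x)
    (hb : b = 60 * β * t) (ht2 : 2 * b ^ k ≤ 2 ^ t) (hr0 : r0 ≤ k)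
    (hr01 : 20 * x * β ≤ b ^ r0) :
    ∃ Bad : Finset (El → Fin k → Fin b),
      Bad.card * 2 ^ x ≤ 2 * T * W * k * Fintype.card (El → Fin k → Fin b) ∧
      ∀ dg, dg ∉ Bad → ∀ t0 v, t0 + l * β ^ (k - r0) ≤ T →
        (P.rev dg t0 v (l * β ^ (k - r0)) k).card ≤ 6 * x := by
  classical
  have hb1 : 1 ≤ b := Nat.pos_of_ne_zero (NeZero.ne b)
  have hβb : β ≤ b := by
    rw [hb]; nlinarith
  obtain ⟨U, hU⟩ : ∃ U : ℕ, U = b ^ 2 * x := ⟨_, rfl⟩
  have hU1 : 1 ≤ U := by
    rw [hU]
    exact Nat.mul_pos (Nat.pow_pos hb1) hx
  have hA : 5 * (6 * x * β) * (t * U + (6 * x * β) * b) ≤ x * b * U := by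
    have h1 : 6 * β ≤ t * b := by
      rw [hb]
      have : 1 ≤ t * t := Nat.mul_pos ht ht
      nlinarith
    have h2 : 5 * (6 * x * β) * (t * U + (6 * x * β) * b) =
        x * b * x * (30 * β * (t * b + 6 * β)) := by
      rw [hU]; ring
    have h3 : x * b * U = x * b * x * ((60 * β * t) * b) := by rw [← hb, hU]; ring
    rw [h2, h3]
    apply Nat.mul_le_mul_left
    calc 30 * β * (t * b + 6 * β) ≤ 30 * β * (t * b + t * b) := by
          apply Nat.mul_le_mul_left; omega
      _ = 60 * β * t * b := by ring
  have hsτ : ∀ r : ℕ, r0 ≤ r → 20 * (s * (l * β ^ (r - r0 + 1))) ≤ b ^ r := by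
    intro r hr
    calc 20 * (s * (l * β ^ (r - r0 + 1))) = 20 * (s * l) * β * β ^ (r - r0) := by ring
      _ ≤ 20 * x * β * β ^ (r - r0) := by gcongr
      _ ≤ b ^ r0 * b ^ (r - r0) := by gcongr
      _ = b ^ r := by rw [← pow_add]; congr 1; omega
  have h2t : ∀ r : ℕ, r ≤ k → 2 * b ^ r ≤ 2 ^ t := by
    intro r hr
    exact (Nat.mul_le_mul_left _ (Nat.pow_le_pow_right hb1 hr)).trans ht2
  refine ⟨window_main_bad P x β t l T r0, ?_, ?_⟩
  · unfold window_main_bad
    have hcard : Fintype.card (Fin T × Fin W × Fin k × Bool) = 2 * T * W * k := by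
      simp only [Fintype.card_prod, Fintype.card_fin, Fintype.card_bool]
      ring
    rw [← hcard]
    refine (Nat.mul_le_mul_right _ card_biUnion_le).trans ?_
    rw [sum_mul]
    refine (sum_le_card_nsmul _ _ (Fintype.card (El → Fin k → Fin b)) ?_).trans ?_
    · rintro ⟨t1, v, r, o⟩ _
      dsimp only
      split_ifs with h1 h2
      · exact window_main_evL_card P hP hU1 hA _ _ _
      · exact window_main_evH_card P hP _ _ _ (hsτ _ h1) (h2t _ r.isLt.le)
      · simp
    · rw [card_univ, smul_eq_mul]
  · intro ω hω
    have hLn : ∀ t0 < T, ∀ (v : Fin W) (r : Fin k), r0 ≤ r.val →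
        ω ∉ window_main_evL P x (6 * x * β) t (l * β ^ (r.val - r0 + 1)) t0 v r := by
      intro t0 ht0 v r hr h
      apply hω
      unfold window_main_bad
      rw [mem_biUnion]
      refine ⟨(⟨t0, ht0⟩, v, r, true), mem_univ _, ?_⟩
      rw [if_pos hr, if_pos rfl]
      exact h
    have hHn : ∀ t0 < T, ∀ (v : Fin W) (r : Fin k), r0 ≤ r.val →
        ω ∉ window_main_evH P (x + 2) t (l * β ^ (r.val - r0 + 1)) t0 v r := by
      intro t0 ht0 v r hr h
      apply hω
      unfold window_main_bad
      rw [mem_biUnion]
      refine ⟨(⟨t0, ht0⟩, v, r, false), mem_univ _, ?_⟩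
      rw [if_pos hr, if_neg (by simp)]
      exact h
    have main : ∀ d : ℕ, r0 + d ≤ k → ∀ t0 v, t0 + l * β ^ d ≤ T →
        (P.rev ω t0 v (l * β ^ d) (r0 + d)).card ≤ 6 * x := by
      intro d
      induction d with
      | zero =>
        intro _ t0 v _
        refine (rev_card_le hP ω t0 v _ _).trans ?_
        rw [pow_zero, mul_one]
        omega
      | succ d ih =>
        intro hr t0 v hT
        have hr' : r0 + d < k := by omega
        rcases Nat.eq_zero_or_pos (l * β ^ (d + 1)) with h0 | hpos
        · rw [h0]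
          refine (rev_card_le hP ω t0 v _ _).trans ?_
          simp
        have htT : t0 < T := by omega
        have hpow : l * β ^ (d + 1) = β * (l * β ^ d) := by ring
        -- bound on level `r0 + d`
        have hR : (P.rev ω t0 v (l * β ^ (d + 1)) (r0 + d)).card ≤ 6 * x * β := by
          have h1 : (P.rev ω t0 v (β * (l * β ^ d)) (r0 + d)).card ≤ β * (6 * x) := by
            apply rev_mul_card
            intro j hj
            apply ih (by omega)
            have h2 : j * (l * β ^ d) + l * β ^ d ≤ β * (l * β ^ d) := by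
              calc j * (l * β ^ d) + l * β ^ d = (j + 1) * (l * β ^ d) := by ring
                _ ≤ β * (l * β ^ d) := Nat.mul_le_mul_right _ hj
            rw [hpow] at hT
            omega
          rw [hpow]
          exact h1.trans (le_of_eq (by ring))
        have hexp : r0 + d - r0 + 1 = d + 1 := by omega
        have hL := hLn t0 htT v ⟨r0 + d, hr'⟩ (Nat.le_add_right _ _)
        have hH := hHn t0 htT v ⟨r0 + d, hr'⟩ (Nat.le_add_right _ _)
        dsimp only at hL hH
        rw [hexp] at hL hH
        unfold window_main_evL at hL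
        unfold window_main_evH at hH
        rw [mem_filter] at hL hH
        dsimp only at hL hH
        have hH1 : (heavySet (fun e => pre (r0 + d) (ω e)) t
            (P.rev ω t0 v (l * β ^ (d + 1)) 0)).card < x + 2 := by
          by_contra h7
          rw [not_lt] at h7
          apply hH
          refine ⟨mem_univ _, ?_⟩
          convert h7 using 2
        have hH2 : (heavySet (fun e => pre (r0 + d) (ω e)) t
            (P.rev ω t0 v (l * β ^ (d + 1)) (r0 + d))).card < x + 2 :=
          lt_of_le_of_lt (card_le_card (window_main_heavy_mono _ _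
            (rev_mono P ω t0 v le_rfl (Nat.zero_le _)))) hH1
        have hL1 : (lightSet (fun e => pre (r0 + d) (ω e)) t
              (P.rev ω t0 v (l * β ^ (d + 1)) (r0 + d))).card <
            x + ((lightSet (fun e => pre (r0 + d) (ω e)) t
              (P.rev ω t0 v (l * β ^ (d + 1)) (r0 + d))).image
                (fun e => pre (r0 + d + 1) (ω e))).card := by
          by_contra h7
          rw [not_lt] at h7
          apply hL
          refine ⟨mem_univ _, hR, ?_⟩
          convert h7 using 2
        have himg : ((lightSet (fun e => pre (r0 + d) (ω e)) t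
              (P.rev ω t0 v (l * β ^ (d + 1)) (r0 + d))).image
                (fun e => pre (r0 + d + 1) (ω e))).card ≤
            ((P.rev ω t0 v (l * β ^ (d + 1)) (r0 + d)).image
              (fun e => pre (r0 + d + 1) (ω e))).card :=
          card_le_card (image_subset_image (filter_subset _ _))
        have hsum := window_main_card_le (fun e => pre (r0 + d) (ω e)) t
          (P.rev ω t0 v (l * β ^ (d + 1)) (r0 + d))
        have h6 : (P.rev ω t0 v (l * β ^ (d + 1)) (r0 + d)).card <
            (2 * x + 1) + ((P.rev ω t0 v (l * β ^ (d + 1)) (r0 + d)).image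
              (fun e => pre (r0 + d + 1) (ω e))).card := by
          omega
        have h8 := window_main_succ P ω ⟨r0 + d, hr'⟩ t0 v (l * β ^ (d + 1)) (2 * x + 1) h6
        dsimp only at h8
        rw [← Nat.add_assoc]
        omega
    intro t0 v hT
    have h9 := main (k - r0) (by omega) t0 v hT
    have hk1 : r0 + (k - r0) = k := by omega
    rw [hk1] at h9
    exact h9

end Pool.Agent.Helper21.DS
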