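import Pool.Agent.Helper21.DS.Run0

/-!
# Real runs and ideal runs
-/

set_option autoImplicit false

namespace Pool.Agent.Helper21.DS

open Finset
open Pool.Agent.Helper22.ETModel Pool.Agent.Helper22.TSModel Pool.Agent.Helper22.EP
open Pool.Agent.Helper23.SP (pre sg)
open Pool.Agent.Helper8.ZT

variable {m n k b Z M N d D W R : ℕ} [NeZero b]

/-- If all queries are good and the outputs on the basic and the planted instance differ, then the
element `(0, i, j)` is revealed on level `k` by the ideal run. -/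
theorem output_plant {s L Y Q : ℕ} (hs : 1 ≤ s) (hL : 16 * s * (N + 1) ≤ L)
    (hY : 16 * s * M ≤ Y) (hQ : 24 * m ^ 2 * (L * Y ^ k) ≤ Q) (h : 3 * m ≤ n)
    (A : Alg n D W R (DenseQ n d) SignType) (ρ : Fin R → Bool)
    (ω : (E m → Fin k → Fin b) × Lam m k b Z M N) (hω : ω ∉ BadAll A h s L Y Q ρ)
    (i j l : Fin m) (h0 : (ω.2.1 (0, i, j)).1 = false)
    (h1 : (ω.2.1 (1, j, l)).1 = false) (hd : ω.1 (1, j, l) = ω.1 (0, i, j))
    (hne : A.output (denseFam n d) (instOf h (wg L Y Q ω.1 ω.2 (tinyN ω.2.2.2))) ρ ≠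
      A.output (denseFam n d)
        (instOf h (wg L Y Q ω.1 ω.2 (tinyQ ω.2.2.2 (0, i, j) (1, j, l)))) ρ) :
    (0, i, j) ∈ (procD A h s L Y Q ω.2 ρ).rev ω.1 0 (A.init (flagOf h) ρ) D k := by
  classical
  by_contra hcon
  apply hne
  have hgood : ∀ t < D, ∀ v : Fin W,
      GoodQ h s L Y Q ω.1 ω.2 (A.ask (flagOf h) ρ t v) := by
    intro t ht v
    by_contra hb
    exact hω (mem_filter.2 ⟨mem_univ _, t, ht, v, hb⟩)
  have hrev : ∀ t < D, ((0, i, j) : E m) ∉ mt (SQ h s ω.2.1 (A.ask (flagOf h) ρ t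
      ((procD A h s L Y Q ω.2 ρ).st ω.1 0 (A.init (flagOf h) ρ) t))) ω.1 k := by
    intro t ht hmem
    apply hcon
    rw [mem_rev]
    refine ⟨t, ht, ?_⟩
    rw [Nat.zero_add]
    exact hmem
  have hstep : ∀ tiny : E m → ℤ, (∀ t < D,
      (denseFam n d).ans (A.ask (flagOf h) ρ t
        ((procD A h s L Y Q ω.2 ρ).st ω.1 0 (A.init (flagOf h) ρ) t))
          (instOf h (wg L Y Q ω.1 ω.2 tiny)) =
        iansw h s L Y Q ω.1 ω.2 (A.ask (flagOf h) ρ t
          ((procD A h s L Y Q ω.2 ρ).st ω.1 0 (A.init (flagOf h) ρ) t))) →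
      ∀ t ≤ D, A.state (denseFam n d) (instOf h (wg L Y Q ω.1 ω.2 tiny)) ρ t =
        (procD A h s L Y Q ω.2 ρ).st ω.1 0 (A.init (flagOf h) ρ) t := by
    intro tiny hans t
    induction t with
    | zero => intro _; rfl
    | succ t ih =>
      intro ht
      have ih' := ih (by omega)
      have h2 := hans t (by omega)
      rw [st_succ, Nat.zero_add]
      show A.next (flagOf h) ρ t _ ((denseFam n d).ans (A.ask (flagOf h) ρ t
        (A.state (denseFam n d) (instOf h (wg L Y Q ω.1 ω.2 tiny)) ρ t)) _) =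
        A.next (flagOf h) ρ t _ (iansw h s L Y Q ω.1 ω.2 (A.ask (flagOf h) ρ t _))
      rw [ih', h2]
  have e1 := hstep (tinyN ω.2.2.2) (fun t ht => ans_base hs hL hY hQ h ω.1 ω.2 _
    (hgood t ht _)) D le_rfl
  have e2 := hstep (tinyQ ω.2.2.2 (0, i, j) (1, j, l)) (fun t ht => ans_plant hs hL hY hQ h
    ω.1 ω.2 _ (hgood t ht _) i j l h0 h1 hd (hrev t ht)) D le_rfl
  show A.out (flagOf h) ρ _ = A.out (flagOf h) ρ _
  rw [e1, e2]

end Pool.Agent.Helper21.DS
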