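import Pool.Agent.Helper21.DS.Mt

/-!
# The sign of an affine form is the sign of its ideal value
-/

set_option autoImplicit false

namespace Pool.Agent.Helper21.DS

open Finset
open Pool.Agent.Helper22.ETModel
open Pool.Agent.Helper23.SP (pre sg)
open Pool.Agent.Helper8.ZT

variable {m k b Z M N : ℕ} [NeZero b]

/-- A truncated geometric sum. -/
private lemma sign_geo (Y : ℤ) (k r : ℕ) (hr : r ≤ k) :
    ∑ i : Fin k, (if r ≤ i.val then Y ^ (k - 1 - i.val) * (Y - 1) else 0) = Y ^ (k - r) - 1 := by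
  rw [Fin.sum_univ_eq_sum_range (fun i => if r ≤ i then Y ^ (k - 1 - i) * (Y - 1) else 0) k]
  have h1 : ∀ i ∈ range k, (if r ≤ i then Y ^ (k - 1 - i) * (Y - 1) else 0) =
      Y ^ (k - max i r) - Y ^ (k - max (i + 1) r) := by
    intro i hi
    rw [mem_range] at hi
    split_ifs with h
    · rw [max_eq_left h, max_eq_left (by omega)]
      have e1 : k - i = (k - 1 - i) + 1 := by omega
      have e2 : k - (i + 1) = k - 1 - i := by omega
      rw [e1, e2, pow_succ]
      ring
    · rw [max_eq_right (by omega), max_eq_right (by omega), sub_self]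
  rw [sum_congr rfl h1, Finset.sum_range_sub' (fun i => Y ^ (k - max i r)) k]
  simp only [Nat.zero_max]
  rw [max_eq_left hr, Nat.sub_self, pow_zero]

/-- The bound of a truncated sum with small digits, multiplied by `A`. -/
private lemma sign_geo_le {Y A L T : ℤ} (k r : ℕ) (hr : r ≤ k) (hL : 0 ≤ L) (hY : 0 ≤ Y)
    (hT : A * T ≤ L) (c : Fin k → ℤ) (hc : ∀ i, A * c i ≤ Y - 1) :
    A * ((∑ i : Fin k, if r ≤ i.val then L * Y ^ (k - 1 - i.val) * c i else 0) + T) ≤
      L * Y ^ (k - r) := by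
  have h1 : A * (∑ i : Fin k, if r ≤ i.val then L * Y ^ (k - 1 - i.val) * c i else 0) ≤
      L * (Y ^ (k - r) - 1) := by
    rw [← sign_geo Y k r hr, mul_sum, mul_sum]
    refine sum_le_sum fun i _ => ?_
    split_ifs with h
    · calc A * (L * Y ^ (k - 1 - i.val) * c i) = L * (Y ^ (k - 1 - i.val) * (A * c i)) := by ring
        _ ≤ L * (Y ^ (k - 1 - i.val) * (Y - 1)) :=
            mul_le_mul_of_nonneg_left
              (mul_le_mul_of_nonneg_left (hc i) (pow_nonneg hY _)) hL
    · simp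
  calc A * ((∑ i : Fin k, if r ≤ i.val then L * Y ^ (k - 1 - i.val) * c i else 0) + T)
      = A * (∑ i : Fin k, if r ≤ i.val then L * Y ^ (k - 1 - i.val) * c i else 0) + A * T := by
        ring
    _ ≤ L * (Y ^ (k - r) - 1) + L := add_le_add h1 hT
    _ = L * Y ^ (k - r) := by ring

/-- The value of an element that is not deleted, as a sum. -/
private lemma sign_vl_eq (L Y Q : ℕ) (dg : E m → Fin k → Fin b) (lam : Lam m k b Z M N)
    (tiny : E m → ℤ) (e : E m) (hz : (lam.1 e).1 = false) :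
    vl L Y Q dg lam tiny e =
      (∑ i : Fin k, (L : ℤ) * (Y : ℤ) ^ (k - 1 - i.val) *
        ((lam.2.1 i (pre (i.val + 1) (dg e)) : ℕ) : ℤ)) + tiny e := by
  unfold vl strc
  rw [if_neg (by rw [hz]; simp), mul_sum]
  congr 1
  refine sum_congr rfl fun i _ => ?_
  ring

private lemma sign_abs_sum_le {ι : Type} (s : Finset ι) {f : ι → ℤ} (hf : ∀ i ∈ s, 0 ≤ f i)
    (t T : ℤ) (ht : |t| ≤ T) : |(∑ i ∈ s, f i) + t| ≤ (∑ i ∈ s, f i) + T := by
  refine (abs_add_le _ _).trans ?_
  rw [abs_of_nonneg (sum_nonneg hf)]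
  exact add_le_add le_rfl ht

/-- The digits are small. -/
private lemma sign_digits {s Y : ℕ} (hs : 1 ≤ s) (hY : 16 * s * M ≤ Y)
    (dg : E m → Fin k → Fin b) (lam : Lam m k b Z M N) (e : E m) :
    (∀ j : Fin k, 8 * (s : ℤ) * ((lam.2.1 j (pre (j.val + 1) (dg e)) : ℕ) : ℤ) ≤ (Y : ℤ) - 1) ∧
    (∀ j : Fin k, 1 * ((lam.2.1 j (pre (j.val + 1) (dg e)) : ℕ) : ℤ) ≤ (Y : ℤ) - 1) := by
  have hs' : (1 : ℤ) ≤ s := by exact_mod_cast hs
  have hY' : (16 * s * M : ℤ) ≤ Y := by exact_mod_cast hY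
  have key : ∀ j : Fin k, ((lam.2.1 j (pre (j.val + 1) (dg e)) : ℕ) : ℤ) + 1 ≤ (M : ℤ) := by
    intro j
    have := (lam.2.1 j (pre (j.val + 1) (dg e))).isLt
    exact_mod_cast this
  constructor
  · intro j
    have h1 := key j
    have h0 : (0 : ℤ) ≤ ((lam.2.1 j (pre (j.val + 1) (dg e)) : ℕ) : ℤ) := by positivity
    nlinarith [mul_le_mul_of_nonneg_left h1 (by linarith : (0 : ℤ) ≤ s)]
  · intro j
    have h1 := key j
    have h0 : (0 : ℤ) ≤ ((lam.2.1 j (pre (j.val + 1) (dg e)) : ℕ) : ℤ) := by positivity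
    nlinarith [mul_le_mul_of_nonneg_left h1 (by linarith : (0 : ℤ) ≤ s)]

/-- The part of the value that is not revealed (also for other last digits `tiny`): if `e` is lost
on level `i + 1`, then what is missing is
`L * ∑ i' > i, Y ^ (k - 1 - i') * u i' + tiny e` with `u ≤ M - 1`, `0 ≤ tiny ≤ 2 N + 1`. -/
theorem rest_le {s L Y Q : ℕ} (hs : 1 ≤ s) (hL : 16 * s * (N + 1) ≤ L) (hY : 16 * s * M ≤ Y)
    (dg : E m → Fin k → Fin b) (lam : Lam m k b Z M N) (tiny : E m → ℤ)
    (ht : ∀ e, |tiny e| ≤ 2 * (N : ℤ) + 1) (S : Finset (E m)) (e : E m)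
    (hz : (lam.1 e).1 = false) (i : Fin k) (h1 : e ∈ mt S dg i.val)
    (h2 : e ∉ mt S dg (i.val + 1)) :
    8 * (s : ℤ) * |vl L Y Q dg lam tiny e - rp L Y S dg lam e| ≤
      (L : ℤ) * (Y : ℤ) ^ (k - 1 - i.val) := by
  obtain ⟨e1, e2⟩ := sign_digits (s := s) hs hY dg lam e
  have hle : i.val + 1 ≤ k := i.isLt
  have hk : e ∉ mt S dg k := fun h => h2 (mt_anti S dg hle h)
  have hdiff : vl L Y Q dg lam tiny e - rp L Y S dg lam e =
      (∑ j : Fin k, if i.val + 1 ≤ j.val then (L : ℤ) * (Y : ℤ) ^ (k - 1 - j.val) *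
        ((lam.2.1 j (pre (j.val + 1) (dg e)) : ℕ) : ℤ) else 0) + tiny e := by
    rw [sign_vl_eq L Y Q dg lam tiny e hz]
    unfold rp
    rw [if_neg hk, add_zero, add_sub_right_comm, ← sum_sub_distrib]
    congr 1
    refine sum_congr rfl fun j _ => ?_
    by_cases hj : i.val + 1 ≤ j.val
    · rw [if_pos hj, if_neg (fun h => h2 (mt_anti S dg hj h)), sub_zero]
    · rw [if_neg hj, if_pos (mt_anti S dg (by omega) h1), sub_self]
  rw [hdiff]
  have hnn : ∀ j ∈ (univ : Finset (Fin k)), (0 : ℤ) ≤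
      if i.val + 1 ≤ j.val then (L : ℤ) * (Y : ℤ) ^ (k - 1 - j.val) *
        ((lam.2.1 j (pre (j.val + 1) (dg e)) : ℕ) : ℤ) else 0 := by
    intro j _
    split_ifs
    · positivity
    · exact le_rfl
  have h3 := sign_abs_sum_le univ hnn (tiny e) _ (ht e)
  have hL' : (8 * (s : ℤ)) * (2 * (N : ℤ) + 1) ≤ (L : ℤ) := by
    have : (16 * s * (N + 1) : ℤ) ≤ L := by exact_mod_cast hL
    nlinarith
  have h4 := sign_geo_le (A := 8 * (s : ℤ)) (L := (L : ℤ)) (Y := (Y : ℤ)) k (i.val + 1) hle
    (by positivity) (by positivity) hL'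
    (fun j => ((lam.2.1 j (pre (j.val + 1) (dg e)) : ℕ) : ℤ)) e1
  have e3 : k - (i.val + 1) = k - 1 - i.val := by omega
  rw [e3] at h4
  exact (mul_le_mul_of_nonneg_left h3 (by positivity)).trans h4

/-- All of the value is revealed on level `k`. -/
theorem rest_zero (L Y Q : ℕ) (dg : E m → Fin k → Fin b) (lam : Lam m k b Z M N)
    (tiny : E m → ℤ) (S : Finset (E m)) (e : E m) (hz : (lam.1 e).1 = false)
    (h1 : e ∈ mt S dg k) (ht : tiny e = tinyN lam.2.2 e) :
    vl L Y Q dg lam tiny e = rp L Y S dg lam e := by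
  rw [sign_vl_eq L Y Q dg lam tiny e hz]
  unfold rp
  rw [if_pos h1, ht]
  congr 1
  refine sum_congr rfl fun i _ => ?_
  rw [if_pos (mt_anti S dg i.isLt.le h1)]

/-- Size of the value of an element that is not deleted. -/
theorem vl_abs_le {s L Y Q : ℕ} (hs : 1 ≤ s) (hL : 16 * s * (N + 1) ≤ L)
    (hY : 16 * s * M ≤ Y) (dg : E m → Fin k → Fin b) (lam : Lam m k b Z M N) (tiny : E m → ℤ)
    (ht : ∀ e, |tiny e| ≤ 2 * (N : ℤ) + 1) (e : E m) (hz : (lam.1 e).1 = false) :
    |vl L Y Q dg lam tiny e| ≤ (L : ℤ) * (Y : ℤ) ^ k := by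
  obtain ⟨-, e2⟩ := sign_digits (s := s) hs hY dg lam e
  rw [sign_vl_eq L Y Q dg lam tiny e hz]
  have hnn : ∀ j ∈ (univ : Finset (Fin k)), (0 : ℤ) ≤
      (L : ℤ) * (Y : ℤ) ^ (k - 1 - j.val) *
        ((lam.2.1 j (pre (j.val + 1) (dg e)) : ℕ) : ℤ) := by
    intro j _
    positivity
  have h3 := sign_abs_sum_le univ hnn (tiny e) _ (ht e)
  have hL' : (1 : ℤ) * (2 * (N : ℤ) + 1) ≤ (L : ℤ) := by
    have h5 : (16 * s * (N + 1) : ℤ) ≤ L := by exact_mod_cast hL
    have hs' : (1 : ℤ) ≤ s := by exact_mod_cast hs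
    have hN : (0 : ℤ) ≤ N := by positivity
    nlinarith
  have h4 := sign_geo_le (A := 1) (L := (L : ℤ)) (Y := (Y : ℤ)) k 0 (Nat.zero_le _)
    (by positivity) (by positivity) hL'
    (fun j => ((lam.2.1 j (pre (j.val + 1) (dg e)) : ℕ) : ℤ)) e2
  simp only [Nat.zero_le, if_true, one_mul, Nat.sub_zero] at h4
  exact h3.trans h4

/-- The sign of the form is the sign of its ideal value.  Proof: with `S = top γ lam.1`, the
difference of the two values is at most
`∑ (not deleted, not in S) |γ e| L Y ^ k + ∑ (e ∈ S, not in mt k) |γ e| scale / (8 s)`; if there is an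
element of the first kind, then some deleted `e'` has `|γ e| ≤ |γ e'|`, so every term is at most
`2 |vid| L Y ^ k / Q`, and `24 m ^ 2 L Y ^ k ≤ Q` with at most `3 m ^ 2` terms; in the second sum at
most `s` terms of size at most `2 |vid| / (8 s)`. Total at most `|vid| / 2`. -/
theorem sign_eq {s L Y Q : ℕ} (hs : 1 ≤ s) (hL : 16 * s * (N + 1) ≤ L)
    (hY : 16 * s * M ≤ Y) (hQ : 24 * m ^ 2 * (L * Y ^ k) ≤ Q) (c : ℝ) (γ : E m → ℝ)
    (dg : E m → Fin k → Fin b) (lam : Lam m k b Z M N) (tiny : E m → ℤ)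
    (ht : ∀ e, |tiny e| ≤ 2 * (N : ℤ) + 1)
    (ht' : ∀ e, tiny e ≠ tinyN lam.2.2 e →
      (lam.1 e).1 = false ∧ e ∉ mt (top γ lam.1) dg k)
    (hS : (top γ lam.1).card ≤ s) (hG : GoodS L Y Q c γ (top γ lam.1) dg lam) :
    SignType.sign (c + ∑ e, γ e * (vl L Y Q dg lam tiny e : ℝ)) =
      SignType.sign (vid L Y Q c γ (top γ lam.1) dg lam) := by
  classical
  set S := top γ lam.1 with hSdef
  set v := vid L Y Q c γ S dg lam with hv
  set X : E m → ℝ := fun e => if (lam.1 e).1 = true then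
      (Q : ℝ) * (((lam.1 e).2 : ℕ) : ℝ) + (tinyN lam.2.2 e : ℝ)
    else if e ∈ S then (rp L Y S dg lam e : ℝ) else 0 with hX
  obtain ⟨hG1, hG2⟩ := hG
  rw [← hv] at hG1 hG2
  have hs' : (1 : ℝ) ≤ s := by exact_mod_cast hs
  have hv0 : 0 ≤ |v| := abs_nonneg v
  -- the difference
  have hdiff : (c + ∑ e, γ e * (vl L Y Q dg lam tiny e : ℝ)) - v =
      ∑ e, γ e * ((vl L Y Q dg lam tiny e : ℝ) - X e) := by
    rw [hv]
    unfold vid
    rw [add_sub_add_left_eq_sub, ← sum_sub_distrib]
    refine sum_congr rfl fun e _ => ?_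
    rw [mul_sub]
  have hterm : ∀ e : E m, |γ e * ((vl L Y Q dg lam tiny e : ℝ) - X e)| ≤
      (if e ∈ S then |v| / (4 * s) else 0) + |v| / (12 * m ^ 2) := by
    intro e
    have hm : (0 : ℝ) < m := by
      have : 0 < m := Nat.pos_of_ne_zero fun h => by
        subst h
        exact e.2.1.elim0
      exact_mod_cast this
    have hb1 : 0 ≤ |v| / (12 * (m : ℝ) ^ 2) := by positivity
    have hb2 : (0 : ℝ) ≤ if e ∈ S then |v| / (4 * (s : ℝ)) else 0 := by
      split_ifs
      · positivity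
      · exact le_rfl
    rcases Bool.eq_false_or_eq_true (lam.1 e).1 with hz | hz
    · -- deleted
      have h1 : tiny e = tinyN lam.2.2 e := by
        by_contra hne
        have := (ht' e hne).1
        rw [hz] at this
        exact Bool.noConfusion this
      have h2 : (vl L Y Q dg lam tiny e : ℝ) - X e = 0 := by
        rw [hX]
        simp only [hz, if_true]
        unfold vl
        rw [if_pos hz, h1]
        push_cast
        ring
      rw [h2, mul_zero, abs_zero]
      exact add_nonneg hb2 hb1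
    · by_cases he : e ∈ S
      · have hXe : X e = (rp L Y S dg lam e : ℝ) := by
          rw [hX]
          simp only [hz, he, if_true]
          simp
        rw [hXe, if_pos he]
        by_cases hk : e ∈ mt S dg k
        · have h1 : tiny e = tinyN lam.2.2 e := by
            by_contra hne
            exact (ht' e hne).2 hk
          rw [rest_zero L Y Q dg lam tiny S e hz hk h1, sub_self, mul_zero, abs_zero]
          positivity
        · obtain ⟨i, hi1, hi2⟩ := exists_level he hk
          have h1 := rest_le (Q := Q) hs hL hY dg lam tiny ht S e hz i hi1 hi2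
          have h2 := hG2 e he i hi1 hi2
          have h1' : 8 * (s : ℝ) * |(vl L Y Q dg lam tiny e : ℝ) - (rp L Y S dg lam e : ℝ)| ≤
              (L : ℝ) * (Y : ℝ) ^ (k - 1 - i.val) := by
            have := (Int.cast_le (R := ℝ)).2 h1
            push_cast at this
            exact this
          have h3 : |γ e * ((vl L Y Q dg lam tiny e : ℝ) - (rp L Y S dg lam e : ℝ))| ≤
              |v| / (4 * s) := by
            rw [abs_mul, le_div_iff₀ (by positivity)]
            have h4 := mul_le_mul_of_nonneg_left h1' (abs_nonneg (γ e))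
            linarith
          linarith
      · have hXe : X e = 0 := by
          rw [hX]
          simp only [hz, he, if_false]
          simp
        rw [hXe, if_neg he, sub_zero, zero_add]
        have hex : ∃ e', (lam.1 e').1 = true ∧ |γ e| ≤ |γ e'| := by
          by_contra hno
          push Not at hno
          apply he
          rw [hSdef]
          unfold top
          rw [mem_filter]
          exact ⟨mem_univ _, hz, hno⟩
        obtain ⟨e', hz', hle⟩ := hex
        have h1 := vl_abs_le (Q := Q) hs hL hY dg lam tiny ht e hz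
        have h1' : |(vl L Y Q dg lam tiny e : ℝ)| ≤ (L : ℝ) * (Y : ℝ) ^ k := by
          have := (Int.cast_le (R := ℝ)).2 h1
          push_cast at this
          exact this
        have hQ' : 24 * (m : ℝ) ^ 2 * ((L : ℝ) * (Y : ℝ) ^ k) ≤ Q := by exact_mod_cast hQ
        have h2 := hG1 e' hz'
        rw [abs_mul, le_div_iff₀ (by positivity)]
        have h3 : |γ e| * |(vl L Y Q dg lam tiny e : ℝ)| ≤
            |γ e'| * ((L : ℝ) * (Y : ℝ) ^ k) :=
          mul_le_mul hle h1' (abs_nonneg _) (abs_nonneg _)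
        have h4 := mul_le_mul_of_nonneg_left hQ' (abs_nonneg (γ e'))
        have h5 := mul_le_mul_of_nonneg_right h3 (by positivity : (0 : ℝ) ≤ 24 * (m : ℝ) ^ 2)
        nlinarith
  have hE : (Fintype.card (E m) : ℝ) = 3 * (m : ℝ) ^ 2 := by
    rw [Fintype.card_prod, Fintype.card_prod, Fintype.card_fin, Fintype.card_fin]
    push_cast
    ring
  have hsum : |(c + ∑ e, γ e * (vl L Y Q dg lam tiny e : ℝ)) - v| ≤ |v| / 2 := by
    rw [hdiff]
    refine (abs_sum_le_sum_abs _ _).trans ?_
    refine (sum_le_sum fun e _ => hterm e).trans ?_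
    rw [sum_add_distrib, ← sum_filter, sum_const, sum_const, nsmul_eq_mul, nsmul_eq_mul]
    have h1 : ((filter (fun e => e ∈ S) univ).card : ℝ) * (|v| / (4 * s)) ≤ |v| / 4 := by
      have h2 : ((filter (fun e => e ∈ S) univ).card : ℝ) ≤ s := by
        rw [filter_mem_eq_inter, univ_inter]
        exact_mod_cast hS
      calc ((filter (fun e => e ∈ S) univ).card : ℝ) * (|v| / (4 * s)) ≤ s * (|v| / (4 * s)) :=
            mul_le_mul_of_nonneg_right h2 (by positivity)
        _ = |v| / 4 := by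
            field_simp
    have h2 : ((univ : Finset (E m)).card : ℝ) * (|v| / (12 * m ^ 2)) ≤ |v| / 4 := by
      rw [card_univ, hE]
      rcases Nat.eq_zero_or_pos m with h0 | h0
      · subst h0
        simp
        positivity
      · have hm : (0 : ℝ) < m := by exact_mod_cast h0
        have : 3 * (m : ℝ) ^ 2 * (|v| / (12 * m ^ 2)) = |v| / 4 := by
          field_simp
          ring
        rw [this]
    linarith
  generalize (c + ∑ e, γ e * (vl L Y Q dg lam tiny e : ℝ)) = V at hsum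
  rcases lt_trichotomy v 0 with h | h | h
  · rw [abs_of_neg h, abs_le] at hsum
    rw [sign_neg h, sign_neg (by linarith)]
  · rw [h, abs_zero, zero_div, sub_zero] at hsum
    rw [h, abs_nonpos_iff.1 hsum]
  · rw [abs_of_pos h, abs_le] at hsum
    rw [sign_pos h, sign_pos (by linarith)]

end Pool.Agent.Helper21.DS
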