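import Pool.Agent.Helper21.DS.Mt

/-!
# The number of elements looked at
-/

set_option autoImplicit false

namespace Pool.Agent.Helper21.DS

open Finset
open Pool.Agent.Helper22.ETModel
open Pool.Agent.Helper23.SP (pre sg)
open Pool.Agent.Helper8.ZT

variable {m Z : ℕ}

lemma count_top_exists {α : Type} [Fintype α] [DecidableEq α] (g : α → ℝ) (s : ℕ)
    (hs : s ≤ Fintype.card α) :
    ∃ T : Finset α, T.card = s ∧ ∀ e ∈ T, ∀ e' ∉ T, g e' ≤ g e := by
  induction s with
  | zero => exact ⟨∅, by simp, by simp⟩
  | succ s ih =>
    obtain ⟨T, hT, hmax⟩ := ih (by omega)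
    have hne : (Tᶜ).Nonempty := by
      rw [← card_pos, card_compl]
      omega
    obtain ⟨e1, he1, h1⟩ := exists_max_image Tᶜ g hne
    rw [mem_compl] at he1
    refine ⟨insert e1 T, by rw [card_insert_of_notMem he1, hT], ?_⟩
    intro e he e' he'
    rw [mem_insert, not_or] at he'
    rcases mem_insert.1 he with rfl | he
    · exact h1 e' (mem_compl.2 he'.2)
    · exact hmax e he e' he'.2

open Classical in
/-- Few elements are looked at: if `top` has more than `s` elements then the `s` elements with the
largest coefficients are not deleted. -/
theorem count_top (γ : E m → ℝ) (s : ℕ) :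
    (univ.filter fun z : E m → Bool × Fin Z => s < (top γ z).card).card * 2 ^ s ≤
      Fintype.card (E m → Bool × Fin Z) := by
  rcases Nat.lt_or_ge (Fintype.card (E m)) s with hs | hs
  · have h0 : (univ.filter fun z : E m → Bool × Fin Z => s < (top γ z).card) = ∅ := by
      refine filter_eq_empty_iff.2 fun z _ h => ?_
      have := card_le_univ (top γ z)
      omega
    rw [h0]
    simp
  obtain ⟨T, hT, hmax⟩ := count_top_exists (fun e => |γ e|) s hs
  have hsub : (univ.filter fun z : E m → Bool × Fin Z => s < (top γ z).card) ⊆
      Fintype.piFinset fun e => if e ∈ T then (univ.filter fun x : Bool × Fin Z => x.1 = false)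
        else univ := by
    intro z hz
    rw [mem_filter] at hz
    rw [Fintype.mem_piFinset]
    intro e
    by_cases he : e ∈ T
    · rw [if_pos he, mem_filter]
      refine ⟨mem_univ _, ?_⟩
      by_contra hdel
      have hdel' : (z e).1 = true := by
        cases hb : (z e).1
        · exact absurd hb hdel
        · rfl
      have hsub2 : top γ z ⊆ T.erase e := by
        intro e2 he2
        unfold top at he2
        rw [mem_filter] at he2
        have hlt := he2.2.2 e hdel'
        rw [mem_erase]
        refine ⟨fun h => ?_, ?_⟩
        · rw [h] at hlt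
          exact lt_irrefl _ hlt
        · by_contra hn
          exact absurd (hmax e he e2 hn) (not_le.2 hlt)
      have h1 := card_le_card hsub2
      rw [card_erase_of_mem he, hT] at h1
      omega
    · rw [if_neg he]
      exact mem_univ _
  have hfalse : (univ.filter fun x : Bool × Fin Z => x.1 = false).card * 2 =
      Fintype.card (Bool × Fin Z) := by
    have h1 : (univ.filter fun x : Bool × Fin Z => x.1 = false) =
        ({false} : Finset Bool) ×ˢ (univ : Finset (Fin Z)) := by
      ext ⟨x1, x2⟩
      simp
    rw [h1, card_product, Fintype.card_prod]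
    simp [mul_comm]
  calc (univ.filter fun z : E m → Bool × Fin Z => s < (top γ z).card).card * 2 ^ s
      ≤ (∏ e : E m, (if e ∈ T then (univ.filter fun x : Bool × Fin Z => x.1 = false)
          else univ : Finset (Bool × Fin Z)).card) * 2 ^ s := by
        refine Nat.mul_le_mul_right _ ?_
        rw [← Fintype.card_piFinset]
        exact card_le_card hsub
    _ = (∏ e : E m, (if e ∈ T then (univ.filter fun x : Bool × Fin Z => x.1 = false)
          else univ : Finset (Bool × Fin Z)).card) * ∏ e : E m, (if e ∈ T then 2 else 1) := by
        congr 1
        rw [prod_ite, prod_const, prod_const_one, mul_one, ← hT]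
        congr 2
        ext e
        simp
    _ = ∏ e : E m, Fintype.card (Bool × Fin Z) := by
        rw [← prod_mul_distrib]
        refine prod_congr rfl fun e _ => ?_
        by_cases he : e ∈ T
        · rw [if_pos he, if_pos he, hfalse]
        · rw [if_neg he, if_neg he, mul_one, card_univ]
    _ = Fintype.card (E m → Bool × Fin Z) := by
        rw [Fintype.card_fun, prod_const, card_univ]

end Pool.Agent.Helper21.DS
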