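import Pool.Agent.Helper21.DS.Mt

/-!
# Anticoncentration: masks
-/

set_option autoImplicit false

namespace Pool.Agent.Helper21.DS

open Finset
open Pool.Agent.Helper22.ETModel
open Pool.Agent.Helper23.SP (pre sg)
open Pool.Agent.Helper8.ZT

variable {m k b Z M N : ℕ} [NeZero b]

/-- Resampling one value of a table: if the other values determine it on `B`, then `B` is small. -/
private lemma count_u_card (i : Fin k) (cell : Fin k → Fin b)
    (B : Finset (Fin k → (Fin k → Fin b) → Fin M))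
    (hB : ∀ u ∈ B, ∀ u' ∈ B, (∀ j x, ¬ (j = i ∧ x = cell) → u j x = u' j x) →
      u i cell = u' i cell) :
    B.card * M ≤ Fintype.card (Fin k → (Fin k → Fin b) → Fin M) := by
  classical
  have h1 : B.card * M = (B ×ˢ (univ : Finset (Fin M))).card := by
    rw [card_product, card_univ, Fintype.card_fin]
  rw [h1, ← card_univ]
  refine card_le_card_of_injOn
    (fun q => Function.update q.1 i (Function.update (q.1 i) cell q.2)) (fun _ _ => mem_univ _) ?_
  rintro ⟨u, x⟩ hu ⟨u', x'⟩ hu' heq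
  simp only [coe_product, Set.mem_prod, mem_coe] at hu hu'
  simp only at heq
  have hx : x = x' := by
    have := congrFun (congrFun heq i) cell
    simpa using this
  have ho : ∀ j y, ¬ (j = i ∧ y = cell) → u j y = u' j y := by
    intro j y hjy
    have h2 := congrFun (congrFun heq j) y
    by_cases hj : j = i
    · subst hj
      have hy : y ≠ cell := fun h => hjy ⟨rfl, h⟩
      simpa [Function.update_self, Function.update_of_ne hy] using h2
    · simpa [Function.update_of_ne hj] using h2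
  have hc := hB u hu.1 u' hu'.1 ho
  refine Prod.ext ?_ hx
  funext j y
  by_cases hjy : j = i ∧ y = cell
  · rw [hjy.1, hjy.2]
    exact hc
  · exact ho j y hjy

/-- The revealed part of another element does not see the value. -/
private lemma count_u_rp_ne (L Y : ℕ) (S : Finset (E m)) (dg : E m → Fin k → Fin b)
    (z : E m → Bool × Fin Z) (ν : E m → Fin (N + 1)) (i : Fin k) {e e' : E m} (he : e ∈ S)
    (he1 : e ∉ mt S dg (i.val + 1)) (he' : e' ∈ S) (hne : e' ≠ e)
    {u u' : Fin k → (Fin k → Fin b) → Fin M}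
    (ho : ∀ j x, ¬ (j = i ∧ x = pre (i.val + 1) (dg e)) → u j x = u' j x) :
    rp L Y S dg (z, u, ν) e' = rp L Y S dg (z, u', ν) e' := by
  unfold rp
  have : ∀ j : Fin k, u j (pre (j.val + 1) (dg e')) = u' j (pre (j.val + 1) (dg e')) := by
    intro j
    refine ho j _ ?_
    rintro ⟨h1, h2⟩
    subst h1
    exact he1 (mem_mt.2 ⟨he, Or.inr ⟨e', he', hne, h2⟩⟩)
  simp only [this]

/-- The revealed part of the element itself. -/
private lemma count_u_rp_self (L Y : ℕ) (S : Finset (E m)) (dg : E m → Fin k → Fin b)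
    (z : E m → Bool × Fin Z) (ν : E m → Fin (N + 1)) (i : Fin k) {e : E m}
    (he0 : e ∈ mt S dg i.val)
    {u u' : Fin k → (Fin k → Fin b) → Fin M}
    (ho : ∀ j x, ¬ (j = i ∧ x = pre (i.val + 1) (dg e)) → u j x = u' j x) :
    rp L Y S dg (z, u, ν) e - rp L Y S dg (z, u', ν) e =
      (L : ℤ) * (Y : ℤ) ^ (k - 1 - i.val) *
        (((u i (pre (i.val + 1) (dg e)) : ℕ) : ℤ) - ((u' i (pre (i.val + 1) (dg e)) : ℕ) : ℤ)) := by
  unfold rp
  rw [add_sub_add_right_eq_sub, ← sum_sub_distrib, sum_eq_single i]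
  · simp only [if_pos he0]
    ring
  · intro j _ hj
    have h1 : u j (pre (j.val + 1) (dg e)) = u' j (pre (j.val + 1) (dg e)) :=
      ho j _ fun h => hj h.1
    simp only [h1, sub_self]
  · intro h
    exact absurd (mem_univ i) h

/-- The ideal value as a function of one value of the masks. -/
private lemma count_u_vid (L Y Q : ℕ) (c : ℝ) (γ : E m → ℝ) (S : Finset (E m))
    (dg : E m → Fin k → Fin b) (z : E m → Bool × Fin Z) (ν : E m → Fin (N + 1)) (i : Fin k)
    {e : E m} (he : e ∈ S) (hz : (z e).1 = false) (he0 : e ∈ mt S dg i.val)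
    (he1 : e ∉ mt S dg (i.val + 1)) {u u' : Fin k → (Fin k → Fin b) → Fin M}
    (ho : ∀ j x, ¬ (j = i ∧ x = pre (i.val + 1) (dg e)) → u j x = u' j x) :
    vid L Y Q c γ S dg (z, u, ν) - vid L Y Q c γ S dg (z, u', ν) =
      γ e * ((L : ℝ) * (Y : ℝ) ^ (k - 1 - i.val)) *
        ((((u i (pre (i.val + 1) (dg e)) : ℕ) : ℤ) -
          ((u' i (pre (i.val + 1) (dg e)) : ℕ) : ℤ) : ℤ) : ℝ) := by
  have hself := count_u_rp_self L Y S dg z ν i he0 ho
  have hself' : (rp L Y S dg (z, u, ν) e : ℝ) - (rp L Y S dg (z, u', ν) e : ℝ) =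
      (L : ℝ) * (Y : ℝ) ^ (k - 1 - i.val) *
        ((((u i (pre (i.val + 1) (dg e)) : ℕ) : ℤ) -
          ((u' i (pre (i.val + 1) (dg e)) : ℕ) : ℤ) : ℤ) : ℝ) := by
    rw [← Int.cast_sub, hself]
    push_cast
    ring
  unfold vid
  rw [add_sub_add_left_eq_sub, ← sum_sub_distrib, sum_eq_single e]
  · simp only [hz, Bool.false_eq_true, if_false, if_pos he]
    rw [← mul_sub, hself']
    ring
  · intro e' _ hne
    by_cases hz' : (z e').1 = true
    · simp only [hz', if_true, sub_self]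
    · by_cases hS' : e' ∈ S
      · simp only [hz', if_false, if_pos hS',
          count_u_rp_ne L Y S dg z ν i he he1 hS' hne ho, sub_self]
      · simp only [hz', if_false, if_neg hS', sub_self]
  · intro h
    exact absurd (mem_univ e) h

open Classical in
/-- The bad masks of one element. -/
private lemma count_u_elem (L Y Q : ℕ) (c : ℝ) (γ : E m → ℝ) (S : Finset (E m))
    (dg : E m → Fin k → Fin b) (z : E m → Bool × Fin Z)
    (ν : E m → Fin (N + 1)) {e : E m} (he : e ∈ S) (hz : (z e).1 = false) :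
    (univ.filter fun u : Fin k → (Fin k → Fin b) → Fin M => ∃ i : Fin k,
      e ∈ mt S dg i.val ∧ e ∉ mt S dg (i.val + 1) ∧
      2 * |vid L Y Q c γ S dg (z, u, ν)| < |γ e| * ((L : ℝ) * (Y : ℝ) ^ (k - 1 - i.val))).card *
        M ≤ Fintype.card (Fin k → (Fin k → Fin b) → Fin M) := by
  by_cases hex : ∃ i : Fin k, e ∈ mt S dg i.val ∧ e ∉ mt S dg (i.val + 1)
  · obtain ⟨i, he0, he1⟩ := hex
    have huniq : ∀ j : Fin k, e ∈ mt S dg j.val → e ∉ mt S dg (j.val + 1) → j = i := by
      intro j hj0 hj1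
      rcases lt_trichotomy j.val i.val with h | h | h
      · exact absurd (mt_anti S dg (by omega : j.val + 1 ≤ i.val) he0) hj1
      · exact Fin.ext h
      · exact absurd (mt_anti S dg (by omega : i.val + 1 ≤ j.val) hj0) he1
    refine count_u_card i (pre (i.val + 1) (dg e)) _ ?_
    intro u hu u' hu' ho
    rw [mem_filter] at hu hu'
    obtain ⟨j, hj0, hj1, hj⟩ := hu.2
    obtain ⟨j', hj0', hj1', hj'⟩ := hu'.2
    rw [huniq j hj0 hj1] at hj
    rw [huniq j' hj0' hj1'] at hj'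
    have hd := count_u_vid L Y Q c γ S dg z ν i he hz he0 he1 ho
    obtain ⟨G, hG⟩ : ∃ G : ℝ, G = (L : ℝ) * (Y : ℝ) ^ (k - 1 - i.val) := ⟨_, rfl⟩
    have hG0 : 0 ≤ G := by rw [hG]; positivity
    obtain ⟨Δ, hΔ⟩ : ∃ Δ : ℤ, Δ = ((u i (pre (i.val + 1) (dg e)) : ℕ) : ℤ) -
        ((u' i (pre (i.val + 1) (dg e)) : ℕ) : ℤ) := ⟨_, rfl⟩
    rw [← hG, ← hΔ] at hd
    rw [← hG] at hj hj'
    have hab : |γ e * G * (Δ : ℝ)| < |γ e| * G := by
      rw [← hd]
      have h1 := abs_sub (vid L Y Q c γ S dg (z, u, ν)) (vid L Y Q c γ S dg (z, u', ν))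
      linarith
    rw [abs_mul, abs_mul, abs_of_nonneg hG0] at hab
    have hpos : 0 < |γ e| * G := lt_of_le_of_lt (by positivity) hab
    have h1 : |(Δ : ℝ)| < 1 := by
      by_contra h
      rw [not_lt] at h
      have := mul_le_mul_of_nonneg_left h hpos.le
      linarith
    have h2 : |Δ| < 1 := by exact_mod_cast h1
    have h3 : Δ = 0 := Int.abs_lt_one_iff.1 h2
    rw [hΔ] at h3
    apply Fin.ext
    omega
  · have h0 : (univ.filter fun u : Fin k → (Fin k → Fin b) → Fin M => ∃ i : Fin k,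
        e ∈ mt S dg i.val ∧ e ∉ mt S dg (i.val + 1) ∧
        2 * |vid L Y Q c γ S dg (z, u, ν)| < |γ e| * ((L : ℝ) * (Y : ℝ) ^ (k - 1 - i.val))) = ∅ := by
      rw [filter_eq_empty_iff]
      rintro u _ ⟨i, h1, h2, _⟩
      exact hex ⟨i, h1, h2⟩
    rw [h0, card_empty, zero_mul]
    exact Nat.zero_le _

open Classical in
/-- Masks: union over `e ∈ S` (the level `i` is unique); the cell `pre (i + 1) (dg e)` contains no
other element of `S`, so `vid = X + γ e L Y ^ (k - 1 - i) u i (cell)` and at most one value of the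
mask is bad. -/
theorem count_u (L Y Q : ℕ) (c : ℝ) (γ : E m → ℝ) (S : Finset (E m)) {s : ℕ}
    (hS : S.card ≤ s) (dg : E m → Fin k → Fin b) (z : E m → Bool × Fin Z)
    (hz : ∀ e ∈ S, (z e).1 = false) (ν : E m → Fin (N + 1)) :
    (univ.filter fun u : Fin k → (Fin k → Fin b) → Fin M => ∃ e ∈ S, ∃ i : Fin k,
      e ∈ mt S dg i.val ∧ e ∉ mt S dg (i.val + 1) ∧
      2 * |vid L Y Q c γ S dg (z, u, ν)| < |γ e| * ((L : ℝ) * (Y : ℝ) ^ (k - 1 - i.val))).card *
        M ≤ s * Fintype.card (Fin k → (Fin k → Fin b) → Fin M) := by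
  have hsub : (univ.filter fun u : Fin k → (Fin k → Fin b) → Fin M => ∃ e ∈ S, ∃ i : Fin k,
      e ∈ mt S dg i.val ∧ e ∉ mt S dg (i.val + 1) ∧
      2 * |vid L Y Q c γ S dg (z, u, ν)| < |γ e| * ((L : ℝ) * (Y : ℝ) ^ (k - 1 - i.val))) ⊆
      S.biUnion fun e => univ.filter fun u : Fin k → (Fin k → Fin b) → Fin M => ∃ i : Fin k,
        e ∈ mt S dg i.val ∧ e ∉ mt S dg (i.val + 1) ∧
        2 * |vid L Y Q c γ S dg (z, u, ν)| < |γ e| * ((L : ℝ) * (Y : ℝ) ^ (k - 1 - i.val)) := by
    intro u hu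
    rw [mem_filter] at hu
    obtain ⟨e, he, h⟩ := hu.2
    rw [mem_biUnion]
    exact ⟨e, he, mem_filter.2 ⟨mem_univ _, h⟩⟩
  refine (Nat.mul_le_mul_right M ((card_le_card hsub).trans card_biUnion_le)).trans ?_
  rw [sum_mul]
  refine (sum_le_sum fun e he => count_u_elem L Y Q c γ S dg z ν he (hz e he)).trans ?_
  rw [sum_const, smul_eq_mul]
  exact Nat.mul_le_mul_right _ hS

end Pool.Agent.Helper21.DS
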