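import Pool.Agent.Helper21.DS.CountZ
import Pool.Agent.Helper21.DS.CountU
import Pool.Agent.Helper21.DS.CountTop
import Pool.Agent.Helper21.DS.CountZero

/-!
# All queries are good with large probability
-/

set_option autoImplicit false

namespace Pool.Agent.Helper21.DS

open Finset
open Pool.Agent.Helper22.ETModel Pool.Agent.Helper22.TSModel Pool.Agent.Helper22.EP
open Pool.Agent.Helper23.SP (pre sg)
open Pool.Agent.Helper8.ZT

variable {m n k b Z M N d D W R : ℕ} [NeZero b]

/-- Counting fibre by fibre. -/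
private lemma badAll_fib {Ω α β : Type} [Fintype Ω] [Fintype α] [Fintype β] (e : α × β ≃ Ω)
    (P : Ω → Prop) [DecidablePred P] (C : ℕ)
    (h : ∀ a, C * (univ.filter fun b => P (e (a, b))).card ≤ Fintype.card β) :
    C * (univ.filter P).card ≤ Fintype.card Ω := by
  classical
  have h1 : (univ.filter P).card = ∑ a : α, (univ.filter fun b => P (e (a, b))).card := by
    rw [card_filter, ← Equiv.sum_comp e, Fintype.sum_prod_type]
    refine sum_congr rfl fun a _ => ?_
    rw [card_filter]
  rw [h1, mul_sum, ← Fintype.card_congr e, Fintype.card_prod, ← smul_eq_mul (Fintype.card α),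
    ← card_univ (α := α), ← sum_const]
  exact sum_le_sum fun a _ => h a

private lemma badAll_cancel {C G X V T : ℕ} (h : C * G ≤ V) (hX : X * V ≤ G * T)
    (h0 : G = 0 → X = 0) : C * X ≤ T := by
  rcases Nat.eq_zero_or_pos G with hG | hG
  · rw [h0 hG, mul_zero]
    exact Nat.zero_le _
  · have h2 : G * (C * X) ≤ G * T := by
      calc G * (C * X) = X * (C * G) := by ring
        _ ≤ X * V := Nat.mul_le_mul_left _ h
        _ ≤ G * T := hX
    exact Nat.le_of_mul_le_mul_left h2 hG

/-- The random data, with the values of the deleted elements last. -/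
private def badAll_eqZ (m k b Z M N : ℕ) :
    ((E m → Fin k → Fin b) × ((Fin k → (Fin k → Fin b) → Fin M) × (E m → Fin (N + 1)))) ×
      (E m → Bool × Fin Z) ≃ (E m → Fin k → Fin b) × Lam m k b Z M N where
  toFun x := (x.1.1, x.2, x.1.2)
  invFun ω := ((ω.1, ω.2.2), ω.2.1)
  left_inv _ := rfl
  right_inv _ := rfl

/-- The random data, with the masks last. -/
private def badAll_eqU (m k b Z M N : ℕ) :
    ((E m → Fin k → Fin b) × ((E m → Bool × Fin Z) × (E m → Fin (N + 1)))) ×
      (Fin k → (Fin k → Fin b) → Fin M) ≃ (E m → Fin k → Fin b) × Lam m k b Z M N where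
  toFun x := (x.1.1, x.1.2.1, x.2, x.1.2.2)
  invFun ω := ((ω.1, ω.2.1, ω.2.2.2), ω.2.2.1)
  left_inv _ := rfl
  right_inv _ := rfl

/-- The random data, with the noise last. -/
private def badAll_eqN (m k b Z M N : ℕ) :
    ((E m → Fin k → Fin b) × ((E m → Bool × Fin Z) × (Fin k → (Fin k → Fin b) → Fin M))) ×
      (E m → Fin (N + 1)) ≃ (E m → Fin k → Fin b) × Lam m k b Z M N where
  toFun x := (x.1.1, x.1.2.1, x.1.2.2, x.2)
  invFun ω := ((ω.1, ω.2.1, ω.2.2.1), ω.2.2.2)
  left_inv _ := rfl
  right_inv _ := rfl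

open Classical in
/-- The three kinds of bad events of a sign query. -/
private lemma badAll_sign (h : 3 * m ≤ n) {C s L Y Q : ℕ}
    (h1 : C ≤ 2 ^ s) (h2 : C * (3 * m ^ 2) ≤ Z) (h3 : C * s ≤ M)
    (c : ℝ) (a : Fin n × Fin n → ℝ) :
    C * (univ.filter fun ω : (E m → Fin k → Fin b) × Lam m k b Z M N =>
      ¬ GoodQ h s L Y Q ω.1 ω.2 (DenseQ.sign c a : DenseQ n d)).card ≤
      3 * Fintype.card ((E m → Fin k → Fin b) × Lam m k b Z M N) := by
  set γ : E m → ℝ := gam h a with hγ
  set P1 : (E m → Fin k → Fin b) × Lam m k b Z M N → Prop :=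
    fun ω => s < (top γ ω.2.1).card with hP1
  set P2 : (E m → Fin k → Fin b) × Lam m k b Z M N → Prop :=
    fun ω => ∃ e, (ω.2.1 e).1 = true ∧
      2 * |vid L Y Q c γ (top γ ω.2.1) ω.1 ω.2| < |γ e| * Q with hP2
  set P3 : (E m → Fin k → Fin b) × Lam m k b Z M N → Prop :=
    fun ω => (top γ ω.2.1).card ≤ s ∧ ∃ e ∈ top γ ω.2.1, ∃ i : Fin k,
      e ∈ mt (top γ ω.2.1) ω.1 i.val ∧ e ∉ mt (top γ ω.2.1) ω.1 (i.val + 1) ∧
      2 * |vid L Y Q c γ (top γ ω.2.1) ω.1 ω.2| <
        |γ e| * ((L : ℝ) * (Y : ℝ) ^ (k - 1 - i.val)) with hP3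
  have hsub : (univ.filter fun ω : (E m → Fin k → Fin b) × Lam m k b Z M N =>
      ¬ GoodQ h s L Y Q ω.1 ω.2 (DenseQ.sign c a : DenseQ n d)) ⊆
      univ.filter P1 ∪ (univ.filter P2 ∪ univ.filter P3) := by
    intro ω hω
    rw [mem_filter] at hω
    have hω' : ¬ ((top γ ω.2.1).card ≤ s ∧ GoodS L Y Q c γ (top γ ω.2.1) ω.1 ω.2) := hω.2
    rw [mem_union, mem_union, mem_filter, mem_filter, mem_filter]
    by_cases hc : (top γ ω.2.1).card ≤ s
    · right
      have hg : ¬ GoodS L Y Q c γ (top γ ω.2.1) ω.1 ω.2 := fun hg => hω' ⟨hc, hg⟩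
      unfold GoodS at hg
      rw [not_and_or] at hg
      rcases hg with hg | hg
      · left
        push Not at hg
        obtain ⟨e, he1, he2⟩ := hg
        exact ⟨mem_univ _, e, he1, he2⟩
      · right
        push Not at hg
        obtain ⟨e, he, i, hi1, hi2, hi3⟩ := hg
        exact ⟨mem_univ _, hc, e, he, i, hi1, hi2, hi3⟩
    · left
      exact ⟨mem_univ _, by show s < _; omega⟩
  have b1 : C * (univ.filter P1).card ≤
      Fintype.card ((E m → Fin k → Fin b) × Lam m k b Z M N) := by
    refine badAll_fib (badAll_eqZ m k b Z M N) P1 C fun x => ?_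
    have hh := count_top (Z := Z) γ s
    have e1 : (univ.filter fun z : E m → Bool × Fin Z => P1 (badAll_eqZ m k b Z M N (x, z))) =
        (univ.filter fun z : E m → Bool × Fin Z => s < (top γ z).card) := rfl
    rw [e1]
    calc C * (univ.filter fun z : E m → Bool × Fin Z => s < (top γ z).card).card
        ≤ 2 ^ s * (univ.filter fun z : E m → Bool × Fin Z => s < (top γ z).card).card :=
          Nat.mul_le_mul_right _ h1
      _ = (univ.filter fun z : E m → Bool × Fin Z => s < (top γ z).card).card * 2 ^ s :=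
          mul_comm _ _
      _ ≤ _ := hh
  have b2 : C * (univ.filter P2).card ≤
      Fintype.card ((E m → Fin k → Fin b) × Lam m k b Z M N) := by
    refine badAll_fib (badAll_eqZ m k b Z M N) P2 C fun x => ?_
    have hh := count_z (Z := Z) L Y Q c γ
      (fun g : E m → Bool => univ.filter fun e => g e = false ∧
        ∀ e', g e' = true → |γ e'| < |γ e|) x.1 x.2
    refine badAll_cancel h2 hh fun hG => ?_
    rw [card_eq_zero, filter_eq_empty_iff]
    rintro z - ⟨e, -⟩
    have hm : m = 0 := by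
      by_contra hm
      have : 0 < m ^ 2 := by positivity
      omega
    subst hm
    exact e.2.1.elim0
  have b3 : C * (univ.filter P3).card ≤
      Fintype.card ((E m → Fin k → Fin b) × Lam m k b Z M N) := by
    refine badAll_fib (badAll_eqU m k b Z M N) P3 C fun x => ?_
    by_cases hc : (top γ x.2.1).card ≤ s
    · have hh := count_u (M := M) L Y Q c γ (top γ x.2.1) hc x.1 x.2.1
        (fun e he => by
          unfold top at he
          exact (mem_filter.1 he).2.1) x.2.2
      refine badAll_cancel h3 (le_trans (Nat.mul_le_mul_right _ (card_le_card ?_)) hh) fun hG => ?_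
      · intro u hu
        rw [mem_filter] at hu ⊢
        exact ⟨mem_univ _, hu.2.2⟩
      · rw [card_eq_zero, filter_eq_empty_iff]
        rintro u - ⟨-, e, he, -⟩
        have h4 : (top γ x.2.1).card = 0 := by omega
        rw [card_eq_zero] at h4
        have he' : e ∈ top γ x.2.1 := he
        rw [h4] at he'
        exact notMem_empty _ he'
    · have e1 : (univ.filter fun u => P3 (badAll_eqU m k b Z M N (x, u))) = ∅ := by
        rw [filter_eq_empty_iff]
        intro u _ hu
        exact hc hu.1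
      rw [e1, card_empty, mul_zero]
      exact Nat.zero_le _
  have hc1 := card_le_card hsub
  have hc2 := card_union_le (univ.filter P1) (univ.filter P2 ∪ univ.filter P3)
  have hc3 := card_union_le (univ.filter P2) (univ.filter P3)
  calc C * _ ≤ C * ((univ.filter P1).card + ((univ.filter P2).card + (univ.filter P3).card)) :=
        Nat.mul_le_mul_left _ (by omega)
    _ = C * (univ.filter P1).card + (C * (univ.filter P2).card + C * (univ.filter P3).card) := by
        ring
    _ ≤ _ := by omega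

open Classical in
/-- Zero tests. -/
private lemma badAll_zero (h : 3 * m ≤ n) {C s L Y Q : ℕ}
    (h4 : C * ((1 + m ^ 3) * (3 * m ^ 2 * d)) ≤ N + 1)
    (f : MvPolynomial (Fin n × Fin n) ℝ) (hf : f.totalDegree ≤ d) :
    C * (univ.filter fun ω : (E m → Fin k → Fin b) × Lam m k b Z M N =>
      ¬ GoodQ h s L Y Q ω.1 ω.2 (DenseQ.zero f hf : DenseQ n d)).card ≤
      Fintype.card ((E m → Fin k → Fin b) × Lam m k b Z M N) := by
  refine badAll_fib (badAll_eqN m k b Z M N) _ C fun x => ?_
  have hh := count_zero (N := N) h f hf L Y Q x.1 x.2.1 x.2.2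
  refine badAll_cancel h4 (le_trans (Nat.mul_le_mul_right _ (card_le_card ?_)) hh) fun hG => ?_
  · intro ν hν
    rw [mem_filter] at hν ⊢
    exact ⟨mem_univ _, hν.2⟩
  · have h5 := le_trans (Nat.mul_le_mul_right (N + 1) (card_le_card (t := univ.filter fun
        ν : E m → Fin (N + 1) => ¬ ((∃ y, pev h f y ≠ 0) →
      pev h f (fun e => (vl L Y Q x.1 (x.2.1, x.2.2, ν) (tinyN ν) e : ℝ)) ≠ 0 ∧
      ∀ i j l : Fin m, ((0, i, j), (1, j, l)) ∉ covp h f →
        pev h f (Function.update (fun e => (vl L Y Q x.1 (x.2.1, x.2.2, ν) (tinyN ν) e : ℝ))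
          (0, i, j) (vl L Y Q x.1 (x.2.1, x.2.2, ν) (tinyN ν) (1, j, l) : ℝ)) ≠ 0))
      (s := univ.filter fun ν => ¬ GoodQ h s L Y Q (badAll_eqN m k b Z M N (x, ν)).1
        (badAll_eqN m k b Z M N (x, ν)).2 (DenseQ.zero f hf : DenseQ n d))
      (by
        intro ν hν
        rw [mem_filter] at hν ⊢
        exact ⟨mem_univ _, hν.2⟩))) hh
    rw [hG, zero_mul] at h5
    have h6 := Nat.eq_zero_of_le_zero h5
    rcases Nat.mul_eq_zero.1 h6 with h7 | h7
    · exact h7
    · omega

open Classical in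
/-- One query is good with large probability. -/
theorem bad_one (h : 3 * m ≤ n) {s L Y Q X : ℕ} (q : DenseQ n d) (h1 : 192 * X ≤ 2 ^ s)
    (h2 : 192 * X * (3 * m ^ 2) ≤ Z) (h3 : 192 * X * s ≤ M)
    (h4 : 192 * X * ((1 + m ^ 3) * (3 * m ^ 2 * d)) ≤ N + 1) :
    48 * X * (univ.filter fun ω : (E m → Fin k → Fin b) × Lam m k b Z M N =>
      ¬ GoodQ h s L Y Q ω.1 ω.2 q).card ≤
      Fintype.card ((E m → Fin k → Fin b) × Lam m k b Z M N) := by
  have hq : 192 * X * (univ.filter fun ω : (E m → Fin k → Fin b) × Lam m k b Z M N =>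
      ¬ GoodQ h s L Y Q ω.1 ω.2 q).card ≤
      3 * Fintype.card ((E m → Fin k → Fin b) × Lam m k b Z M N) := by
    cases q with
    | sign c a => exact badAll_sign h h1 h2 h3 c a
    | zero f hf =>
      have := badAll_zero (k := k) (b := b) (Z := Z) (M := M) (s := s) (L := L) (Y := Y) (Q := Q)
        h h4 f hf
      refine this.trans ?_
      omega
  have e1 : 192 * X * (univ.filter fun ω : (E m → Fin k → Fin b) × Lam m k b Z M N =>
      ¬ GoodQ h s L Y Q ω.1 ω.2 q).card = 4 * (48 * X * (univ.filter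
        fun ω : (E m → Fin k → Fin b) × Lam m k b Z M N => ¬ GoodQ h s L Y Q ω.1 ω.2 q).card) := by
    ring
  omega

/-- Union over the times `t < D` and the states `v`, from `count_z`, `count_u`, `count_top`,
`count_zero` (sum over the other random choices with `Fintype.sum_prod_type`). -/
theorem badAll_card (A : Alg n D W R (DenseQ n d) SignType) (h : 3 * m ≤ n) {s L Y Q : ℕ}
    (h1 : 192 * (D * W) ≤ 2 ^ s) (h2 : 192 * (D * W) * (3 * m ^ 2) ≤ Z)
    (h3 : 192 * (D * W) * s ≤ M)
    (h4 : 192 * (D * W) * ((1 + m ^ 3) * (3 * m ^ 2 * d)) ≤ N + 1) (ρ : Fin R → Bool) :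
    48 * (BadAll (k := k) (b := b) (Z := Z) (M := M) (N := N) A h s L Y Q ρ).card ≤
      Fintype.card ((E m → Fin k → Fin b) × Lam m k b Z M N) := by
  classical
  set T := Fintype.card ((E m → Fin k → Fin b) × Lam m k b Z M N) with hT
  set Bq : DenseQ n d → Finset ((E m → Fin k → Fin b) × Lam m k b Z M N) := fun q =>
    univ.filter fun ω => ¬ GoodQ h s L Y Q ω.1 ω.2 q with hBq
  have hq : ∀ q, 48 * (D * W) * (Bq q).card ≤ T := fun q => bad_one h q h1 h2 h3 h4
  have hsub : BadAll (k := k) (b := b) (Z := Z) (M := M) (N := N) A h s L Y Q ρ ⊆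
      (range D ×ˢ (univ : Finset (Fin W))).biUnion fun tv =>
        Bq (A.ask (flagOf h) ρ tv.1 tv.2) := by
    intro ω hω
    unfold BadAll at hω
    rw [mem_filter] at hω
    obtain ⟨-, t, ht, v, hv⟩ := hω
    rw [mem_biUnion]
    exact ⟨(t, v), mem_product.2 ⟨mem_range.2 ht, mem_univ _⟩, mem_filter.2 ⟨mem_univ _, hv⟩⟩
  have hc := (card_le_card hsub).trans card_biUnion_le
  rcases Nat.eq_zero_or_pos (D * W) with h0 | h0
  · have hr : (range D ×ˢ (univ : Finset (Fin W))) = ∅ := by
      rw [← card_eq_zero, card_product, card_range, card_univ, Fintype.card_fin]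
      exact h0
    rw [hr, sum_empty] at hc
    have : (BadAll (k := k) (b := b) (Z := Z) (M := M) (N := N) A h s L Y Q ρ).card = 0 := by
      omega
    rw [this, mul_zero]
    exact Nat.zero_le _
  · have h5 : 48 * (D * W) * ∑ tv ∈ range D ×ˢ (univ : Finset (Fin W)),
        (Bq (A.ask (flagOf h) ρ tv.1 tv.2)).card ≤ D * W * T := by
      rw [mul_sum]
      refine (sum_le_sum fun tv _ => hq _).trans ?_
      rw [sum_const, card_product, card_range, card_univ, Fintype.card_fin, smul_eq_mul]
    have h6 : 48 * (D * W) *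
        (BadAll (k := k) (b := b) (Z := Z) (M := M) (N := N) A h s L Y Q ρ).card ≤
        D * W * T := (Nat.mul_le_mul_left _ hc).trans h5
    have h7 : D * W *
        (48 * (BadAll (k := k) (b := b) (Z := Z) (M := M) (N := N) A h s L Y Q ρ).card) ≤
        D * W * T := by
      calc _ = 48 * (D * W) *
          (BadAll (k := k) (b := b) (Z := Z) (M := M) (N := N) A h s L Y Q ρ).card := by ring
        _ ≤ _ := h6
    exact Nat.le_of_mul_le_mul_left h7 h0

end Pool.Agent.Helper21.DS
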