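import Pool.Agent.Helper21.DS.Sign

/-!
# The instances
-/

set_option autoImplicit false

namespace Pool.Agent.Helper21.DS

open Finset
open Pool.Agent.Helper22.ETModel Pool.Agent.Helper22.TSModel Pool.Agent.Helper22.EP
open Pool.Agent.Helper23.SP (pre sg)
open Pool.Agent.Helper8.ZT

variable {m n k b Z M N : ℕ} [NeZero b]

private theorem instB_even {L Y Q : ℕ} (hL : Even L) (hQ : Even Q)
    (dg : E m → Fin k → Fin b) (lam : Lam m k b Z M N) (tiny : E m → ℤ) (e : E m) :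
    ∃ z : ℤ, vl L Y Q dg lam tiny e = 2 * z + tiny e := by
  obtain ⟨l, hl⟩ := hL
  obtain ⟨q, hq⟩ := hQ
  unfold vl
  split_ifs
  · refine ⟨q * (((lam.1 e).2 : ℕ) : ℤ), ?_⟩
    rw [hq]
    push_cast
    ring
  · refine ⟨l * strc Y lam.2.1 (dg e), ?_⟩
    rw [hl]
    push_cast
    ring

/-- Parity: `L`, `Q` are even, `tinyN` is odd exactly for the elements of type `0`. -/
theorem base_no (h : 3 * m ≤ n) {L Y Q : ℕ} (hL : Even L) (hQ : Even Q)
    (dg : E m → Fin k → Fin b) (lam : Lam m k b Z M N) :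
    ¬ (instOf h (wg L Y Q dg lam (tinyN lam.2.2))).Yes := by
  rw [instOf_yes]
  rintro ⟨T, hT⟩
  rw [Fin.sum_univ_three] at hT
  obtain ⟨z0, h0⟩ := instB_even (Y := Y) hL hQ dg lam (tinyN lam.2.2) (tk T 0)
  obtain ⟨z1, h1⟩ := instB_even (Y := Y) hL hQ dg lam (tinyN lam.2.2) (tk T 1)
  have s0 : sg (tk T 0) = 1 := rfl
  have s1 : sg (tk T 1) = -1 := rfl
  have s2 : sg (tk T 2) = 0 := rfl
  have t0 : tinyN lam.2.2 (tk T 0) = 2 * ((lam.2.2 (tk T 0) : ℕ) : ℤ) + 1 := rfl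
  have t1 : tinyN lam.2.2 (tk T 1) = 2 * ((lam.2.2 (tk T 1) : ℕ) : ℤ) + 0 := rfl
  unfold wg at hT
  rw [s0, s1, s2, h0, h1, t0, t1] at hT
  omega

theorem plant_yes (h : 3 * m ≤ n) (L Y Q : ℕ) (dg : E m → Fin k → Fin b)
    (lam : Lam m k b Z M N) (i j l : Fin m) (h0 : (lam.1 (0, i, j)).1 = false)
    (h1 : (lam.1 (1, j, l)).1 = false) (hd : dg (1, j, l) = dg (0, i, j)) :
    (instOf h (wg L Y Q dg lam (tinyQ lam.2.2 (0, i, j) (1, j, l)))).Yes := by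
  rw [instOf_yes]
  refine ⟨![i, j, l], ?_⟩
  rw [Fin.sum_univ_three]
  have e0 : tk ![i, j, l] 0 = ((0, i, j) : E m) := rfl
  have e1 : tk ![i, j, l] 1 = ((1, j, l) : E m) := rfl
  have e2 : tk ![i, j, l] 2 = ((2, l, i) : E m) := rfl
  rw [e0, e1, e2]
  have hne : ((1, j, l) : E m) ≠ (0, i, j) := by
    intro h1
    have := congrArg Prod.fst h1
    simp at this
  have t0 : tinyQ lam.2.2 ((0, i, j) : E m) (1, j, l) (0, i, j) =
      2 * ((lam.2.2 (1, j, l) : ℕ) : ℤ) := by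
    simp [tinyQ]
  have t1 : tinyQ lam.2.2 ((0, i, j) : E m) (1, j, l) (1, j, l) =
      2 * ((lam.2.2 (1, j, l) : ℕ) : ℤ) := by
    unfold tinyQ
    rw [if_neg hne]
    simp [tinyN]
  have s0 : sg ((0, i, j) : E m) = 1 := rfl
  have s1 : sg ((1, j, l) : E m) = -1 := rfl
  have s2 : sg ((2, l, i) : E m) = 0 := rfl
  unfold wg vl
  rw [s0, s1, s2, t0, t1, h0, h1, hd]
  simp only [Bool.false_eq_true, if_false]
  ring

end Pool.Agent.Helper21.DS
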