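import Pool.Agent.Helper21.DS.Sign
import Pool.Agent.Helper61.SP.Mate

/-!
# The instances
-/

set_option autoImplicit false

namespace Pool.Agent.Helper21.DS

open Finset
open Pool.Agent.Helper22.ETModel Pool.Agent.Helper22.TSModel Pool.Agent.Helper22.EP
open Pool.Agent.Helper23.SP (pre sg)
open Pool.Agent.Helper8.ZT

variable {m n k b Z M N : ℕ} [NeZero b]

/-- Pair the digits with the marks. -/
private def mateProbEquiv (m k b Z M N : ℕ) :
    ((E m → Fin k → Fin b) × Lam m k b Z M N) ≃
      ((E m → (Fin k → Fin b) × Bool) ×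
        ((E m → Fin Z) × (Fin k → (Fin k → Fin b) → Fin M) × (E m → Fin (N + 1)))) where
  toFun ω := (fun x => (ω.1 x, (ω.2.1 x).1), (fun x => (ω.2.1 x).2, ω.2.2.1, ω.2.2.2))
  invFun p := (fun x => (p.1 x).1, (fun x => ((p.1 x).2, p.2.1 x), p.2.2.1, p.2.2.2))
  left_inv _ := rfl
  right_inv _ := rfl

/-- Change all the marks. -/
private def mateProbFlip (m k b Z M N : ℕ) :
    ((E m → Fin k → Fin b) × Lam m k b Z M N) ≃ ((E m → Fin k → Fin b) × Lam m k b Z M N) where
  toFun ω := (ω.1, (fun x => (!(ω.2.1 x).1, (ω.2.1 x).2), ω.2.2.1, ω.2.2.2))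
  invFun ω := (ω.1, (fun x => (!(ω.2.1 x).1, (ω.2.1 x).2), ω.2.2.1, ω.2.2.2))
  left_inv ω := by simp
  right_inv ω := by simp

open Classical in
/-- The element and a mate of it carry the mark `c`. -/
private def mateProbSet (i j : Fin m) (c : Bool) :
    Finset ((E m → Fin k → Fin b) × Lam m k b Z M N) :=
  univ.filter fun ω => (ω.2.1 (0, i, j)).1 = c ∧ ∃ l : Fin m, (ω.2.1 (1, j, l)).1 = c ∧
    ω.1 (1, j, l) = ω.1 (0, i, j)

omit [NeZero b] in
open Classical in
private lemma mateProb_flip (i j : Fin m) :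
    (mateProbSet (k := k) (b := b) (Z := Z) (M := M) (N := N) i j true).card =
      (mateProbSet (k := k) (b := b) (Z := Z) (M := M) (N := N) i j false).card := by
  refine Finset.card_equiv (mateProbFlip m k b Z M N) fun ω => ?_
  simp [mateProbSet, mateProbFlip]

open Classical in
private lemma mateProb_bad (hb : 2 * b ^ k ≤ m) (i j : Fin m) :
    2 * (univ.filter fun ω : (E m → Fin k → Fin b) × Lam m k b Z M N =>
      ∀ l : Fin m, ¬ ((ω.2.1 (1, j, l)).1 = (ω.2.1 (0, i, j)).1 ∧
        ω.1 (1, j, l) = ω.1 (0, i, j))).card ≤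
      Fintype.card ((E m → Fin k → Fin b) × Lam m k b Z M N) := by
  have h1 : (univ.filter fun ω : (E m → Fin k → Fin b) × Lam m k b Z M N =>
      ∀ l : Fin m, ¬ ((ω.2.1 (1, j, l)).1 = (ω.2.1 (0, i, j)).1 ∧
        ω.1 (1, j, l) = ω.1 (0, i, j))).card =
      ((univ.filter fun f : E m → (Fin k → Fin b) × Bool =>
        ∀ l : Fin m, f (1, j, l) ≠ f (0, i, j)) ×ˢ
        (univ : Finset ((E m → Fin Z) × (Fin k → (Fin k → Fin b) → Fin M) ×
          (E m → Fin (N + 1))))).card := by
    refine Finset.card_equiv (mateProbEquiv m k b Z M N) fun ω => ?_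
    simp only [mem_filter, mem_univ, true_and, mem_product, and_true, mateProbEquiv,
      Equiv.coe_fn_mk, ne_eq, Prod.mk.injEq, not_and]
    constructor
    · intro h l h1 h2
      exact h l h2 h1
    · intro h l h1 h2
      exact h l h2 h1
  have hc : Fintype.card ((Fin k → Fin b) × Bool) = b ^ k * 2 := by
    rw [Fintype.card_prod, Fintype.card_fun, Fintype.card_fin, Fintype.card_fin,
      Fintype.card_bool]
  have hbp : 0 < b ^ k := Nat.pow_pos (Nat.pos_of_ne_zero (NeZero.ne b))
  have h2 := Pool.Agent.Helper61.SP.count (El := E m) (X := (Fin k → Fin b) × Bool)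
    ((0, i, j) : E m) (fun l : Fin m => ((1, j, l) : E m)) (by
      intro l l' h
      simpa using h) (by
      intro l h
      have := congrArg Prod.fst h
      revert this
      simp) (by rw [hc]; omega) (by rw [hc]; omega)
  rw [h1, card_product, card_univ, Fintype.card_congr (mateProbEquiv m k b Z M N),
    Fintype.card_prod (E m → (Fin k → Fin b) × Bool), ← mul_assoc]
  refine Nat.mul_le_mul_right _ (le_trans (le_of_eq ?_) h2)
  congr 2

open Classical in
/-- A random element of type `0` is not deleted and has a mate that is not deleted, with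
probability at least `1 / 4`: `count` in Helper61/SP/Mate for the pairs (digits, mark)
gives the same mark with probability at least `1 / 2` (`2 b ^ k ≤ m`), and changing all marks is a
bijection. -/
theorem mate_prob (hb : 2 * b ^ k ≤ m) (i j : Fin m) :
    Fintype.card ((E m → Fin k → Fin b) × Lam m k b Z M N) ≤
      4 * (univ.filter fun ω : (E m → Fin k → Fin b) × Lam m k b Z M N =>
        (ω.2.1 (0, i, j)).1 = false ∧ ∃ l : Fin m, (ω.2.1 (1, j, l)).1 = false ∧
          ω.1 (1, j, l) = ω.1 (0, i, j)).card := by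
  have hsub : (univ : Finset ((E m → Fin k → Fin b) × Lam m k b Z M N)) ⊆
      (univ.filter fun ω : (E m → Fin k → Fin b) × Lam m k b Z M N =>
        ∀ l : Fin m, ¬ ((ω.2.1 (1, j, l)).1 = (ω.2.1 (0, i, j)).1 ∧
          ω.1 (1, j, l) = ω.1 (0, i, j))) ∪ (mateProbSet i j true ∪ mateProbSet i j false) := by
    intro ω _
    by_cases h : ∀ l : Fin m, ¬ ((ω.2.1 (1, j, l)).1 = (ω.2.1 (0, i, j)).1 ∧
        ω.1 (1, j, l) = ω.1 (0, i, j))
    · exact mem_union_left _ (mem_filter.2 ⟨mem_univ _, h⟩)
    · rw [not_forall] at h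
      obtain ⟨l, hl⟩ := h
      rw [not_not] at hl
      refine mem_union_right _ ?_
      rcases Bool.eq_false_or_eq_true (ω.2.1 (0, i, j)).1 with ht | hf
      · exact mem_union_left _ (mem_filter.2 ⟨mem_univ _, ht, l, hl.1.trans ht, hl.2⟩)
      · exact mem_union_right _ (mem_filter.2 ⟨mem_univ _, hf, l, hl.1.trans hf, hl.2⟩)
  have h1 := (card_le_card hsub).trans ((card_union_le _ _).trans
    (Nat.add_le_add_left (card_union_le _ _) _))
  rw [card_univ] at h1
  have h2 := mateProb_bad (Z := Z) (M := M) (N := N) hb i j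
  have h3 := mateProb_flip (k := k) (b := b) (Z := Z) (M := M) (N := N) i j
  rw [h3] at h1
  have h4 : (mateProbSet (k := k) (b := b) (Z := Z) (M := M) (N := N) i j false).card =
      (univ.filter fun ω : (E m → Fin k → Fin b) × Lam m k b Z M N =>
        (ω.2.1 (0, i, j)).1 = false ∧ ∃ l : Fin m, (ω.2.1 (1, j, l)).1 = false ∧
          ω.1 (1, j, l) = ω.1 (0, i, j)).card := rfl
  rw [← h4]
  omega

end Pool.Agent.Helper21.DS
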