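import Pool.Agent.Helper21.DS.Run
import Pool.Agent.Helper21.DS.Bad
import Pool.Agent.Helper21.DS.InstB
import Pool.Agent.Helper21.DS.InstC

/-!
# The average number of revealed elements
-/

set_option autoImplicit false

namespace Pool.Agent.Helper21.DS

open Finset
open Pool.Agent.Helper22.ETModel Pool.Agent.Helper22.TSModel Pool.Agent.Helper22.EP
open Pool.Agent.Helper23.SP (pre sg)
open Pool.Agent.Helper8.ZT

variable {m n k b Z M N d D W R : ℕ} [NeZero b]

open Classical in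
/-- Averaging with a bad set and matching probability `1 / 4`. -/
theorem averaging {Ω R X : Type} [Fintype Ω] [Fintype R] [Fintype X]
    (ob : Ω → R → Bool) (op : X → Ω → R → Bool) (Mt : X → Ω → Prop) (Rv : Ω → R → Finset X)
    (Bd : R → Finset Ω)
    (h1 : ∀ ω, 2 * Fintype.card R ≤ 3 * (univ.filter (fun ρ => ob ω ρ = false)).card)
    (h2 : ∀ x ω, Mt x ω → 2 * Fintype.card R ≤ 3 * (univ.filter (fun ρ => op x ω ρ = true)).card)
    (h3 : ∀ x, Fintype.card Ω ≤ 4 * (univ.filter (fun ω => Mt x ω)).card)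
    (h4 : ∀ x ω ρ, Mt x ω → ω ∉ Bd ρ → ob ω ρ ≠ op x ω ρ → x ∈ Rv ω ρ)
    (h5 : ∀ ρ, 48 * (Bd ρ).card ≤ Fintype.card Ω) :
    Fintype.card X * Fintype.card R * Fintype.card Ω ≤ 16 * ∑ ω, ∑ ρ, (Rv ω ρ).card := by
  -- one element and one basic choice
  have key : ∀ x ω, Mt x ω →
      Fintype.card R ≤ 3 * ((univ.filter (fun ρ => x ∈ Rv ω ρ)).card +
        (univ.filter (fun ρ => ω ∈ Bd ρ)).card) := by
    intro x ω hM
    have a1 := h1 ω
    have a2 := h2 x ω hM
    have a3 := card_union_add_card_inter (univ.filter (fun ρ => ob ω ρ = false))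
      (univ.filter (fun ρ => op x ω ρ = true))
    have a4 : ((univ.filter (fun ρ => ob ω ρ = false)) ∪
        (univ.filter (fun ρ => op x ω ρ = true))).card ≤ Fintype.card R := card_le_univ _
    have a5 : ((univ.filter (fun ρ => ob ω ρ = false)) ∩
        (univ.filter (fun ρ => op x ω ρ = true))).card ≤
        (univ.filter (fun ρ => x ∈ Rv ω ρ)).card + (univ.filter (fun ρ => ω ∈ Bd ρ)).card := by
      refine le_trans (card_le_card ?_) (card_union_le _ _)
      intro ρ hρ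
      rw [mem_inter, mem_filter, mem_filter] at hρ
      rw [mem_union, mem_filter, mem_filter]
      by_cases hB : ω ∈ Bd ρ
      · exact Or.inr ⟨mem_univ _, hB⟩
      · refine Or.inl ⟨mem_univ _, h4 x ω ρ hM hB ?_⟩
        rw [hρ.1.2, hρ.2.2]
        decide
    omega
  -- the bad pairs
  have hbad : 48 * ∑ ω, (univ.filter (fun ρ => ω ∈ Bd ρ)).card ≤
      Fintype.card R * Fintype.card Ω := by
    have e1 : ∑ ω, (univ.filter (fun ρ => ω ∈ Bd ρ)).card = ∑ ρ, (Bd ρ).card := by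
      have : ∀ ω, (univ.filter (fun ρ => ω ∈ Bd ρ)).card =
          ∑ ρ, if ω ∈ Bd ρ then 1 else 0 := fun ω => by rw [card_filter]
      simp_rw [this]
      rw [sum_comm]
      refine sum_congr rfl fun ρ _ => ?_
      rw [← card_filter, filter_mem_eq_inter, univ_inter]
    rw [e1, mul_sum]
    calc ∑ ρ, 48 * (Bd ρ).card ≤ ∑ _ρ : R, Fintype.card Ω := sum_le_sum fun ρ _ => h5 ρ
      _ = Fintype.card R * Fintype.card Ω := by rw [sum_const, smul_eq_mul, card_univ]
  -- one element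
  have key2 : ∀ x, Fintype.card R * Fintype.card Ω ≤
      16 * ∑ ω, (univ.filter (fun ρ => x ∈ Rv ω ρ)).card := by
    intro x
    have b3 : (univ.filter (fun ω => Mt x ω)).card * Fintype.card R ≤
        3 * ∑ ω, (univ.filter (fun ρ => x ∈ Rv ω ρ)).card +
          3 * ∑ ω, (univ.filter (fun ρ => ω ∈ Bd ρ)).card := by
      calc (univ.filter (fun ω => Mt x ω)).card * Fintype.card R
          = ∑ _ω ∈ univ.filter (fun ω => Mt x ω), Fintype.card R := by
            rw [sum_const, smul_eq_mul]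
        _ ≤ ∑ ω ∈ univ.filter (fun ω => Mt x ω),
            3 * ((univ.filter (fun ρ => x ∈ Rv ω ρ)).card +
              (univ.filter (fun ρ => ω ∈ Bd ρ)).card) := by
            refine sum_le_sum fun ω hω => key x ω (mem_filter.1 hω).2
        _ ≤ ∑ ω, 3 * ((univ.filter (fun ρ => x ∈ Rv ω ρ)).card +
              (univ.filter (fun ρ => ω ∈ Bd ρ)).card) :=
            sum_le_sum_of_subset (filter_subset _ _)
        _ = _ := by rw [← mul_sum, sum_add_distrib, mul_add]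
    have b4 : Fintype.card R * Fintype.card Ω ≤
        4 * ((univ.filter (fun ω => Mt x ω)).card * Fintype.card R) := by
      calc Fintype.card R * Fintype.card Ω
          ≤ Fintype.card R * (4 * (univ.filter (fun ω => Mt x ω)).card) :=
            Nat.mul_le_mul_left _ (h3 x)
        _ = _ := by ring
    omega
  -- double counting
  have key3 : ∑ x, ∑ ω, (univ.filter (fun ρ => x ∈ Rv ω ρ)).card =
      ∑ ω, ∑ ρ, (Rv ω ρ).card := by
    rw [sum_comm]
    refine sum_congr rfl fun ω _ => ?_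
    have : ∀ x, (univ.filter (fun ρ => x ∈ Rv ω ρ)).card =
        ∑ ρ, if x ∈ Rv ω ρ then 1 else 0 := fun x => by rw [card_filter]
    simp_rw [this]
    rw [sum_comm]
    refine sum_congr rfl fun ρ _ => ?_
    rw [← card_filter, filter_mem_eq_inter, univ_inter]
  calc Fintype.card X * Fintype.card R * Fintype.card Ω
      = ∑ _x : X, Fintype.card R * Fintype.card Ω := by
        rw [sum_const, smul_eq_mul, card_univ, mul_assoc]
    _ ≤ ∑ x, 16 * ∑ ω, (univ.filter (fun ρ => x ∈ Rv ω ρ)).card := sum_le_sum fun x _ => key2 x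
    _ = 16 * ∑ ω, ∑ ρ, (Rv ω ρ).card := by rw [← mul_sum, key3]

open Classical in
/-- The revealed elements of type `0`. -/
noncomputable def rvD (A : Alg n D W R (DenseQ n d) SignType) (h : 3 * m ≤ n) (s L Y Q : ℕ)
    (ω : (E m → Fin k → Fin b) × Lam m k b Z M N) (ρ : Fin R → Bool) : Finset (Fin m × Fin m) :=
  univ.filter (fun p => ((0, p.1, p.2) : E m) ∈
    (procD A h s L Y Q ω.2 ρ).rev ω.1 0 (A.init (flagOf h) ρ) D k)

lemma rvD_card_le (A : Alg n D W R (DenseQ n d) SignType) (h : 3 * m ≤ n) (s L Y Q : ℕ)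
    (ω : (E m → Fin k → Fin b) × Lam m k b Z M N) (ρ : Fin R → Bool) :
    (rvD A h s L Y Q ω ρ).card ≤
      ((procD A h s L Y Q ω.2 ρ).rev ω.1 0 (A.init (flagOf h) ρ) D k).card := by
  classical
  apply card_le_card_of_injOn (fun p => ((0, p.1, p.2) : E m))
  · intro p hp
    rw [mem_coe, rvD, mem_filter] at hp
    exact hp.2
  · intro p _ p' _ hpp
    simp only [Prod.mk.injEq, true_and] at hpp
    exact Prod.ext hpp.1 hpp.2

lemma rvD_card_le' (A : Alg n D W R (DenseQ n d) SignType) (h : 3 * m ≤ n) (s L Y Q : ℕ)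
    (ω : (E m → Fin k → Fin b) × Lam m k b Z M N) (ρ : Fin R → Bool) :
    (rvD A h s L Y Q ω ρ).card ≤ m ^ 2 := by
  classical
  refine (card_le_univ _).trans ?_
  rw [Fintype.card_prod, Fintype.card_fin, sq]

/-- The element `(0, i, j)` has a mate and both are not deleted. -/
private def trMt (m k b Z M N : ℕ) (p : Fin m × Fin m)
    (ω : (E m → Fin k → Fin b) × Lam m k b Z M N) : Prop :=
  (ω.2.1 (0, p.1, p.2)).1 = false ∧ ∃ l : Fin m, (ω.2.1 (1, p.2, l)).1 = false ∧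
    ω.1 (1, p.2, l) = ω.1 (0, p.1, p.2)

open Classical in
/-- A mate. -/
private noncomputable def trL (p : Fin m × Fin m)
    (ω : (E m → Fin k → Fin b) × Lam m k b Z M N) : Fin m :=
  if hM : trMt m k b Z M N p ω then Classical.choose hM.2 else p.1

omit [NeZero b] in
private theorem trL_spec {p : Fin m × Fin m}
    {ω : (E m → Fin k → Fin b) × Lam m k b Z M N} (hM : trMt m k b Z M N p ω) :
    (ω.2.1 (1, p.2, trL p ω)).1 = false ∧ ω.1 (1, p.2, trL p ω) = ω.1 (0, p.1, p.2) := by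
  unfold trL
  rw [dif_pos hM]
  exact Classical.choose_spec hM.2

theorem transferD (h : 3 * m ≤ n) (hm : 1 ≤ m) {s L Y Q : ℕ} (hs : 1 ≤ s) (hd : 2 * d ≤ s)
    (hb : 2 * b ^ k ≤ m) (hL : 16 * s * (N + 1) ≤ L) (hY : 16 * s * M ≤ Y)
    (hQ : 24 * m ^ 2 * (L * Y ^ k) ≤ Q) (hLe : Even L) (hQe : Even Q) (hQZ : Q * Z ≤ n ^ 300)
    (hZ : 1 ≤ Z) (h1 : 192 * (D * W) ≤ 2 ^ s) (h2 : 192 * (D * W) * (3 * m ^ 2) ≤ Z)
    (h3 : 192 * (D * W) * s ≤ M)
    (h4 : 192 * (D * W) * ((1 + m ^ 3) * (3 * m ^ 2 * d)) ≤ N + 1)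
    (A : Alg n D W R (DenseQ n d) SignType) (hA : A.Decides (denseFam n d)) :
    m ^ 2 * 2 ^ R * Fintype.card ((E m → Fin k → Fin b) × Lam m k b Z M N) ≤
      16 * ∑ ω : (E m → Fin k → Fin b) × Lam m k b Z M N, ∑ ρ : Fin R → Bool,
        (rvD A h s L Y Q ω ρ).card := by
  classical
  have key := averaging (Ω := (E m → Fin k → Fin b) × Lam m k b Z M N) (R := Fin R → Bool)
    (X := Fin m × Fin m)
    (fun ω ρ => A.output (denseFam n d) (instOf h (wg L Y Q ω.1 ω.2 (tinyN ω.2.2.2))) ρ)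
    (fun p ω ρ => A.output (denseFam n d)
      (instOf h (wg L Y Q ω.1 ω.2 (tinyQ ω.2.2.2 (0, p.1, p.2) (1, p.2, trL p ω)))) ρ)
    (fun p ω => trMt m k b Z M N p ω)
    (fun ω ρ => rvD A h s L Y Q ω ρ) (fun ρ => BadAll A h s L Y Q ρ) ?_ ?_ ?_ ?_ ?_
  · rw [Fintype.card_prod (Fin m) (Fin m), Fintype.card_fin, Fintype.card_fun, Fintype.card_bool,
      Fintype.card_fin, ← sq] at key
    exact key
  · intro ω
    have g1 := hA (instOf h (wg L Y Q ω.1 ω.2 (tinyN ω.2.2.2)))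
      (inst_valid hs hL hY hQ hQZ hZ hm h ω.1 ω.2 _ (run0_tinyN ω.2.2.2))
    rw [Fintype.card_fun, Fintype.card_bool, Fintype.card_fin]
    refine g1.trans (Nat.mul_le_mul_left _ (card_le_card ?_))
    intro ρ hρ
    rw [mem_filter] at hρ ⊢
    refine ⟨mem_univ _, ?_⟩
    have g2 := base_no h hLe hQe ω.1 ω.2 (Y := Y)
    have g3 : ¬ (A.output (denseFam n d)
        (instOf h (wg L Y Q ω.1 ω.2 (tinyN ω.2.2.2))) ρ = true) :=
      fun hh => g2 (hρ.2.1 hh)
    simpa using g3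
  · rintro p ω hM
    have g1 := hA (instOf h (wg L Y Q ω.1 ω.2
      (tinyQ ω.2.2.2 (0, p.1, p.2) (1, p.2, trL p ω))))
      (inst_valid hs hL hY hQ hQZ hZ hm h ω.1 ω.2 _ (run0_tinyQ ω.2.2.2 _ _))
    rw [Fintype.card_fun, Fintype.card_bool, Fintype.card_fin]
    refine g1.trans (Nat.mul_le_mul_left _ (card_le_card ?_))
    intro ρ hρ
    rw [mem_filter] at hρ ⊢
    obtain ⟨g4, g5⟩ := trL_spec hM
    exact ⟨mem_univ _, hρ.2.2 (plant_yes h L Y Q ω.1 ω.2 p.1 p.2 (trL p ω) hM.1 g4 g5)⟩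
  · rintro ⟨i, j⟩
    convert mate_prob (Z := Z) (M := M) (N := N) hb i j
    rfl
  · rintro ⟨i, j⟩ ω ρ hM hB hne
    obtain ⟨g4, g5⟩ := trL_spec hM
    exact mem_filter.2 ⟨mem_univ _, output_plant hs hL hY hQ h A ρ ω hB i j (trL (i, j) ω)
      hM.1 g4 g5 hne⟩
  · intro ρ
    exact badAll_card A h h1 h2 h3 h4 ρ

end Pool.Agent.Helper21.DS
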