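import Pool.Agent.Helper21.DS.Final

/-!
# The asymptotic form
-/

set_option autoImplicit false

namespace Pool.Agent.Helper21.DS

open Finset
open Pool.Agent.Helper22.ETModel Pool.Agent.Helper22.TSModel Pool.Agent.Helper22.EP

private lemma asym_logb_le {x δ : ℝ} (hx : 0 < x) (hδ : 0 < δ) :
    Real.logb 2 x ≤ 2 / δ * x ^ δ := by
  have h1 : Real.log x ≤ x ^ δ / δ := Real.log_le_rpow_div hx.le hδ
  have h2 : (1 : ℝ) / 2 ≤ Real.log 2 := by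
    have := Real.log_two_gt_d9; linarith
  unfold Real.logb
  rw [div_le_iff₀ (by linarith)]
  calc Real.log x ≤ x ^ δ / δ := h1
    _ = 2 / δ * x ^ δ * (1 / 2) := by ring
    _ ≤ 2 / δ * x ^ δ * Real.log 2 := mul_le_mul_of_nonneg_left h2 (by positivity)

private lemma asym_ev (K δ : ℝ) (hδ : 0 < δ) :
    ∀ᶠ n : ℕ in Filter.atTop, K ≤ (n : ℝ) ^ δ :=
  ((tendsto_rpow_atTop hδ).comp tendsto_natCast_atTop_atTop).eventually_ge_atTop K

/-- Take `k = ⌊1 / ε⌋ + 1`, so `1 / k < ε` and `(w + 3) (k + 2) ≤ 286`; `s` the least integer with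
`2 d ≤ s` and `2 ^ 9 n ^ 4 W ≤ 2 ^ s`, so `s ≤ 2 n ^ δ + 9 + (w + 5) log n ≤ n ^ (2 δ)` for large
`n`; `2 k δ + small < ε - 1 / k` and `2 k δ < 1`. -/
theorem asymptotic (w ε : ℝ) (hw : 0 ≤ w) (hε : 0 < ε) (h : (w + 3) * (1 / ε + 3) ≤ 286) :
    ∃ δ : ℝ, 0 < δ ∧ ∃ n₀ : ℕ, ∀ n : ℕ, n₀ ≤ n → ∀ d D W R : ℕ, (d : ℝ) ≤ (n : ℝ) ^ δ →
      (W : ℝ) ≤ (n : ℝ) ^ w → ∀ A : Alg n D W R (DenseQ n d) SignType,
        A.Decides (denseFam n d) → (n : ℝ) ^ (3 - ε) ≤ D := by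
  obtain ⟨k, hkdef⟩ : ∃ k : ℕ, k = ⌊1 / ε⌋₊ + 1 := ⟨_, rfl⟩
  have hk1 : 1 ≤ k := by omega
  have hk0 : (0 : ℝ) < k := by exact_mod_cast hk1
  have hkle : (k : ℝ) ≤ 1 / ε + 1 := by
    rw [hkdef]
    push_cast
    have := Nat.floor_le (a := 1 / ε) (by positivity)
    linarith
  have hkgt : 1 / ε < k := by
    rw [hkdef]
    push_cast
    exact Nat.lt_floor_add_one _
  have hg : 0 < ε - 1 / k := by
    have h1 : 1 / (k : ℝ) < ε := by
      rw [div_lt_iff₀ hk0]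
      rw [div_lt_iff₀ hε] at hkgt
      linarith
    linarith
  have hwk : (w + 3) * (k + 2) ≤ 286 :=
    le_trans (mul_le_mul_of_nonneg_left (by linarith) (by linarith)) h
  set g : ℝ := ε - 1 / k with hgdef
  -- the choice of `δ`
  obtain ⟨δ, hδ0, hδ1, hδ2⟩ : ∃ δ : ℝ, 0 < δ ∧ 2 * δ * k ≤ g / 2 ∧ 2 * δ * k ≤ 1 / 2 := by
    refine ⟨min g 1 / (4 * k), by positivity, ?_, ?_⟩
    · have h1 : 2 * (min g 1 / (4 * k)) * k = min g 1 / 2 := by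
        field_simp; ring
      rw [h1]
      linarith [min_le_left g 1]
    · have h1 : 2 * (min g 1 / (4 * k)) * k = min g 1 / 2 := by
        field_simp; ring
      rw [h1]
      linarith [min_le_right g 1]
  refine ⟨δ, hδ0, ?_⟩
  have hev := ((asym_ev (12 + (4 + w) * (2 / δ)) δ hδ0).and
    ((asym_ev (2 ^ 10 * (2 ^ 7) ^ k) (g / 2) (by positivity)).and
      ((asym_ev (6 * 60 ^ k) (1 / 2) (by norm_num)).and
        (Filter.eventually_ge_atTop 3))))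
  obtain ⟨n₀, hn₀⟩ := Filter.eventually_atTop.1 hev
  refine ⟨n₀, fun n hn d D W R hd hW A hA => ?_⟩
  obtain ⟨he1, he2, he3, hn3⟩ := hn₀ n hn
  have hn1 : (1 : ℝ) ≤ n := by
    have : 1 ≤ n := by omega
    exact_mod_cast this
  have hn0 : (0 : ℝ) < n := by linarith
  -- the choice of `s`
  obtain ⟨e, hedef⟩ : ∃ e : ℕ, e = ⌈Real.logb 2 (2 ^ 9 * (n : ℝ) ^ (4 + w))⌉₊ := ⟨_, rfl⟩
  have hpos : (0 : ℝ) < 2 ^ 9 * (n : ℝ) ^ (4 + w) := by positivity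
  have hlog : Real.logb 2 (2 ^ 9 * (n : ℝ) ^ (4 + w)) = 9 + (4 + w) * Real.logb 2 n := by
    rw [Real.logb_mul (by positivity) (by positivity), Real.logb_rpow_eq_mul_logb_of_pos hn0,
      Real.logb_pow, Real.logb_self_eq_one (by norm_num)]
    push_cast
    ring
  have hlogn : 0 ≤ Real.logb 2 n := Real.logb_nonneg (by norm_num) hn1
  have hele : (e : ℝ) ≤ 10 + (4 + w) * Real.logb 2 n := by
    have h1 := Nat.ceil_lt_add_one (a := Real.logb 2 (2 ^ 9 * (n : ℝ) ^ (4 + w)))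
      (by rw [hlog]; positivity)
    rw [← hedef, hlog] at h1
    linarith
  have hege : 2 ^ 9 * (n : ℝ) ^ (4 + w) ≤ 2 ^ e := by
    have h1 := Nat.le_ceil (Real.logb 2 (2 ^ 9 * (n : ℝ) ^ (4 + w)))
    rw [← hedef, Real.logb_le_iff_le_rpow (by norm_num) hpos, Real.rpow_natCast] at h1
    exact h1
  obtain ⟨s, hsdef⟩ : ∃ s : ℕ, s = 2 * d + e := ⟨_, rfl⟩
  have hnδ1 : 1 ≤ (n : ℝ) ^ δ := Real.one_le_rpow hn1 hδ0.le
  have hsle : (s : ℝ) ≤ (n : ℝ) ^ (2 * δ) := by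
    have h1 : Real.logb 2 n ≤ 2 / δ * (n : ℝ) ^ δ := asym_logb_le hn0 hδ0
    have h2 : (4 + w) * Real.logb 2 n ≤ (4 + w) * (2 / δ * (n : ℝ) ^ δ) :=
      mul_le_mul_of_nonneg_left h1 (by linarith)
    have h3 : (s : ℝ) ≤ (12 + (4 + w) * (2 / δ)) * (n : ℝ) ^ δ := by
      rw [hsdef]
      push_cast
      linarith
    calc (s : ℝ) ≤ (12 + (4 + w) * (2 / δ)) * (n : ℝ) ^ δ := h3
      _ ≤ (n : ℝ) ^ δ * (n : ℝ) ^ δ := mul_le_mul_of_nonneg_right he1 (by positivity)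
      _ = (n : ℝ) ^ (2 * δ) := by rw [← Real.rpow_add hn0]; ring_nf
  have hspow : (s : ℝ) ^ k ≤ (n : ℝ) ^ (2 * δ * k) := by
    calc (s : ℝ) ^ k ≤ ((n : ℝ) ^ (2 * δ)) ^ k := pow_le_pow_left₀ (by positivity) hsle _
      _ = (n : ℝ) ^ (2 * δ * k) := by
        rw [← Real.rpow_natCast ((n : ℝ) ^ (2 * δ)), ← Real.rpow_mul hn0.le]
  have hs : 2 ^ 9 * n ^ 4 * W ≤ 2 ^ s := by
    have h1 : (2 : ℝ) ^ 9 * (n : ℝ) ^ 4 * W ≤ 2 ^ s := by
      calc (2 : ℝ) ^ 9 * (n : ℝ) ^ 4 * W ≤ 2 ^ 9 * (n : ℝ) ^ 4 * (n : ℝ) ^ w :=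
            mul_le_mul_of_nonneg_left hW (by positivity)
        _ = 2 ^ 9 * (n : ℝ) ^ (4 + w) := by
            rw [Real.rpow_add hn0, show (4 : ℝ) = ((4 : ℕ) : ℝ) by norm_num,
              Real.rpow_natCast, mul_assoc]
        _ ≤ 2 ^ e := hege
        _ ≤ 2 ^ s := pow_le_pow_right₀ (by norm_num) (by omega)
    exact_mod_cast h1
  have hsn : 6 * (60 * s) ^ k ≤ n := by
    have h1 : (6 : ℝ) * (60 * s) ^ k ≤ n := by
      calc (6 : ℝ) * (60 * s) ^ k = 6 * 60 ^ k * (s : ℝ) ^ k := by rw [mul_pow]; ring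
        _ ≤ (n : ℝ) ^ (1 / 2 : ℝ) * (n : ℝ) ^ (1 / 2 : ℝ) := by
            apply mul_le_mul he3 _ (by positivity) (by positivity)
            exact hspow.trans (Real.rpow_le_rpow_of_exponent_le hn1 hδ2)
        _ = n := by
            rw [← Real.rpow_add hn0]
            norm_num
    exact_mod_cast h1
  have hsz : (n ^ 3 * W) ^ (k + 2) ≤ n ^ 286 := by
    have h1 : ((n : ℝ) ^ 3 * W) ^ (k + 2) ≤ (n : ℝ) ^ 286 := by
      calc ((n : ℝ) ^ 3 * W) ^ (k + 2) ≤ ((n : ℝ) ^ 3 * (n : ℝ) ^ w) ^ (k + 2) := by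
            apply pow_le_pow_left₀ (by positivity)
            exact mul_le_mul_of_nonneg_left hW (by positivity)
        _ = (n : ℝ) ^ ((w + 3) * (k + 2)) := by
            rw [Real.rpow_mul hn0.le, show ((k : ℝ) + 2) = ((k + 2 : ℕ) : ℝ) by push_cast; ring,
              Real.rpow_natCast, Real.rpow_add hn0, show (3 : ℝ) = ((3 : ℕ) : ℝ) by norm_num,
              Real.rpow_natCast, mul_comm ((n : ℝ) ^ w)]
        _ ≤ (n : ℝ) ^ (286 : ℝ) := Real.rpow_le_rpow_of_exponent_le hn1 hwk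
        _ = (n : ℝ) ^ 286 := by
            rw [show (286 : ℝ) = ((286 : ℕ) : ℝ) by norm_num, Real.rpow_natCast]
    exact_mod_cast h1
  have hq := quantitative hn3 hk1 (by omega) hs hsn hsz A hA
  have hfac : (2 : ℝ) ^ 10 * (2 ^ 7 * s) ^ k ≤ (n : ℝ) ^ g := by
    calc (2 : ℝ) ^ 10 * (2 ^ 7 * s) ^ k = 2 ^ 10 * (2 ^ 7) ^ k * (s : ℝ) ^ k := by
          rw [mul_pow (2 ^ 7 : ℝ)]; ring
      _ ≤ (n : ℝ) ^ (g / 2) * (n : ℝ) ^ (g / 2) := by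
          apply mul_le_mul he2 _ (by positivity) (by positivity)
          exact hspow.trans (Real.rpow_le_rpow_of_exponent_le hn1 hδ1)
      _ = (n : ℝ) ^ g := by
          rw [← Real.rpow_add hn0]
          ring_nf
  have hfin : (n : ℝ) ^ g * (n : ℝ) ^ (3 - ε) ≤ (n : ℝ) ^ g * D := by
    calc (n : ℝ) ^ g * (n : ℝ) ^ (3 - ε) = (n : ℝ) ^ (3 - 1 / (k : ℝ)) := by
          rw [← Real.rpow_add hn0, hgdef]
          ring_nf
      _ ≤ 2 ^ 10 * (2 ^ 7 * s) ^ k * D := hq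
      _ ≤ (n : ℝ) ^ g * D := mul_le_mul_of_nonneg_right hfac (Nat.cast_nonneg _)
  exact le_of_mul_le_mul_left hfin (by positivity)

end Pool.Agent.Helper21.DS
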