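import Pool.Agent.Helper21.DS.Mt

/-!
# Anticoncentration: deleted elements
-/

set_option autoImplicit false

namespace Pool.Agent.Helper21.DS

open Finset
open Pool.Agent.Helper22.ETModel
open Pool.Agent.Helper23.SP (pre sg)
open Pool.Agent.Helper8.ZT

variable {m k b Z M N : ℕ} [NeZero b]

open Classical in
/-- Changing the value of one deleted element. -/
private lemma count_z_vid_sub (L Y Q : ℕ) (c : ℝ) (γ : E m → ℝ)
    (F : (E m → Bool) → Finset (E m)) (dg : E m → Fin k → Fin b)
    (uν : (Fin k → (Fin k → Fin b) → Fin M) × (E m → Fin (N + 1)))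
    (z : E m → Bool × Fin Z) (e : E m) (t1 t2 : Fin Z) :
    vid L Y Q c γ (F fun e' => (Function.update z e (true, t1) e').1) dg
        (Function.update z e (true, t1), uν) -
      vid L Y Q c γ (F fun e' => (Function.update z e (true, t2) e').1) dg
        (Function.update z e (true, t2), uν) =
      γ e * (Q * (((t1 : ℕ) : ℝ) - ((t2 : ℕ) : ℝ))) := by
  have hm : (fun e' => (Function.update z e (true, t1) e').1) =
      fun e' => (Function.update z e (true, t2) e').1 := by
    funext e'
    by_cases h : e' = e
    · subst h; simp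
    · simp [Function.update_of_ne h]
  rw [hm]
  unfold vid
  rw [add_sub_add_left_eq_sub, ← Finset.sum_sub_distrib, Finset.sum_eq_single e]
  · simp only [Function.update_self, if_true]
    ring
  · intro e' _ he'
    simp only [Function.update_of_ne he']
    unfold rp
    ring
  · intro h
    exact absurd (Finset.mem_univ e) h

open Classical in
/-- A deleted element rarely has a small ideal value: union over `e`; only the value `(z e).2`
changes (this does not change the marks, so neither `F` nor anything else in `vid`), and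
`vid = X + γ e Q (z e).2`, so at most one value of `(z e).2` is bad (`card_mul_le` of
`Pool.Agent.Helper8.ZT.Adapt` or a direct count). -/
theorem count_z (L Y Q : ℕ) (c : ℝ) (γ : E m → ℝ) (F : (E m → Bool) → Finset (E m))
    (dg : E m → Fin k → Fin b)
    (uν : (Fin k → (Fin k → Fin b) → Fin M) × (E m → Fin (N + 1))) :
    (univ.filter fun z : E m → Bool × Fin Z => ∃ e, (z e).1 = true ∧
      2 * |vid L Y Q c γ (F fun e => (z e).1) dg (z, uν)| < |γ e| * Q).card * Z ≤
      3 * m ^ 2 * Fintype.card (E m → Bool × Fin Z) := by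
  let B : E m → Finset (E m → Bool × Fin Z) := fun e => univ.filter fun z =>
    (z e).1 = true ∧ 2 * |vid L Y Q c γ (F fun e => (z e).1) dg (z, uν)| < |γ e| * Q
  have hB : ∀ e, (B e).card * Z ≤ Fintype.card (E m → Bool × Fin Z) := by
    intro e
    have h1 := card_mul_le (F := Bool × Fin Z) e (B e) 1 (by
      intro z S hS
      rw [Finset.card_le_one]
      rintro ⟨a1, t1⟩ h1 ⟨a2, t2⟩ h2
      have g1 := hS _ h1
      have g2 := hS _ h2
      simp only [B, mem_filter, mem_univ, true_and, Function.update_self] at g1 g2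
      obtain ⟨rfl, g1⟩ := g1
      obtain ⟨rfl, g2⟩ := g2
      have hd := count_z_vid_sub L Y Q c γ F dg uν z e t1 t2
      by_contra hne
      have ht : t1 ≠ t2 := fun h => hne (by rw [h])
      have hpos : 0 < |γ e| * Q := lt_of_le_of_lt (by positivity) g1
      have habs : (1 : ℝ) ≤ |((t1 : ℕ) : ℝ) - ((t2 : ℕ) : ℝ)| := by
        have h3 : ((t1 : ℕ) : ℤ) - ((t2 : ℕ) : ℤ) ≠ 0 := by
          intro h
          apply ht
          apply Fin.ext
          omega
        have h4 : (1 : ℤ) ≤ |((t1 : ℕ) : ℤ) - ((t2 : ℕ) : ℤ)| := Int.one_le_abs h3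
        have h5 : ((1 : ℤ) : ℝ) ≤ ((|((t1 : ℕ) : ℤ) - ((t2 : ℕ) : ℤ)| : ℤ) : ℝ) := by
          exact_mod_cast h4
        rw [Int.cast_abs] at h5
        push_cast at h5
        exact h5
      have hge : |γ e| * Q ≤ |γ e * (Q * (((t1 : ℕ) : ℝ) - ((t2 : ℕ) : ℝ)))| := by
        rw [abs_mul, abs_mul, Nat.abs_cast, ← mul_assoc]
        nlinarith
      rw [← hd] at hge
      have h6 := abs_sub (vid L Y Q c γ (F fun e' => (Function.update z e (true, t1) e').1) dg
        (Function.update z e (true, t1), uν))
        (vid L Y Q c γ (F fun e' => (Function.update z e (true, t2) e').1) dg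
        (Function.update z e (true, t2), uν))
      linarith)
    rw [Fintype.card_prod, Fintype.card_bool, Fintype.card_fin, one_mul] at h1
    calc (B e).card * Z ≤ (B e).card * (2 * Z) := by
          apply Nat.mul_le_mul_left; omega
      _ ≤ _ := h1
  have hsub : (univ.filter fun z : E m → Bool × Fin Z => ∃ e, (z e).1 = true ∧
      2 * |vid L Y Q c γ (F fun e => (z e).1) dg (z, uν)| < |γ e| * Q) ⊆
      univ.biUnion B := by
    intro z hz
    simp only [mem_filter, mem_univ, true_and] at hz
    obtain ⟨e, he⟩ := hz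
    simp only [B, mem_biUnion, mem_filter, mem_univ, true_and]
    exact ⟨e, he⟩
  calc _ ≤ (∑ e, (B e).card) * Z :=
        Nat.mul_le_mul_right _ ((card_le_card hsub).trans card_biUnion_le)
    _ = ∑ e, (B e).card * Z := Finset.sum_mul _ _ _
    _ ≤ ∑ _e : E m, Fintype.card (E m → Bool × Fin Z) := sum_le_sum fun e _ => hB e
    _ = 3 * m ^ 2 * Fintype.card (E m → Bool × Fin Z) := by
        rw [sum_const, card_univ, smul_eq_mul]
        congr 1
        simp only [Fintype.card_prod, Fintype.card_fin]
        ring

end Pool.Agent.Helper21.DS
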