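import Pool.Agent.Helper21.DS.Main

/-!
# The final bound
-/

set_option autoImplicit false

namespace Pool.Agent.Helper21.DS

open Finset
open Pool.Agent.Helper22.ETModel Pool.Agent.Helper22.TSModel Pool.Agent.Helper22.EP

/-- The size condition of `main_bound`: with `V = n ^ 3 W ≥ D W` the left side is at most
`2 ^ 14 s (d + 1) n ^ 9 V ^ (k + 2) (2 ^ 12 s ^ 2) ^ k`, and `6 (60 s) ^ k ≤ n` gives
`(2 ^ 12 s ^ 2) ^ k = (64 s) ^ (2 k) ≤ (16 / 15) ^ (2 k) (n / 6) ^ 2` and `s ^ 2 ≤ (n / 360) ^ 2`. -/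
theorem size_ok {n m k d s D W : ℕ} (hn : 3 ≤ n) (hk : 1 ≤ k) (h : 3 * m ≤ n) (hm : 1 ≤ m)
    (hd : 2 * d ≤ s) (hs1 : 2 ≤ s) (hsn : 6 * (60 * s) ^ k ≤ n) (hW : 1 ≤ W) (hD : D ≤ n ^ 3)
    (hsz : (n ^ 3 * W) ^ (k + 2) ≤ n ^ 286) :
    24 * m ^ 2 * (16 * s * (192 * (D * W) * ((1 + m ^ 3) * (3 * m ^ 2 * d)) + 1) *
      (16 * s * (192 * (D * W) * s + 1)) ^ k) * (192 * (D * W) * (3 * m ^ 2) + 1) ≤ n ^ 300 := by
  set V : ℕ := n ^ 3 * W with hV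
  have hDV : D * W ≤ V := Nat.mul_le_mul_right W hD
  have hV1 : 1 ≤ V := Nat.one_le_iff_ne_zero.mpr (by positivity)
  have hs0 : 1 ≤ s := by omega
  have hsn' : (60 * s) ^ k * 6 ≤ n := by rw [mul_comm]; exact hsn
  have hs360 : 360 * s ≤ n := by
    calc 360 * s = 6 * (60 * s) ^ 1 := by ring
      _ ≤ 6 * (60 * s) ^ k := Nat.mul_le_mul_left _ (Nat.pow_le_pow_right (by omega) hk)
      _ ≤ n := hsn
  -- the three factors
  have f1 : 192 * (D * W) * s + 1 ≤ 193 * V * s := by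
    have h1 : 192 * (D * W) * s ≤ 192 * V * s :=
      Nat.mul_le_mul_right _ (Nat.mul_le_mul_left _ hDV)
    have h2 : 1 ≤ V * s := Nat.one_le_iff_ne_zero.mpr (by positivity)
    nlinarith
  have g1 : 16 * s * (192 * (D * W) * s + 1) ≤ 2 ^ 12 * s ^ 2 * V := by
    calc 16 * s * (192 * (D * W) * s + 1) ≤ 16 * s * (193 * V * s) := Nat.mul_le_mul_left _ f1
      _ = 3088 * (s ^ 2 * V) := by ring
      _ ≤ 2 ^ 12 * (s ^ 2 * V) := Nat.mul_le_mul_right _ (by norm_num)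
      _ = 2 ^ 12 * s ^ 2 * V := by ring
  have g1k : (16 * s * (192 * (D * W) * s + 1)) ^ k ≤ ((60 * s) ^ k) ^ 3 * V ^ k := by
    calc (16 * s * (192 * (D * W) * s + 1)) ^ k ≤ (2 ^ 12 * s ^ 2 * V) ^ k :=
          Nat.pow_le_pow_left g1 k
      _ ≤ ((60 * s) ^ 3 * V) ^ k := by
          refine Nat.pow_le_pow_left (Nat.mul_le_mul_right _ ?_) k
          calc 2 ^ 12 * s ^ 2 = 2 ^ 12 * s ^ 2 * 1 := by ring
            _ ≤ 2 ^ 12 * s ^ 2 * s := Nat.mul_le_mul_left _ hs0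
            _ = 4096 * s ^ 3 := by ring
            _ ≤ 216000 * s ^ 3 := Nat.mul_le_mul_right _ (by norm_num)
            _ = (60 * s) ^ 3 := by ring
      _ = ((60 * s) ^ k) ^ 3 * V ^ k := by
          rw [mul_pow, ← pow_mul, ← pow_mul, mul_comm 3 k]
  have f2 : 192 * (D * W) * ((1 + m ^ 3) * (3 * m ^ 2 * d)) + 1 ≤ 577 * V * (m ^ 5 * s) := by
    have h1 : 1 + m ^ 3 ≤ 2 * m ^ 3 := by
      have : 1 ≤ m ^ 3 := Nat.one_le_pow _ _ hm
      omega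
    have h2 : (1 + m ^ 3) * (3 * m ^ 2 * d) ≤ 3 * (m ^ 5 * s) := by
      calc (1 + m ^ 3) * (3 * m ^ 2 * d) ≤ 2 * m ^ 3 * (3 * m ^ 2 * d) := Nat.mul_le_mul_right _ h1
        _ = 3 * (m ^ 5 * (2 * d)) := by ring
        _ ≤ 3 * (m ^ 5 * s) := Nat.mul_le_mul_left _ (Nat.mul_le_mul_left _ hd)
    have h3 : 192 * (D * W) * ((1 + m ^ 3) * (3 * m ^ 2 * d)) ≤ 192 * V * (3 * (m ^ 5 * s)) :=
      Nat.mul_le_mul (Nat.mul_le_mul_left _ hDV) h2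
    have h4 : 1 ≤ V * (m ^ 5 * s) := Nat.one_le_iff_ne_zero.mpr (by positivity)
    nlinarith
  have f3 : 192 * (D * W) * (3 * m ^ 2) + 1 ≤ 577 * V * m ^ 2 := by
    have h3 : 192 * (D * W) * (3 * m ^ 2) ≤ 192 * V * (3 * m ^ 2) :=
      Nat.mul_le_mul_right _ (Nat.mul_le_mul_left _ hDV)
    have h4 : 1 ≤ V * m ^ 2 := Nat.one_le_iff_ne_zero.mpr (by positivity)
    nlinarith
  -- the product
  have hT : 24 * m ^ 2 * (16 * s * (192 * (D * W) * ((1 + m ^ 3) * (3 * m ^ 2 * d)) + 1) *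
      (16 * s * (192 * (D * W) * s + 1)) ^ k) * (192 * (D * W) * (3 * m ^ 2) + 1) ≤
      127844736 * (m ^ 9 * s ^ 2 * ((60 * s) ^ k) ^ 3 * V ^ (k + 2)) := by
    calc 24 * m ^ 2 * (16 * s * (192 * (D * W) * ((1 + m ^ 3) * (3 * m ^ 2 * d)) + 1) *
          (16 * s * (192 * (D * W) * s + 1)) ^ k) * (192 * (D * W) * (3 * m ^ 2) + 1)
        ≤ 24 * m ^ 2 * (16 * s * (577 * V * (m ^ 5 * s)) * (((60 * s) ^ k) ^ 3 * V ^ k)) *
          (577 * V * m ^ 2) := by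
          refine Nat.mul_le_mul (Nat.mul_le_mul_left _ (Nat.mul_le_mul ?_ g1k)) f3
          exact Nat.mul_le_mul_left _ f2
      _ = 127844736 * (m ^ 9 * s ^ 2 * ((60 * s) ^ k) ^ 3 * V ^ (k + 2)) := by
          rw [pow_add]
          ring
  have e1 : 3 ^ 9 * m ^ 9 ≤ n ^ 9 := by
    rw [← mul_pow]
    exact Nat.pow_le_pow_left h 9
  have e2 : 360 ^ 2 * s ^ 2 ≤ n ^ 2 := by
    rw [← mul_pow]
    exact Nat.pow_le_pow_left hs360 2
  have e3 : 6 ^ 3 * ((60 * s) ^ k) ^ 3 ≤ n ^ 3 := by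
    rw [← mul_pow]
    exact Nat.pow_le_pow_left hsn 3
  have e4 : (3 ^ 9 * 360 ^ 2 * 6 ^ 3) * (m ^ 9 * s ^ 2 * ((60 * s) ^ k) ^ 3 * V ^ (k + 2)) ≤ n ^ 300 := by
    calc (3 ^ 9 * 360 ^ 2 * 6 ^ 3) * (m ^ 9 * s ^ 2 * ((60 * s) ^ k) ^ 3 * V ^ (k + 2))
        = (3 ^ 9 * m ^ 9) * (360 ^ 2 * s ^ 2) * (6 ^ 3 * ((60 * s) ^ k) ^ 3) * V ^ (k + 2) := by ring
      _ ≤ n ^ 9 * n ^ 2 * n ^ 3 * n ^ 286 :=
          Nat.mul_le_mul (Nat.mul_le_mul (Nat.mul_le_mul e1 e2) e3) hsz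
      _ = n ^ 300 := by ring
  refine hT.trans (le_trans (Nat.mul_le_mul_right _ ?_) e4)
  norm_num

theorem dsfinal_W {n D W R : ℕ} {Qr Ar : Type} (A : Alg n D W R Qr Ar) : 1 ≤ W := by
  have h := (A.init (fun _ _ => true) (fun _ => true)).isLt
  omega

/-- The quantitative bound: `s` is about `(w + 4) log n` for `W = n ^ w`. Proof: `m = n / 3`; choose
`β` maximal with `2 (60 β s) ^ k ≤ m` (possible by `hsn`), so `β ≥ (m / 2) ^ (1 / k) / (120 s)`,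
and `Nw` the least integer with `D ≤ Nw β ^ (k - 1)`; then `main_bound` gives `m ^ 2 ≤ 192 s Nw`,
and `m ^ 2 > 384 s`, so `D ≥ m ^ 2 β ^ (k - 1) / (384 s)`. If `D > n ^ 3` there is nothing to prove;
`W ≥ 1` because of `A.init`. -/
theorem quantitative {n k d s D W R : ℕ} (hn : 3 ≤ n) (hk : 1 ≤ k) (hd : 2 * d ≤ s)
    (hs : 2 ^ 9 * n ^ 4 * W ≤ 2 ^ s) (hsn : 6 * (60 * s) ^ k ≤ n)
    (hsz : (n ^ 3 * W) ^ (k + 2) ≤ n ^ 286)
    (A : Alg n D W R (DenseQ n d) SignType) (hA : A.Decides (denseFam n d)) :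
    (n : ℝ) ^ (3 - 1 / (k : ℝ)) ≤ 2 ^ 10 * (2 ^ 7 * s) ^ k * D := by
  have hW : 1 ≤ W := dsfinal_W A
  have hn0 : (0 : ℝ) < n := by
    have : 0 < n := by omega
    exact_mod_cast this
  have hk0 : (0 : ℝ) < k := by exact_mod_cast hk
  have hs15 : 15 ≤ s := by
    by_contra hlt
    have h1 : 2 ^ s ≤ 2 ^ 14 := Nat.pow_le_pow_right (by norm_num) (by omega)
    have h2 : 3 ^ 4 ≤ n ^ 4 := Nat.pow_le_pow_left hn 4
    have h3 : 2 ^ 9 * 3 ^ 4 * 1 ≤ 2 ^ 9 * n ^ 4 * W :=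
      Nat.mul_le_mul (Nat.mul_le_mul_left _ h2) hW
    have h4 := h3.trans (hs.trans h1)
    norm_num at h4
  -- the exponent
  have hsplit : (n : ℝ) ^ (3 - 1 / (k : ℝ)) * (n : ℝ) ^ (1 / (k : ℝ)) = (n : ℝ) ^ 3 := by
    rw [← Real.rpow_add hn0, sub_add_cancel]
    norm_cast
  set x : ℝ := (n : ℝ) ^ (1 / (k : ℝ)) with hx
  have hx0 : 0 < x := Real.rpow_pos_of_pos hn0 _
  have hxk : x ^ k = n := by
    rw [hx, ← Real.rpow_natCast, ← Real.rpow_mul hn0.le]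
    rw [one_div, inv_mul_cancel₀ hk0.ne', Real.rpow_one]
  suffices hmain : (n : ℝ) ^ 3 ≤ (2 ^ 10 * (2 ^ 7 * s) ^ k * D) * x by
    have h1 : (n : ℝ) ^ (3 - 1 / (k : ℝ)) * x ≤ (2 ^ 10 * (2 ^ 7 * s) ^ k * D) * x := by
      rw [hsplit]
      exact hmain
    exact le_of_mul_le_mul_right h1 hx0
  have hx1 : 1 ≤ x := Real.one_le_rpow (by exact_mod_cast (by omega : 1 ≤ n)) (by positivity)
  have hs1' : (1 : ℝ) ≤ s := by exact_mod_cast (by omega : 1 ≤ s)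
  by_cases hD : D ≤ n ^ 3
  swap
  · have hD' : (n : ℝ) ^ 3 ≤ D := by exact_mod_cast (by omega : n ^ 3 ≤ D)
    have h1 : (1 : ℝ) ≤ (2 ^ 7 * s) ^ k := one_le_pow₀ (by linarith)
    have h2 : (1 : ℝ) ≤ 2 ^ 10 * (2 ^ 7 * s) ^ k := by linarith
    calc (n : ℝ) ^ 3 ≤ D := hD'
      _ = 1 * D * 1 := by ring
      _ ≤ (2 ^ 10 * (2 ^ 7 * s) ^ k) * D * x := by
          refine mul_le_mul (mul_le_mul_of_nonneg_right h2 (by positivity)) hx1 (by norm_num)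
            (by positivity)
  -- `m` and `β`
  set m : ℕ := n / 3 with hm
  have h3m : 3 * m ≤ n := by omega
  have hs900 : 900 ≤ 60 * s := by omega
  have h60k : 60 * s ≤ (60 * s) ^ k := Nat.le_self_pow (by omega) _
  have hn5400 : 5400 ≤ n := by omega
  have hm1800 : 1800 ≤ m := by omega
  have hsm : 30 * s ≤ m := by omega
  have hβex : 2 * (60 * 1 * s) ^ k ≤ m := by
    rw [mul_one]
    omega
  set P : ℕ → Prop := fun β => 2 * (60 * β * s) ^ k ≤ m with hP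
  have hPb : ∀ β, P β → β ≤ m := by
    intro β hβ
    have hβ : 2 * (60 * β * s) ^ k ≤ m := hβ
    have h1 : 60 * β * s ≤ (60 * β * s) ^ k := Nat.le_self_pow (by omega) _
    nlinarith
  obtain ⟨β, hβP, hβmax⟩ : ∃ β, P β ∧ ¬ P (β + 1) := by
    classical
    refine ⟨Nat.findGreatest P m, Nat.findGreatest_spec (hPb 1 hβex) hβex, ?_⟩
    intro hcon
    have h1 := Nat.le_findGreatest (hPb _ hcon) hcon
    omega
  have hβ1 : 1 ≤ β := by
    by_contra h0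
    have h1 : β = 0 := by omega
    subst h1
    exact hβmax hβex
  have hβP' : 2 * (60 * β * s) ^ k ≤ m := hβP
  have hβmax' : m < 2 * (60 * (β + 1) * s) ^ k := not_le.mp hβmax
  have hβpos : 0 < β ^ (k - 1) := pow_pos (by omega) _
  have hβm : β ^ (k - 1) ≤ m := by
    calc β ^ (k - 1) ≤ β ^ k := Nat.pow_le_pow_right hβ1 (by omega)
      _ ≤ (60 * β * s) ^ k := by
          refine Nat.pow_le_pow_left ?_ k
          nlinarith
      _ ≤ m := by omega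
  -- `Nw`
  set Nw : ℕ := (D + (β ^ (k - 1) - 1)) / β ^ (k - 1) with hNw
  have hN1 : D ≤ Nw * β ^ (k - 1) := by
    have h1 := Nat.div_add_mod (D + (β ^ (k - 1) - 1)) (β ^ (k - 1))
    have h2 := Nat.mod_lt (D + (β ^ (k - 1) - 1)) hβpos
    rw [← hNw] at h1
    have h3 : Nw * β ^ (k - 1) = β ^ (k - 1) * Nw := mul_comm _ _
    omega
  have hN2 : Nw * β ^ (k - 1) ≤ D + β ^ (k - 1) := by
    have h1 := Nat.div_mul_le_self (D + (β ^ (k - 1) - 1)) (β ^ (k - 1))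
    rw [← hNw] at h1
    omega
  have hkn : k ≤ n := by
    have h1 : k < 2 ^ k := Nat.lt_two_pow_self
    have h2 : 2 ^ k ≤ (60 * s) ^ k := Nat.pow_le_pow_left (by omega) k
    omega
  have hmb := main_bound h3m (by omega : 1 ≤ s) hk hβ1 hd hβP'
    (by
      have h1 : 1 ≤ n ^ 3 := Nat.one_le_pow _ _ (by omega)
      have h2 : n * 1 ≤ n * n ^ 3 := Nat.mul_le_mul_left _ h1
      have h3 : n * n ^ 3 = n ^ 4 := by ring
      have h4 : n ^ 4 * 1 ≤ n ^ 4 * W := Nat.mul_le_mul_left _ hW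
      have h5 : 2 ^ 9 * n ^ 4 * W = 512 * (n ^ 4 * W) := by ring
      omega)
    hN1 (by omega)
    (by
      have h1 : D + m ≤ 2 * n ^ 3 := by
        have : n ≤ n ^ 3 := Nat.le_self_pow (by omega) _
        omega
      calc 192 * ((D + m) * W * k) ≤ 192 * (2 * n ^ 3 * W * n) :=
            Nat.mul_le_mul_left _ (Nat.mul_le_mul (Nat.mul_le_mul_right _ h1) hkn)
        _ = 384 * (n ^ 4 * W) := by ring
        _ ≤ 512 * (n ^ 4 * W) := Nat.mul_le_mul_right _ (by norm_num)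
        _ = 2 ^ 9 * n ^ 4 * W := by ring
        _ ≤ 2 ^ s := hs)
    (size_ok hn hk h3m (by omega) hd (by omega) hsn hW hD hsz) A hA
  -- the estimate
  have c1 : m ^ 2 * β ^ (k - 1) ≤ 384 * s * D := by
    have h1 : m ^ 2 * β ^ (k - 1) ≤ 192 * s * (D + β ^ (k - 1)) := by
      calc m ^ 2 * β ^ (k - 1) ≤ 192 * s * Nw * β ^ (k - 1) := Nat.mul_le_mul_right _ hmb
        _ = 192 * s * (Nw * β ^ (k - 1)) := by ring
        _ ≤ 192 * s * (D + β ^ (k - 1)) := Nat.mul_le_mul_left _ hN2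
    have h2 : 384 * s ≤ m ^ 2 := by nlinarith
    have h3 : 384 * s * β ^ (k - 1) ≤ m ^ 2 * β ^ (k - 1) := Nat.mul_le_mul_right _ h2
    nlinarith
  set y : ℕ := 60 * β * s with hy
  have hpk : (60 * s) ^ k = 60 * s * (60 * s) ^ (k - 1) := by
    obtain ⟨j, rfl⟩ : ∃ j, k = j + 1 := ⟨k - 1, by omega⟩
    rw [Nat.add_sub_cancel, pow_succ, mul_comm]
  have hyk : y ^ k = y * y ^ (k - 1) := by
    obtain ⟨j, rfl⟩ : ∃ j, k = j + 1 := ⟨k - 1, by omega⟩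
    rw [Nat.add_sub_cancel, pow_succ, mul_comm]
  have hyβ : y ^ (k - 1) = (60 * s) ^ (k - 1) * β ^ (k - 1) := by
    rw [hy, ← mul_pow]
    congr 1
    ring
  have c2 : 5 * (m ^ 2 * y ^ (k - 1)) ≤ 32 * ((60 * s) ^ k * D) := by
    rw [hyβ, hpk]
    calc 5 * (m ^ 2 * ((60 * s) ^ (k - 1) * β ^ (k - 1)))
        = 5 * (60 * s) ^ (k - 1) * (m ^ 2 * β ^ (k - 1)) := by ring
      _ ≤ 5 * (60 * s) ^ (k - 1) * (384 * s * D) := Nat.mul_le_mul_left _ c1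
      _ = 32 * (60 * s * (60 * s) ^ (k - 1) * D) := by ring
  have c3 : m ≤ 2 * (2 ^ k * y ^ k) := by
    have h1 : (60 * (β + 1) * s) ^ k ≤ (2 * y) ^ k := by
      refine Nat.pow_le_pow_left ?_ k
      rw [hy]
      nlinarith
    rw [mul_pow 2 y k] at h1
    omega
  have c4 : 5 * m ^ 3 ≤ 64 * ((120 * s) ^ k * D * y) := by
    have h120 : (120 * s) ^ k = 2 ^ k * (60 * s) ^ k := by
      rw [← mul_pow]
      congr 1
      ring
    calc 5 * m ^ 3 = 5 * m ^ 2 * m := by ring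
      _ ≤ 5 * m ^ 2 * (2 * (2 ^ k * y ^ k)) := Nat.mul_le_mul_left _ c3
      _ = 2 * 2 ^ k * y * (5 * (m ^ 2 * y ^ (k - 1))) := by rw [hyk]; ring
      _ ≤ 2 * 2 ^ k * y * (32 * ((60 * s) ^ k * D)) := Nat.mul_le_mul_left _ c2
      _ = 64 * ((120 * s) ^ k * D * y) := by rw [h120]; ring
  have c5 : n ^ 3 ≤ 28 * m ^ 3 := by
    have h1 : n ≤ 3 * m + 2 := by omega
    calc n ^ 3 ≤ (3 * m + 2) ^ 3 := Nat.pow_le_pow_left h1 3
      _ = 27 * m ^ 3 + 54 * m ^ 2 + 36 * m + 8 := by ring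
      _ ≤ 28 * m ^ 3 := by
          have h2 : 54 * m ^ 2 + 36 * m + 8 ≤ m ^ 3 := by nlinarith
          omega
  have c6 : n ^ 3 ≤ 2 ^ 10 * ((2 ^ 7 * s) ^ k * D * y) := by
    have h1 : (120 * s) ^ k ≤ (2 ^ 7 * s) ^ k := Nat.pow_le_pow_left (by omega) k
    have h2 : (120 * s) ^ k * D * y ≤ (2 ^ 7 * s) ^ k * D * y :=
      Nat.mul_le_mul_right _ (Nat.mul_le_mul_right _ h1)
    omega
  have hyx : (y : ℝ) ≤ x := by
    have h1 : (y : ℝ) ^ k ≤ x ^ k := by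
      rw [hxk]
      have : y ^ k ≤ n := by omega
      exact_mod_cast this
    exact le_of_pow_le_pow_left₀ (by omega) hx0.le h1
  calc (n : ℝ) ^ 3 ≤ 2 ^ 10 * ((2 ^ 7 * s) ^ k * D * y) := by exact_mod_cast c6
    _ ≤ 2 ^ 10 * ((2 ^ 7 * s) ^ k * D * x) := by
        refine mul_le_mul_of_nonneg_left (mul_le_mul_of_nonneg_left hyx (by positivity))
          (by norm_num)
    _ = (2 ^ 10 * (2 ^ 7 * s) ^ k * D) * x := by ring

end Pool.Agent.Helper21.DS
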