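import Pool.Agent.Helper21.DS.Sign

/-!
# The instances
-/

set_option autoImplicit false

namespace Pool.Agent.Helper21.DS

open Finset
open Pool.Agent.Helper22.ETModel Pool.Agent.Helper22.TSModel Pool.Agent.Helper22.EP
open Pool.Agent.Helper23.SP (pre sg)
open Pool.Agent.Helper8.ZT

variable {m n k b Z M N : ℕ} [NeZero b]

/-- The value of a dense affine form (unfold `wtOf`, exchange the sums). -/
theorem form_inst (h : 3 * m ≤ n) (c : ℝ) (a : Fin n × Fin n → ℝ) (L Y Q : ℕ)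
    (dg : E m → Fin k → Fin b) (lam : Lam m k b Z M N) (tiny : E m → ℤ) :
    c + ∑ p : Fin n × Fin n, a p * ((instOf h (wg L Y Q dg lam tiny)).wt p.1 p.2 : ℝ) =
      c + ∑ e, gam h a e * (vl L Y Q dg lam tiny e : ℝ) := by
  congr 1
  have h1 : ∀ p : Fin n × Fin n,
      a p * ((instOf h (wg L Y Q dg lam tiny)).wt p.1 p.2 : ℝ) =
        ∑ e : E m, (wg L Y Q dg lam tiny e : ℝ) *
          ((if enc h e = p then a p else 0) + (if (enc h e).swap = p then a p else 0)) := by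
    intro p
    show a p * ((wtOf h (wg L Y Q dg lam tiny) p.1 p.2 : ℤ) : ℝ) = _
    unfold wtOf
    push_cast
    rw [mul_sum]
    refine sum_congr rfl fun e _ => ?_
    have e1 : (enc h e = (p.1, p.2)) ↔ (enc h e = p) := Iff.rfl
    have e2 : (enc h e = (p.2, p.1)) ↔ ((enc h e).swap = p) := by
      constructor
      · intro h0
        rw [h0]
        rfl
      · intro h0
        rw [← h0]
        rfl
    rw [if_congr e1 rfl rfl, if_congr e2 rfl rfl]
    by_cases c1 : enc h e = p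
    · by_cases c2 : (enc h e).swap = p
      · rw [if_pos c1, if_pos c2, if_pos c1, if_pos c2]
        ring
      · rw [if_pos c1, if_neg c2, if_pos c1, if_neg c2]
        ring
    · by_cases c2 : (enc h e).swap = p
      · rw [if_neg c1, if_pos c2, if_neg c1, if_pos c2]
        ring
      · rw [if_neg c1, if_neg c2, if_neg c1, if_neg c2]
        ring
  rw [sum_congr rfl fun p _ => h1 p, sum_comm]
  refine sum_congr rfl fun e _ => ?_
  rw [← mul_sum, sum_add_distrib, sum_ite_eq, sum_ite_eq, if_pos (mem_univ _),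
    if_pos (mem_univ _)]
  unfold gam wg
  push_cast
  ring

/-- The value of a polynomial (as `evalP_wgt` in Helper8/ZT/Run). -/
theorem poly_inst (h : 3 * m ≤ n) (f : MvPolynomial (Fin n × Fin n) ℝ) (L Y Q : ℕ)
    (dg : E m → Fin k → Fin b) (lam : Lam m k b Z M N) (tiny : E m → ℤ) :
    evalP f (instOf h (wg L Y Q dg lam tiny)) =
      pev h f (fun e => (vl L Y Q dg lam tiny e : ℝ)) := by
  rw [evalP_instOf]
  unfold pev wg
  congr 2
  funext e
  push_cast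
  rfl

/-- A number with digits at most `Y - 1`. -/
private lemma instA_geo (Y : ℤ) (hY : 0 ≤ Y) : ∀ (k : ℕ) (x : Fin k → ℤ),
    (∀ i, 0 ≤ x i ∧ x i ≤ Y - 1) →
    0 ≤ ∑ i : Fin k, Y ^ (k - 1 - i.val) * x i ∧
      ∑ i : Fin k, Y ^ (k - 1 - i.val) * x i ≤ Y ^ k - 1 := by
  intro k
  induction k with
  | zero => intro x _; simp
  | succ k ih =>
    intro x hx
    rw [Fin.sum_univ_succ]
    have h1 : ∀ i : Fin k, Y ^ (k + 1 - 1 - (Fin.succ i).val) * x i.succ =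
        Y ^ (k - 1 - i.val) * x i.succ := by
      intro i
      have : k + 1 - 1 - (Fin.succ i).val = k - 1 - i.val := by
        rw [Fin.val_succ]
        omega
      rw [this]
    have h2 : k + 1 - 1 - (0 : Fin (k + 1)).val = k := by
      rw [Fin.val_zero]
      omega
    rw [sum_congr rfl fun i _ => h1 i, h2]
    obtain ⟨h3, h4⟩ := ih (fun i => x i.succ) fun i => hx i.succ
    have h5 := pow_nonneg hY k
    have h6 : 0 ≤ Y ^ k * x 0 := mul_nonneg h5 (hx 0).1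
    have h7 : Y ^ k * x 0 ≤ Y ^ k * (Y - 1) := mul_le_mul_of_nonneg_left (hx 0).2 h5
    refine ⟨add_nonneg h6 h3, ?_⟩
    calc Y ^ k * x 0 + ∑ i : Fin k, Y ^ (k - 1 - i.val) * x i.succ
        ≤ Y ^ k * (Y - 1) + (Y ^ k - 1) := add_le_add h7 h4
      _ = Y ^ (k + 1) - 1 := by rw [pow_succ]; ring

theorem inst_valid {s L Y Q : ℕ} (hs : 1 ≤ s) (hL : 16 * s * (N + 1) ≤ L)
    (hY : 16 * s * M ≤ Y) (hQ : 24 * m ^ 2 * (L * Y ^ k) ≤ Q) (hQZ : Q * Z ≤ n ^ 300)
    (hZ : 1 ≤ Z) (hm : 1 ≤ m) (h : 3 * m ≤ n) (dg : E m → Fin k → Fin b)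
    (lam : Lam m k b Z M N) (tiny : E m → ℤ) (ht : ∀ e, |tiny e| ≤ 2 * (N : ℤ) + 1) :
    (instOf h (wg L Y Q dg lam tiny)).Valid := by
  refine instOf_valid h _ fun e => ?_
  -- the masks are smaller than the base
  have hM : ∀ i : Fin k, ∀ x : Fin k → Fin b, ((lam.2.1 i x : ℕ) : ℤ) + 1 ≤ (Y : ℤ) := by
    intro i x
    have h1 : (lam.2.1 i x : ℕ) < M := (lam.2.1 i x).isLt
    have h2 : M ≤ 16 * s * M := Nat.le_mul_of_pos_left _ (by omega)
    have h3 : (lam.2.1 i x : ℕ) + 1 ≤ Y := by omega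
    exact_mod_cast h3
  obtain ⟨g1, g2⟩ := instA_geo (Y : ℤ) (by positivity) k
    (fun i => ((lam.2.1 i (pre (i.val + 1) (dg e)) : ℕ) : ℤ)) fun i =>
      ⟨by positivity, by have := hM i (pre (i.val + 1) (dg e)); linarith⟩
  have hL1 : 2 * (N : ℤ) + 1 ≤ (L : ℤ) := by
    have h1 : 16 * (N + 1) ≤ 16 * s * (N + 1) := Nat.mul_le_mul_right _ (by omega)
    have h2 : 2 * N + 1 ≤ L := by omega
    exact_mod_cast h2
  have hY1 : (1 : ℤ) ≤ (Y : ℤ) ^ k := by linarith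
  have hQ1 : (L : ℤ) * (Y : ℤ) ^ k ≤ (Q : ℤ) := by
    have h1 : 1 ≤ m ^ 2 := Nat.one_le_pow _ _ hm
    have h2 : L * Y ^ k ≤ 24 * m ^ 2 * (L * Y ^ k) := Nat.le_mul_of_pos_left _ (by omega)
    have h3 : L * Y ^ k ≤ Q := h2.trans hQ
    exact_mod_cast h3
  have hL0 : (0 : ℤ) ≤ (L : ℤ) := by positivity
  have hLQ : (L : ℤ) ≤ (Q : ℤ) := by
    refine le_trans ?_ hQ1
    nlinarith
  have hQQZ : (Q : ℤ) ≤ (Q : ℤ) * (Z : ℤ) := by
    have h1 : Q ≤ Q * Z := Nat.le_mul_of_pos_right _ (by omega)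
    exact_mod_cast h1
  have hQZ1 : (Q : ℤ) * (Z : ℤ) ≤ (n : ℤ) ^ 300 := by exact_mod_cast hQZ
  have hsg : |sg e| ≤ 1 := by
    unfold sg
    split_ifs <;> simp
  have hvl : |vl L Y Q dg lam tiny e| ≤ (Q : ℤ) * (Z : ℤ) := by
    obtain ⟨t1, t2⟩ := abs_le.1 (ht e)
    unfold vl
    by_cases hz : (lam.1 e).1 = true
    · rw [if_pos hz]
      have h1 : (((lam.1 e).2 : ℕ) : ℤ) + 1 ≤ (Z : ℤ) := by
        have := (lam.1 e).2.isLt
        exact_mod_cast this
      have h2 : (0 : ℤ) ≤ (((lam.1 e).2 : ℕ) : ℤ) := by positivity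
      have h3 : (0 : ℤ) ≤ (Q : ℤ) := by positivity
      have h4 : (0 : ℤ) ≤ (Q : ℤ) * (((lam.1 e).2 : ℕ) : ℤ) := mul_nonneg h3 h2
      have h5 : (Q : ℤ) * ((((lam.1 e).2 : ℕ) : ℤ) + 1) ≤ (Q : ℤ) * (Z : ℤ) :=
        mul_le_mul_of_nonneg_left h1 h3
      rw [abs_le]
      constructor <;> linarith
    · rw [if_neg hz]
      have e1 : strc Y lam.2.1 (dg e) = ∑ i : Fin k, (Y : ℤ) ^ (k - 1 - i.val) *
          ((lam.2.1 i (pre (i.val + 1) (dg e)) : ℕ) : ℤ) := rfl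
      rw [e1]
      have h4 := mul_nonneg hL0 g1
      have h5 := mul_le_mul_of_nonneg_left g2 hL0
      rw [abs_le]
      constructor <;> linarith
  calc |wg L Y Q dg lam tiny e| = |sg e| * |vl L Y Q dg lam tiny e| := by
        unfold wg
        rw [abs_mul]
    _ ≤ 1 * |vl L Y Q dg lam tiny e| := mul_le_mul_of_nonneg_right hsg (abs_nonneg _)
    _ = |vl L Y Q dg lam tiny e| := one_mul _
    _ ≤ (Q : ℤ) * (Z : ℤ) := hvl
    _ ≤ (n : ℤ) ^ 300 := hQZ1

end Pool.Agent.Helper21.DS
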