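import Pool.Agent.Helper21.DS.RegDefs

/-!
# Registers are simulated by memory states
-/

set_option autoImplicit false

namespace Pool.Agent.Helper21.DS

open Finset
open Pool.Agent.Helper22.ETModel Pool.Agent.Helper22.TSModel Pool.Agent.Helper22.EP

variable {n d D W r R : ℕ}

/-- The zero form. -/
def Form.zro (n : ℕ) : Form n := ⟨0, fun _ => 0⟩

/-- The form as a polynomial. -/
noncomputable def Form.poly {n : ℕ} (F : Form n) : MvPolynomial (Fin n × Fin n) ℝ :=
  MvPolynomial.C F.cst + ∑ p : Fin n × Fin n, MvPolynomial.C (F.coef p) * MvPolynomial.X p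

lemma Form.eval_poly {n : ℕ} (F : Form n) (I : Inst n) :
    MvPolynomial.eval (fun p => (I.wt p.1 p.2 : ℝ)) F.poly = F.val I := by
  unfold Form.poly Form.val
  rw [map_add, map_sum, MvPolynomial.eval_C]
  congr 1
  refine sum_congr rfl fun p _ => ?_
  rw [map_mul, MvPolynomial.eval_C, MvPolynomial.eval_X]

lemma Form.totalDegree_poly {n : ℕ} (F : Form n) : F.poly.totalDegree ≤ 1 := by
  unfold Form.poly
  refine (MvPolynomial.totalDegree_add _ _).trans (max_le ?_ ?_)
  · rw [MvPolynomial.totalDegree_C]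
    exact Nat.zero_le _
  · apply MvPolynomial.totalDegree_finsetSum_le
    intro p _
    refine (MvPolynomial.totalDegree_mul _ _).trans ?_
    rw [MvPolynomial.totalDegree_C, MvPolynomial.totalDegree_X]

/-- The substitution of the registers. -/
noncomputable def sbs (fr : Fin r → Form n) :
    (Fin n × Fin n) ⊕ Fin r → MvPolynomial (Fin n × Fin n) ℝ :=
  Sum.elim MvPolynomial.X fun i => (fr i).poly

lemma sbs_deg (fr : Fin r → Form n) (x : (Fin n × Fin n) ⊕ Fin r) :
    (sbs fr x).totalDegree ≤ 1 := by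
  rcases x with p | i
  · show (MvPolynomial.X p : MvPolynomial (Fin n × Fin n) ℝ).totalDegree ≤ 1
    rw [MvPolynomial.totalDegree_X]
  · exact (fr i).totalDegree_poly

/-- The query after the substitution of the registers. -/
noncomputable def tr (fr : Fin r → Form n) : RegQ n d r → DenseQ n d
  | .sign F β => .sign (F.cst + ∑ i, β i * (fr i).cst)
      (fun p => F.coef p + ∑ i, β i * (fr i).coef p)
  | .zero f hf => .zero (MvPolynomial.aeval (sbs fr) f)
      ((totalDegree_aeval_le (sbs fr) (sbs_deg fr) f).trans hf)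

lemma tr_ans (fr : Fin r → Form n) (q : RegQ n d r) (I : Inst n) (x : Fin r → ℝ)
    (hx : ∀ i, (fr i).val I = x i) : (denseFam n d).ans (tr fr q) I = q.ans I x := by
  rcases q with ⟨F, β⟩ | ⟨f, hf⟩
  · show SignType.sign _ = SignType.sign _
    congr 1
    have h1 : ∀ i, β i * x i = β i * (fr i).cst +
        ∑ p : Fin n × Fin n, β i * (fr i).coef p * (I.wt p.1 p.2 : ℝ) := by
      intro i
      rw [← hx i]
      unfold Form.val
      rw [mul_add, mul_sum]
      congr 1
      refine sum_congr rfl fun p _ => ?_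
      ring
    rw [sum_congr rfl fun i _ => h1 i, sum_add_distrib, sum_comm]
    unfold Form.val
    have h2 : ∀ p : Fin n × Fin n, (F.coef p + ∑ i, β i * (fr i).coef p) * (I.wt p.1 p.2 : ℝ) =
        F.coef p * (I.wt p.1 p.2 : ℝ) +
          ∑ i, β i * (fr i).coef p * (I.wt p.1 p.2 : ℝ) := by
      intro p
      rw [add_mul, sum_mul]
    rw [sum_congr rfl fun p _ => h2 p, sum_add_distrib]
    ring
  · show (if evalP _ I = 0 then (0 : SignType) else 1) = if _ = 0 then 0 else 1
    have h1 : evalP (MvPolynomial.aeval (sbs fr) f) I =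
        MvPolynomial.eval (Sum.elim (fun p => (I.wt p.1 p.2 : ℝ)) x) f := by
      unfold evalP
      rw [eval_aeval]
      congr 2
      funext y
      rcases y with p | i
      · show MvPolynomial.eval _ (MvPolynomial.X p) = (I.wt p.1 p.2 : ℝ)
        rw [MvPolynomial.eval_X]
      · show MvPolynomial.eval _ (fr i).poly = x i
        rw [← hx i]
        exact (fr i).eval_poly I
    rw [h1]

/-- Memory states with the records of the loads. -/
abbrev VS (D W r : ℕ) := Fin W × (Fin r → Option (Fin D × Fin W))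

lemma card_VS : Fintype.card (VS D W r) = W * (D * W + 1) ^ r := by
  simp [VS]

/-- The form in a register. -/
noncomputable def frm (A : RegAlg n d D W r R) (fl : Fin n → Fin n → Bool) (ρ : Fin R → Bool)
    (ℓ : Fin r → Option (Fin D × Fin W)) (i : Fin r) : Form n :=
  match ℓ i with
  | none => Form.zro n
  | some (t, v) => (A.load fl ρ t.val v i).getD (Form.zro n)

/-- The records after the loads. -/
noncomputable def rcd (A : RegAlg n d D W r R) (fl : Fin n → Fin n → Bool) (ρ : Fin R → Bool)
    (t : ℕ) (s : VS D W r) : Fin r → Option (Fin D × Fin W) :=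
  fun i => if h : t < D ∧ (A.load fl ρ t s.1 i).isSome then some (⟨t, h.1⟩, s.1) else s.2 i

/-- The simulation. -/
noncomputable def simA (A : RegAlg n d D W r R) (e : VS D W r ≃ Fin (W * (D * W + 1) ^ r)) :
    Alg n D (W * (D * W + 1) ^ r) R (DenseQ n d) SignType where
  init fl ρ := e (A.init fl ρ, fun _ => none)
  ask fl ρ t s := tr (frm A fl ρ (rcd A fl ρ t (e.symm s))) (A.ask fl ρ t (e.symm s).1)
  next fl ρ t s a := e (A.next fl ρ t (e.symm s).1 a, rcd A fl ρ t (e.symm s))
  out fl ρ s := A.out fl ρ (e.symm s).1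

lemma frm_rec (A : RegAlg n d D W r R) (I : Inst n) (ρ : Fin R → Bool) (t : ℕ) (ht : t < D)
    (s : VS D W r) (x : Fin r → ℝ) (hx : ∀ i, (frm A I.flag ρ s.2 i).val I = x i) (i : Fin r) :
    (frm A I.flag ρ (rcd A I.flag ρ t s) i).val I = A.regs I ρ t s.1 x i := by
  unfold RegAlg.regs
  rcases hl : A.load I.flag ρ t s.1 i with _ | F
  · have h1 : rcd A I.flag ρ t s i = s.2 i := by
      unfold rcd
      rw [dif_neg]
      rintro ⟨_, h⟩
      rw [hl] at h
      simp at h
    have h2 : frm A I.flag ρ (rcd A I.flag ρ t s) i = frm A I.flag ρ s.2 i := by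
      unfold frm
      rw [h1]
    rw [h2]
    exact hx i
  · have h1 : rcd A I.flag ρ t s i = some (⟨t, ht⟩, s.1) := by
      unfold rcd
      rw [dif_pos ⟨ht, by rw [hl]; rfl⟩]
    have h2 : frm A I.flag ρ (rcd A I.flag ρ t s) i = F := by
      unfold frm
      rw [h1]
      show (A.load I.flag ρ t s.1 i).getD (Form.zro n) = F
      rw [hl]
      rfl
    rw [h2]

lemma Form.val_zro (I : Inst n) : (Form.zro n).val I = 0 := by
  unfold Form.zro Form.val
  simp

lemma sim_state (A : RegAlg n d D W r R) (e : VS D W r ≃ Fin (W * (D * W + 1) ^ r)) (I : Inst n)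
    (ρ : Fin R → Bool) (t : ℕ) (ht : t ≤ D) :
    (e.symm ((simA A e).state (denseFam n d) I ρ t)).1 = (A.conf I ρ t).1 ∧
    ∀ i, (frm A I.flag ρ (e.symm ((simA A e).state (denseFam n d) I ρ t)).2 i).val I =
      (A.conf I ρ t).2 i := by
  induction t with
  | zero =>
    have h1 : (simA A e).state (denseFam n d) I ρ 0 = e (A.init I.flag ρ, fun _ => none) := rfl
    rw [h1, Equiv.symm_apply_apply]
    refine ⟨rfl, fun i => ?_⟩
    show (Form.zro n).val I = 0
    exact Form.val_zro I
  | succ t ih =>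
    obtain ⟨ih1, ih2⟩ := ih (by omega)
    set s := e.symm ((simA A e).state (denseFam n d) I ρ t) with hs
    have hr := frm_rec A I ρ t (by omega) s (A.conf I ρ t).2 ih2
    have hans : (denseFam n d).ans (tr (frm A I.flag ρ (rcd A I.flag ρ t s))
        (A.ask I.flag ρ t s.1)) I =
        (A.ask I.flag ρ t s.1).ans I (A.regs I ρ t s.1 (A.conf I ρ t).2) :=
      tr_ans _ _ I _ hr
    have h1 : (simA A e).state (denseFam n d) I ρ (t + 1) =
        e (A.next I.flag ρ t s.1 ((A.ask I.flag ρ t s.1).ans I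
          (A.regs I ρ t s.1 (A.conf I ρ t).2)), rcd A I.flag ρ t s) := by
      rw [← hans]
      rfl
    have h2 : A.conf I ρ (t + 1) = (A.next I.flag ρ t s.1 ((A.ask I.flag ρ t s.1).ans I
          (A.regs I ρ t s.1 (A.conf I ρ t).2)), A.regs I ρ t s.1 (A.conf I ρ t).2) := by
      rw [ih1]
      rfl
    rw [h1, Equiv.symm_apply_apply, h2]
    exact ⟨rfl, hr⟩

lemma sim_output (A : RegAlg n d D W r R) (e : VS D W r ≃ Fin (W * (D * W + 1) ^ r))
    (I : Inst n) (ρ : Fin R → Bool) :
    (simA A e).output (denseFam n d) I ρ = A.output I ρ := by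
  show A.out I.flag ρ (e.symm ((simA A e).state (denseFam n d) I ρ D)).1 = _
  rw [(sim_state A e I ρ D le_rfl).1]
  rfl

open Classical in
/-- Registers are simulated by memory states. -/
theorem RegAlg.simulate (A : RegAlg n d D W r R) (hA : A.Decides) :
    ∃ A' : Alg n D (W * (D * W + 1) ^ r) R (DenseQ n d) SignType,
      A'.Decides (denseFam n d) := by
  have e : VS D W r ≃ Fin (W * (D * W + 1) ^ r) := Fintype.equivFinOfCardEq card_VS
  refine ⟨simA A e, fun I hI => ?_⟩
  have h1 := hA I hI
  refine h1.trans (Nat.mul_le_mul_left _ (card_le_card ?_))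
  intro ρ hρ
  rw [mem_filter] at hρ ⊢
  refine ⟨mem_univ _, ?_⟩
  rw [sim_output]
  exact hρ.2

end Pool.Agent.Helper21.DS
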