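import Pool.Agent.Helper21.DS.Defs

/-!
# Algorithms with real registers

Definitions.  Besides its `W` memory states the algorithm has `r` registers, each of which can be
loaded with the value of a real affine form in all the weights.
-/

set_option autoImplicit false

namespace Pool.Agent.Helper21.DS

open Finset
open Pool.Agent.Helper22.ETModel Pool.Agent.Helper22.TSModel Pool.Agent.Helper22.EP

/-- A real affine form in all the weights: a constant and the coefficients. -/
structure Form (n : ℕ) where
  cst : ℝ
  coef : Fin n × Fin n → ℝ

/-- The value of an affine form. -/
noncomputable def Form.val {n : ℕ} (F : Form n) (I : Inst n) : ℝ :=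
  F.cst + ∑ p : Fin n × Fin n, F.coef p * (I.wt p.1 p.2 : ℝ)

/-- Queries of two kinds: the sign of a real affine form in all the weights and the `r` registers,
and a zero test of a real polynomial of total degree at most `d` in all the weights and the
registers. -/
inductive RegQ (n d r : ℕ)
  | sign (F : Form n) (β : Fin r → ℝ)
  | zero (f : MvPolynomial ((Fin n × Fin n) ⊕ Fin r) ℝ) (hf : f.totalDegree ≤ d)

open Classical in
/-- The answer to a query if the contents of the registers are `x`. The answer to a zero test is `0`
if the polynomial vanishes, and `1` otherwise. -/
noncomputable def RegQ.ans {n d r : ℕ} (q : RegQ n d r) (I : Inst n) (x : Fin r → ℝ) : SignType :=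
  match q with
  | .sign F β => SignType.sign (F.val I + ∑ i, β i * x i)
  | .zero f _ => if MvPolynomial.eval (Sum.elim (fun p => (I.wt p.1 p.2 : ℝ)) x) f = 0 then 0 else 1

/-- A randomized algorithm on `n`-vertex instances with `W` memory states and `r` real registers,
which makes `D` steps. In every step some registers may be loaded with the values of affine forms in
all the weights, and then one query is asked. All decisions may depend in an arbitrary way on the
flags, the random bits, the time and the current memory state. At the beginning the registers
contain zero. -/
structure RegAlg (n d D W r R : ℕ) where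
  init : (Fin n → Fin n → Bool) → (Fin R → Bool) → Fin W
  load : (Fin n → Fin n → Bool) → (Fin R → Bool) → ℕ → Fin W → Fin r → Option (Form n)
  ask : (Fin n → Fin n → Bool) → (Fin R → Bool) → ℕ → Fin W → RegQ n d r
  next : (Fin n → Fin n → Bool) → (Fin R → Bool) → ℕ → Fin W → SignType → Fin W
  out : (Fin n → Fin n → Bool) → (Fin R → Bool) → Fin W → Bool

variable {n d D W r R : ℕ}

/-- The registers after the loads of the step number `t` in the memory state `v`. -/
noncomputable def RegAlg.regs (A : RegAlg n d D W r R) (I : Inst n) (ρ : Fin R → Bool) (t : ℕ)
    (v : Fin W) (x : Fin r → ℝ) : Fin r → ℝ :=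
  fun i => match A.load I.flag ρ t v i with
    | none => x i
    | some F => F.val I

/-- The memory state and the registers after `t` steps. -/
noncomputable def RegAlg.conf (A : RegAlg n d D W r R) (I : Inst n) (ρ : Fin R → Bool) :
    ℕ → Fin W × (Fin r → ℝ)
  | 0 => (A.init I.flag ρ, 0)
  | t + 1 =>
    let v := (A.conf I ρ t).1
    let x := A.regs I ρ t v (A.conf I ρ t).2
    (A.next I.flag ρ t v ((A.ask I.flag ρ t v).ans I x), x)

/-- The output after `D` steps. -/
noncomputable def RegAlg.output (A : RegAlg n d D W r R) (I : Inst n) (ρ : Fin R → Bool) : Bool :=
  A.out I.flag ρ (A.conf I ρ D).1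

open Classical in
/-- The algorithm decides Exact Triangle with bounded error: on every valid instance the output
is correct with probability at least `2/3` over the random bits. -/
def RegAlg.Decides (A : RegAlg n d D W r R) : Prop :=
  ∀ I : Inst n, I.Valid →
    2 * 2 ^ R ≤
      3 * (Finset.univ.filter fun ρ : Fin R → Bool => (A.output I ρ = true ↔ I.Yes)).card

end Pool.Agent.Helper21.DS
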