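import Pool.Agent.Helper21.DS.Reg
import Pool.Agent.Helper21.DS.Asym

/-!
# The bounds for algorithms with registers
-/

set_option autoImplicit false

namespace Pool.Agent.Helper21.DS

open Finset
open Pool.Agent.Helper22.ETModel Pool.Agent.Helper22.TSModel Pool.Agent.Helper22.EP

private lemma rpow_le_cube {n : ℕ} (hn : 1 ≤ n) {x : ℝ} (hx : 0 ≤ x) :
    (n : ℝ) ^ (3 - x) ≤ ((n ^ 3 : ℕ) : ℝ) := by
  have hn1 : (1 : ℝ) ≤ n := by exact_mod_cast hn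
  calc (n : ℝ) ^ (3 - x) ≤ (n : ℝ) ^ (3 : ℝ) :=
        Real.rpow_le_rpow_of_exponent_le hn1 (by linarith)
    _ = ((n ^ 3 : ℕ) : ℝ) := by
        push_cast
        norm_cast

private lemma W_pos {n d D W r R : ℕ} (A : RegAlg n d D W r R) : 1 ≤ W := by
  have := (A.init (fun _ _ => false) (fun _ => false)).isLt
  omega

/-- The quantitative bound for algorithms with `r` registers. -/
theorem quantitative_reg {n k d s D W r R : ℕ} (hn : 3 ≤ n) (hk : 1 ≤ k) (hd : 2 * d ≤ s)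
    (hs : 2 ^ 9 * n ^ 4 * (W * (n ^ 3 * W + 1) ^ r) ≤ 2 ^ s) (hsn : 6 * (60 * s) ^ k ≤ n)
    (hsz : (n ^ 3 * (W * (n ^ 3 * W + 1) ^ r)) ^ (k + 2) ≤ n ^ 286)
    (A : RegAlg n d D W r R) (hA : A.Decides) :
    (n : ℝ) ^ (3 - 1 / (k : ℝ)) ≤ 2 ^ 10 * (2 ^ 7 * s) ^ k * D := by
  have hW := W_pos A
  rcases Nat.lt_or_ge (n ^ 3) D with hD | hD
  · have h1 : (n : ℝ) ^ (3 - 1 / (k : ℝ)) ≤ ((n ^ 3 : ℕ) : ℝ) :=
      rpow_le_cube (by omega) (by positivity)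
    have h2 : ((n ^ 3 : ℕ) : ℝ) ≤ D := by exact_mod_cast hD.le
    have hs1 : 1 ≤ s := by
      rcases Nat.eq_zero_or_pos s with h0 | h0
      · exfalso
        rw [h0, pow_zero] at hs
        have h3 : 1 ≤ n ^ 4 * (W * (n ^ 3 * W + 1) ^ r) :=
          Nat.mul_pos (Nat.pow_pos (by omega)) (Nat.mul_pos hW (Nat.pow_pos (Nat.succ_pos _)))
        have h4 : 2 ^ 9 * n ^ 4 * (W * (n ^ 3 * W + 1) ^ r) =
            2 ^ 9 * (n ^ 4 * (W * (n ^ 3 * W + 1) ^ r)) := by ring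
        omega
      · exact h0
    have hs1r : (1 : ℝ) ≤ s := by exact_mod_cast hs1
    have h5 : (1 : ℝ) ≤ 2 ^ 10 * (2 ^ 7 * (s : ℝ)) ^ k := by
      have h6 : (1 : ℝ) ≤ (2 ^ 7 * (s : ℝ)) ^ k := one_le_pow₀ (by linarith)
      linarith
    have hD0 : (0 : ℝ) ≤ D := Nat.cast_nonneg D
    exact (h1.trans h2).trans (le_mul_of_one_le_left hD0 h5)
  · obtain ⟨A', hA'⟩ := A.simulate hA
    have hle : W * (D * W + 1) ^ r ≤ W * (n ^ 3 * W + 1) ^ r :=
      Nat.mul_le_mul_left _ (Nat.pow_le_pow_left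
        (Nat.succ_le_succ (Nat.mul_le_mul_right _ hD)) _)
    exact quantitative hn hk hd ((Nat.mul_le_mul_left _ hle).trans hs) hsn
      ((Nat.pow_le_pow_left (Nat.mul_le_mul_left _ hle) _).trans hsz) A' hA'

/-- The asymptotic form for algorithms with `r` registers. -/
theorem asymptotic_reg (w ε : ℝ) (r : ℕ) (hw : 0 ≤ w) (hε : 0 < ε)
    (h : (w + 3) * (r + 1) * (1 / ε + 3) < 286) :
    ∃ δ : ℝ, 0 < δ ∧ ∃ n₀ : ℕ, ∀ n : ℕ, n₀ ≤ n → ∀ d D W R : ℕ, (d : ℝ) ≤ (n : ℝ) ^ δ →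
      (W : ℝ) ≤ (n : ℝ) ^ w → ∀ A : RegAlg n d D W r R, A.Decides →
        (n : ℝ) ^ (3 - ε) ≤ D := by
  have h0 : 0 < 1 / ε + 3 := by positivity
  set w' : ℝ := 286 / (1 / ε + 3) - 3 with hw'
  set η : ℝ := w' - (w + r * (w + 3)) with hη
  have hη0 : 0 < η := by
    have h1 : (w + 3) * (r + 1) < 286 / (1 / ε + 3) := by
      rw [lt_div_iff₀ h0]
      exact h
    rw [hη, hw']
    nlinarith
  have hr0 : (0 : ℝ) ≤ r := Nat.cast_nonneg r
  have hw'0 : 0 ≤ w' := by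
    have : 0 ≤ w + r * (w + 3) := by positivity
    linarith
  have hcond : (w' + 3) * (1 / ε + 3) ≤ 286 := by
    rw [hw']
    have : (286 / (1 / ε + 3) - 3 + 3) * (1 / ε + 3) = 286 := by
      rw [sub_add_cancel, div_mul_cancel₀ _ h0.ne']
    exact this.le
  obtain ⟨δ, hδ, n₀, hmain⟩ := asymptotic w' ε hw'0 hε hcond
  obtain ⟨n₁, hn₁⟩ : ∃ n₁ : ℕ, ∀ n : ℕ, n₁ ≤ n → (2 : ℝ) ^ r ≤ (n : ℝ) ^ η := by
    have ht := (tendsto_rpow_atTop hη0).comp tendsto_natCast_atTop_atTop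
    have hev := ht.eventually_ge_atTop ((2 : ℝ) ^ r)
    rw [Filter.eventually_atTop] at hev
    obtain ⟨a, ha⟩ := hev
    exact ⟨a, fun n hn => ha n hn⟩
  refine ⟨δ, hδ, max n₀ (max n₁ 1), fun n hn d D W R hd hW A hA => ?_⟩
  have hn0 : n₀ ≤ n := le_trans (le_max_left _ _) hn
  have hn1 : n₁ ≤ n := le_trans ((le_max_left _ _).trans (le_max_right _ _)) hn
  have hn2 : 1 ≤ n := le_trans ((le_max_right _ _).trans (le_max_right _ _)) hn
  have hn1r : (1 : ℝ) ≤ n := by exact_mod_cast hn2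
  rcases Nat.lt_or_ge (n ^ 3) D with hD | hD
  · refine (rpow_le_cube hn2 hε.le).trans ?_
    exact_mod_cast hD.le
  · obtain ⟨A', hA'⟩ := A.simulate hA
    refine hmain n hn0 d D _ R hd ?_ A' hA'
    push_cast
    have hDr : (D : ℝ) ≤ (n : ℝ) ^ (3 : ℝ) := by
      have h2 : (D : ℝ) ≤ ((n ^ 3 : ℕ) : ℝ) := by exact_mod_cast hD
      refine h2.trans (le_of_eq ?_)
      push_cast
      norm_cast
    have hW0 : (0 : ℝ) ≤ W := Nat.cast_nonneg W
    have hn0r : (0 : ℝ) < n := by linarith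
    have h3 : (D : ℝ) * W + 1 ≤ 2 * (n : ℝ) ^ (3 + w) := by
      have h4 : (D : ℝ) * W ≤ (n : ℝ) ^ (3 + w) := by
        rw [Real.rpow_add hn0r]
        exact mul_le_mul hDr hW hW0 (by positivity)
      have h5 : (1 : ℝ) ≤ (n : ℝ) ^ (3 + w) := Real.one_le_rpow hn1r (by linarith)
      linarith
    calc (W : ℝ) * ((D : ℝ) * W + 1) ^ r ≤ (n : ℝ) ^ w * (2 * (n : ℝ) ^ (3 + w)) ^ r := by
          apply mul_le_mul hW _ (by positivity) (by positivity)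
          exact pow_le_pow_left₀ (by positivity) h3 r
      _ = 2 ^ r * (n : ℝ) ^ (w + r * (w + 3)) := by
          rw [mul_pow, ← Real.rpow_natCast ((n : ℝ) ^ (3 + w)) r, ← Real.rpow_mul hn0r.le,
            mul_left_comm, ← Real.rpow_add hn0r]
          congr 2
          ring
      _ ≤ (n : ℝ) ^ η * (n : ℝ) ^ (w + r * (w + 3)) :=
          mul_le_mul_of_nonneg_right (hn₁ n hn1) (by positivity)
      _ = (n : ℝ) ^ w' := by
          rw [← Real.rpow_add hn0r]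
          congr 1
          rw [hη]
          ring

end Pool.Agent.Helper21.DS
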