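import Pool.Agent.Helper21.DS.InstA
import Pool.Agent.Helper21.DS.Sign

/-!
# Real runs and ideal runs
-/

set_option autoImplicit false

namespace Pool.Agent.Helper21.DS

open Finset
open Pool.Agent.Helper22.ETModel Pool.Agent.Helper22.TSModel Pool.Agent.Helper22.EP
open Pool.Agent.Helper23.SP (pre sg)
open Pool.Agent.Helper8.ZT

variable {m n k b Z M N d D W R : ℕ} [NeZero b]

theorem run0_tinyN (ν : E m → Fin (N + 1)) (e : E m) : |tinyN ν e| ≤ 2 * (N : ℤ) + 1 := by
  have h1 : ((ν e : ℕ) : ℤ) ≤ N := by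
    have := (ν e).2
    omega
  have h2 : (0 : ℤ) ≤ ((ν e : ℕ) : ℤ) := Int.natCast_nonneg _
  unfold tinyN
  rw [abs_le]
  split_ifs <;> constructor <;> omega

theorem run0_tinyQ (ν : E m → Fin (N + 1)) (e0 e1 e : E m) : |tinyQ ν e0 e1 e| ≤ 2 * (N : ℤ) + 1 := by
  have h1 : ((ν e1 : ℕ) : ℤ) ≤ N := by
    have := (ν e1).2
    omega
  have h2 : (0 : ℤ) ≤ ((ν e1 : ℕ) : ℤ) := Int.natCast_nonneg _
  unfold tinyQ
  split_ifs
  · rw [abs_le]
    constructor <;> omega
  · exact run0_tinyN ν e

/-- The values of the planted instance. -/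
theorem run0_vl (L Y Q : ℕ) (dg : E m → Fin k → Fin b) (lam : Lam m k b Z M N) (i j l : Fin m)
    (h0 : (lam.1 (0, i, j)).1 = false) (h1 : (lam.1 (1, j, l)).1 = false)
    (hd : dg (1, j, l) = dg (0, i, j)) :
    (fun e => (vl L Y Q dg lam (tinyQ lam.2.2 (0, i, j) (1, j, l)) e : ℝ)) =
      Function.update (fun e => (vl L Y Q dg lam (tinyN lam.2.2) e : ℝ)) (0, i, j)
        (vl L Y Q dg lam (tinyN lam.2.2) (1, j, l) : ℝ) := by
  funext e
  by_cases he : e = (0, i, j)
  · rw [he, Function.update_self]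
    congr 1
    unfold vl
    rw [h0, h1, hd]
    simp only [Bool.false_eq_true, if_false]
    congr 1
    unfold tinyQ tinyN
    simp
  · rw [Function.update_of_ne he]
    congr 1
    unfold vl
    congr 1
    unfold tinyQ
    rw [if_neg he]

/-- The answer on the basic instance is the ideal answer. -/
theorem ans_base {s L Y Q : ℕ} (hs : 1 ≤ s) (hL : 16 * s * (N + 1) ≤ L)
    (hY : 16 * s * M ≤ Y) (hQ : 24 * m ^ 2 * (L * Y ^ k) ≤ Q) (h : 3 * m ≤ n)
    (dg : E m → Fin k → Fin b) (lam : Lam m k b Z M N) (q : DenseQ n d)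
    (hG : GoodQ h s L Y Q dg lam q) :
    (denseFam n d).ans q (instOf h (wg L Y Q dg lam (tinyN lam.2.2))) =
      iansw h s L Y Q dg lam q := by
  classical
  cases q with
  | sign c a =>
    obtain ⟨h1, h2⟩ := hG
    have h3 := sign_eq hs hL hY hQ c (gam h a) dg lam (tinyN lam.2.2) (run0_tinyN _)
      (fun e he => absurd rfl he) h1 h2
    unfold denseFam iansw
    simp only
    rw [form_inst, h3, if_pos h1]
  | zero f hf =>
    unfold denseFam iansw
    simp only
    rw [poly_inst]
    by_cases h1 : ∀ y, pev h f y = 0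
    · rw [if_pos (h1 _), if_pos h1]
    · rw [if_neg h1]
      have h2 : ∃ y, pev h f y ≠ 0 := by
        by_contra h3
        exact h1 fun y => by
          by_contra h4
          exact h3 ⟨y, h4⟩
      rw [if_neg (hG h2).1]

/-- The answer on the planted instance is the ideal answer if `(0, i, j)` is not revealed on
level `k`. -/
theorem ans_plant {s L Y Q : ℕ} (hs : 1 ≤ s) (hL : 16 * s * (N + 1) ≤ L)
    (hY : 16 * s * M ≤ Y) (hQ : 24 * m ^ 2 * (L * Y ^ k) ≤ Q) (h : 3 * m ≤ n)
    (dg : E m → Fin k → Fin b) (lam : Lam m k b Z M N) (q : DenseQ n d)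
    (hG : GoodQ h s L Y Q dg lam q) (i j l : Fin m) (h0 : (lam.1 (0, i, j)).1 = false)
    (h1 : (lam.1 (1, j, l)).1 = false) (hd : dg (1, j, l) = dg (0, i, j))
    (hr : (0, i, j) ∉ mt (SQ h s lam.1 q) dg k) :
    (denseFam n d).ans q (instOf h (wg L Y Q dg lam (tinyQ lam.2.2 (0, i, j) (1, j, l)))) =
      iansw h s L Y Q dg lam q := by
  classical
  cases q with
  | sign c a =>
    obtain ⟨h2, h3⟩ := hG
    unfold SQ at hr
    simp only at hr
    rw [if_pos h2] at hr
    have h4 := sign_eq hs hL hY hQ c (gam h a) dg lam (tinyQ lam.2.2 (0, i, j) (1, j, l))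
      (run0_tinyQ _ _ _) (fun e he => by
        have h5 : e = (0, i, j) := by
          by_contra h6
          refine he ?_
          unfold tinyQ
          rw [if_neg h6]
        rw [h5]
        exact ⟨h0, hr⟩) h2 h3
    unfold denseFam iansw
    simp only
    rw [form_inst, h4, if_pos h2]
  | zero f hf =>
    unfold denseFam iansw
    simp only
    rw [poly_inst]
    by_cases h2 : ∀ y, pev h f y = 0
    · rw [if_pos (h2 _), if_pos h2]
    · rw [if_neg h2]
      have h3 : ∃ y, pev h f y ≠ 0 := by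
        by_contra h4
        exact h2 fun y => by
          by_contra h5
          exact h4 ⟨y, h5⟩
      have h4 : ((0, i, j), (1, j, l)) ∉ covp h f := by
        intro h5
        refine hr ?_
        have h6 : (0, i, j) ∈ cove h f := Finset.mem_union_left _ (Finset.mem_image_of_mem Prod.fst h5)
        have h7 : (1, j, l) ∈ cove h f := Finset.mem_union_right _ (Finset.mem_image_of_mem Prod.snd h5)
        unfold mt
        rw [Finset.mem_filter]
        refine ⟨h6, Or.inr ⟨(1, j, l), h7, ?_, ?_⟩⟩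
        · intro h8
          have h9 : (1 : Fin 3) = 0 := congrArg Prod.fst h8
          exact absurd h9 (by decide)
        · rw [hd]
      rw [run0_vl L Y Q dg lam i j l h0 h1 hd, if_neg ((hG h3).2 i j l h4)]

end Pool.Agent.Helper21.DS
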